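import Pool.Agent.Y129.Z.Cov

/-!
# Classes of a system of bounded index are fixed by idempotents of bounded rank
-/

open CategoryTheory AlgebraicGeometry

universe u v

namespace Pool.Agent.Y129.Z

open Module
open Pool.Agent.Y133.Half

open Pool.Agent.H914 Pool.Agent.H914.VarClass Pool.Agent.H914.VarClass.Obj
  Pool.Agent.H914.WeilCohomology

variable {k : Type u} [Field k] {𝒱 : VarClass k} {ops : CycleOps 𝒱}
  {W : WeilCohomology.{u, v} ops} (S T : Sys W) {X P Q Z' : 𝒱.Obj}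

/-- The rank of the intersection form on the classes of `S` on `X ^ n` is not negligible with
respect to the dimension of the space of classes of `T`. -/
def Large (X : 𝒱.Obj) : Prop :=
  ∀ N : ℕ, ∃ n₀ : ℕ, ∀ n ≥ n₀, N * S.a (pw X n) ≤ finrank W.K (T.C (pw X n))

/-- The consequences of a bounded index. -/
structure Bdd (X : 𝒱.Obj) (N : ℕ) : Prop where
  pos : 0 < finrank W.K (W.H X)
  al_pos : ∀ l, 0 < S.al X l
  ratio : ∀ c : ℝ, 0 ≤ c → c < (finrank W.K (W.H X) : ℝ) ^ 2 →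
      ∃ l₀, ∀ l ≥ l₀, c * S.al X l ≤ S.al X (l + 1)
  bdd : ∀ l₀, ∃ l ≥ l₀, finrank W.K (T.C ((pw X l).prod (pw X l))) ≤ N * S.al X l

lemma r_lower_rank {g : Module.End W.K (W.H P)} (hg : g ∈ S.Op P P) (hgg : g ∘ₗ g = g)
    (Y : 𝒱.Obj) :
    S.a (P.prod (Y.prod Y)) + finrank W.K (LinearMap.range g) * S.a (Y.prod Y) ≤
      S.r P g (Y.prod Y) + finrank W.K (W.H P) * S.a (Y.prod Y) := by
  have h1 := S.r_add_le (Z := Y.prod Y) g (1 - g)
  rw [add_sub_cancel, Sys.r_one] at h1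
  obtain ⟨h2, h3⟩ := Sys.finrank_compl hgg
  have h4 := S.r_le_rank (g := 1 - g) (Submodule.sub_mem _ Sys.Op.id hg) h2 Y
  calc S.a (P.prod (Y.prod Y)) + finrank W.K (LinearMap.range g) * S.a (Y.prod Y)
      ≤ (S.r P g (Y.prod Y) + finrank W.K (LinearMap.range (1 - g)) * S.a (Y.prod Y)) +
        finrank W.K (LinearMap.range g) * S.a (Y.prod Y) :=
          Nat.add_le_add_right (h1.trans (Nat.add_le_add_left h4 _)) _
    _ = S.r P g (Y.prod Y) + (finrank W.K (LinearMap.range (1 - g)) +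
          finrank W.K (LinearMap.range g)) * S.a (Y.prod Y) := by ring
    _ = _ := by rw [h3]

variable {S T}

/-- A class of a system of bounded index is fixed by an idempotent operator of bounded rank. -/
theorem Bdd.cover {N : ℕ} (h : Bdd S T X N) (hST : ∀ X, S.C X ≤ T.C X) {m j : ℕ}
    (hm : m + 1 = 2 * j) (θ : P ≅ pw X m) {t : W.H P} (ht : t ∈ T.C P) :
    ∃ g ∈ S.Op P P, g ∘ₗ g = g ∧ g t = t ∧ finrank W.K (LinearMap.range g) ≤ N := by
  have hX' : (0 : ℝ) < (finrank W.K (W.H X) : ℝ) ^ 2 := by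
    have : (0 : ℝ) < finrank W.K (W.H X) := by exact_mod_cast h.pos
    positivity
  obtain ⟨c, hc0, hcB, hc⟩ := exists_close hX' j (ε := 1 / 2) (by norm_num)
  obtain ⟨l₀, hl₀⟩ := h.ratio c hc0 hcB
  obtain ⟨l, hl, hN⟩ := h.bdd l₀
  obtain ⟨g, hg, hgg, hgt, hr⟩ := sys_cover S hST P ((pw X l).prod (pw X l)) ht
  refine ⟨g, hg, hgg, hgt, ?_⟩
  have h1 := r_lower_rank S hg hgg (pw X l)
  have h2 : S.a (P.prod ((pw X l).prod (pw X l))) = S.al X (l + j) := by
    rw [S.a_iso (prodCongr θ (Iso.refl _))]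
    exact S.a_pw X (by omega)
  have h3 : finrank W.K (W.H P) = finrank W.K (W.H X) ^ (2 * j) := by
    rw [finrank_iso θ, finrank_pw, hm]
  have h4 := ratio_pow hc0 hl₀ j l hl
  rw [h2, h3] at h1
  have h5 : S.a ((pw X l).prod (pw X l)) = S.al X l := rfl
  rw [h5] at h1
  have h6 : S.al X (l + j) + finrank W.K (LinearMap.range g) * S.al X l ≤
      N * S.al X l + finrank W.K (W.H X) ^ (2 * j) * S.al X l :=
    h1.trans (Nat.add_le_add_right (hr.trans hN) _)
  have h7 : (S.al X (l + j) : ℝ) + finrank W.K (LinearMap.range g) * S.al X l ≤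
      N * S.al X l + ((finrank W.K (W.H X) : ℝ) ^ 2) ^ j * S.al X l := by
    rw [← pow_mul]
    exact_mod_cast h6
  have h8 : (0 : ℝ) < S.al X l := by exact_mod_cast h.al_pos l
  have h9 : (((finrank W.K (W.H X) : ℝ) ^ 2) ^ j - 1 / 2) * S.al X l ≤ S.al X (l + j) :=
    (mul_le_mul_of_nonneg_right hc.le h8.le).trans h4
  have h10 : ((finrank W.K (LinearMap.range g) : ℝ) - 1 / 2) * S.al X l ≤ N * S.al X l := by
    nlinarith
  have h11 := le_of_mul_le_mul_right h10 h8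
  by_contra h12
  push Not at h12
  have h13 : ((N : ℝ) + 1) ≤ finrank W.K (LinearMap.range g) := by exact_mod_cast h12
  linarith

/-- The dichotomy. -/
theorem bdd_of_not_large (hST : ∀ X, S.C X ≤ T.C X) (h : ¬ Large S T X) : ∃ N, Bdd S T X N := by
  rw [Large] at h
  push Not at h
  obtain ⟨N, hN⟩ := h
  by_cases hZ : ∀ l ∈ S.C X, W.tr X l = 0
  · exfalso
    obtain ⟨n, _, hn⟩ := hN 0
    rw [S.a_eq_zero_of hZ n, mul_zero] at hn
    exact absurd hn (Nat.not_lt_zero _)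
  push Not at hZ
  obtain ⟨l', hl', hl'0⟩ := hZ
  obtain ⟨l, hl, hl1⟩ : ∃ l ∈ S.C X, W.tr X l = 1 :=
    ⟨(W.tr X l')⁻¹ • l', Submodule.smul_mem _ _ hl', by
      rw [map_smul, smul_eq_mul, inv_mul_cancel₀ hl'0]⟩
  have h1 : (1 : W.H X) ≠ 0 := one_ne_zero_of (ne_zero_of_tr hl1)
  have hX : 0 < finrank W.K (W.H X) := by
    have : Nontrivial (W.H X) := ⟨⟨1, 0, h1⟩⟩
    exact Module.finrank_pos
  have hpos : ∀ n, 0 < S.al X n := by
    intro n
    obtain ⟨m, hm, hm1⟩ := S.exists_lam hl hl1 n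
    refine S.a_pos (Sys.xp_mem_C S hm hm) ?_
    rw [tr_xp, hm1, mul_one]
  rcases ratio_dichotomy hpos (S.al_convex X) ((finrank W.K (W.H X) : ℝ) ^ 2) with
    ⟨c, hc, hcB, h⟩ | hB
  · exfalso
    have hN0 : (0 : ℝ) < N + 1 := by positivity
    obtain ⟨n₀, hn₀⟩ := Sys.small_of (T := T) hc hcB h hX (ε := 1 / (N + 1)) (by positivity)
    obtain ⟨n, hn, hlt⟩ := hN n₀
    have h2 := hn₀ n hn
    have h4 : (0 : ℝ) ≤ finrank W.K (T.C (pw X n)) := Nat.cast_nonneg _
    have h5 : ((N : ℝ) + 1) * S.a (pw X n) ≤ finrank W.K (T.C (pw X n)) := by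
      calc ((N : ℝ) + 1) * S.a (pw X n) ≤ ((N : ℝ) + 1) *
            (1 / (N + 1) * finrank W.K (T.C (pw X n))) := mul_le_mul_of_nonneg_left h2 hN0.le
        _ = _ := by field_simp
    have h6 : (0 : ℝ) ≤ S.a (pw X n) := Nat.cast_nonneg _
    have h7 : (finrank W.K (T.C (pw X n)) : ℝ) < N * S.a (pw X n) := by exact_mod_cast hlt
    linarith
  · refine ⟨N * finrank W.K (W.H X) ^ 2, hX, hpos, hB, fun l₀ => ?_⟩
    obtain ⟨n, hn, hlt⟩ := hN (2 * l₀ + 4)
    obtain ⟨m₀, l, hm₀, hl'⟩ : ∃ m₀ l, m₀ ≤ 1 ∧ n = m₀ + (l + l + 1) + 1 :=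
      ⟨n % 2, (n - n % 2 - 2) / 2, by omega, by omega⟩
    refine ⟨l, by omega, ?_⟩
    set Y := pw X l with hY
    set P₀ := pw X m₀ with hP₀
    let φ : P₀.prod (Y.prod Y) ≅ pw X n :=
      prodCongr (Iso.refl _) (pwAdd X l l) ≪≫ pwAdd X m₀ (l + l + 1) ≪≫
        eqToIso (congrArg (pw X) hl'.symm)
    have hup : S.a (pw X n) ≤ finrank W.K (W.H X) ^ (m₀ + 1) * S.al X l := by
      rw [← S.a_iso φ, ← finrank_pw]
      exact S.a_le _ _
    have hlow : finrank W.K (T.C (Y.prod Y)) ≤ finrank W.K (T.C (pw X n)) := by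
      rw [← T.finrank_C_iso φ]
      apply T.finrank_C_le (snd P₀ (Y.prod Y))
      intro x y hxy
      have h2 : ∀ m, (1 : W.H (pw X m)) ≠ 0 := by
        intro m
        have : Nontrivial (W.H (pw X m)) := by
          apply Module.nontrivial_of_finrank_pos (R := W.K)
          rw [finrank_pw]
          exact Nat.pow_pos hX
        exact one_ne_zero
      have h3 : xp W (1 : W.H P₀) (x - y) = 0 := by
        rw [xp, map_one, one_mul, map_sub, hxy, sub_self]
      exact sub_eq_zero.1 (xp_eq_zero_left (h2 m₀) h3)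
    have hb : finrank W.K (W.H X) ^ (m₀ + 1) ≤ finrank W.K (W.H X) ^ 2 :=
      Nat.pow_le_pow_right hX (by omega)
    calc finrank W.K (T.C (Y.prod Y)) ≤ N * S.a (pw X n) := hlow.trans hlt.le
      _ ≤ N * (finrank W.K (W.H X) ^ (m₀ + 1) * S.al X l) := Nat.mul_le_mul_left _ hup
      _ ≤ N * (finrank W.K (W.H X) ^ 2 * S.al X l) :=
          Nat.mul_le_mul_left _ (Nat.mul_le_mul_right _ hb)
      _ = _ := by ring

end Pool.Agent.Y129.Z
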