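import Pool.Agent.Y129.Z.Rig

/-!
# Systems of classes given by a property of homogeneous classes
-/

open CategoryTheory AlgebraicGeometry

universe u v

namespace Pool.Agent.Y129.Z

open Module
open Pool.Agent.Y133.Half

open Pool.Agent.H914 Pool.Agent.H914.VarClass Pool.Agent.H914.VarClass.Obj
  Pool.Agent.H914.WeilCohomology

variable {k : Type u} [Field k] {𝒱 : VarClass k} {ops : CycleOps 𝒱}
  {W : WeilCohomology.{u, v} ops} {X Y Z' : 𝒱.Obj}

/-- A property of homogeneous classes of even degree which is stable under linear combinations,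
products, pull-backs and push-forwards and holds for the class `1`. -/
structure HPred (W : WeilCohomology.{u, v} ops) where
  /-- the property of the classes of degree `2 j` on `X` -/
  P : ∀ X : 𝒱.Obj, ℕ → W.H X → Prop
  gr : ∀ {X : 𝒱.Obj} {j : ℕ} {c : W.H X}, P X j c → c ∈ W.gr X (2 * j)
  zero : ∀ {X : 𝒱.Obj} {j : ℕ}, P X j 0
  add : ∀ {X : 𝒱.Obj} {j : ℕ} {a b : W.H X}, P X j a → P X j b → P X j (a + b)
  smul : ∀ {X : 𝒱.Obj} {j : ℕ} (r : W.K) {a : W.H X}, P X j a → P X j (r • a)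
  one : ∀ {X : 𝒱.Obj}, P X 0 1
  mul : ∀ {X : 𝒱.Obj} {i j : ℕ} {a b : W.H X}, P X i a → P X j b → P X (i + j) (a * b)
  map : ∀ {X Y : 𝒱.Obj} (f : X ⟶ Y) {j : ℕ} {a : W.H Y}, P Y j a → P X j (W.map f a)
  push : ∀ {X Y : 𝒱.Obj} (f : X ⟶ Y) {j l : ℕ}, l + X.dim = j + Y.dim → ∀ {a : W.H X},
    P X j a → P Y l (W.push f a)

namespace HPred

variable (Q : HPred W)

/-- The space of the classes. -/
noncomputable def sp (Z : 𝒱.Obj) : Submodule W.K (W.H Z) :=
  Submodule.span W.K {c | ∃ j, Q.P Z j c}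

variable {Q}

lemma sp_of {j : ℕ} {c : W.H Z'} (hc : Q.P Z' j c) : c ∈ Q.sp Z' := Submodule.subset_span ⟨j, hc⟩

lemma sp_ind {q : W.H Z' → Prop} (h : ∀ j x, Q.P Z' j x → q x) (h0 : q 0)
    (hadd : ∀ a b, q a → q b → q (a + b)) {x : W.H Z'} (hx : x ∈ Q.sp Z') : q x := by
  have key : ∀ z, z ∈ Q.sp Z' → (q z ∧ ∀ c : W.K, q (c • z)) := by
    intro z hz
    induction hz using Submodule.span_induction with
    | mem x hx => obtain ⟨j, hj⟩ := hx; exact ⟨h j x hj, fun c => h j _ (Q.smul c hj)⟩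
    | zero => exact ⟨h0, fun c => by rw [smul_zero]; exact h0⟩
    | add x y _ _ hx hy =>
      exact ⟨hadd x y hx.1 hy.1, fun c => by rw [smul_add]; exact hadd _ _ (hx.2 c) (hy.2 c)⟩
    | smul c x _ hx => exact ⟨hx.2 c, fun d => by rw [smul_smul]; exact hx.2 _⟩
  exact (key x hx).1

lemma sp_proj {x : W.H X} (hx : x ∈ Q.sp X) (j : ℕ) :
    Q.P X j (H914.proj (W.isInternal X) (2 * j) x) := by
  refine sp_ind (q := fun x => Q.P X j (H914.proj (W.isInternal X) (2 * j) x))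
    ?_ ?_ ?_ hx
  · intro i x hx
    by_cases h : i = j
    · subst h
      rw [proj_same _ (Q.gr hx)]; exact hx
    · rw [proj_ne _ (Q.gr hx) (by omega)]; exact Q.zero
  · rw [map_zero]; exact Q.zero
  · intro x y hx hy
    rw [map_add]; exact Q.add hx hy

/-- The homogeneous classes of the system. -/
lemma sp_gr {j : ℕ} {x : W.H X} (hx : x ∈ Q.sp X) (hj : x ∈ W.gr X (2 * j)) : Q.P X j x := by
  have h := sp_proj hx j
  rwa [proj_same _ hj] at h

lemma sp_even {x : W.H X} (hx : x ∈ Q.sp X) : x ∈ PH W X 0 := by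
  refine sp_ind (q := fun x => x ∈ PH W X 0) ?_ ?_ ?_ hx
  · intro j x hx; exact PH.of' (b := 0) (Nat.mul_mod_right 2 j) (Q.gr hx)
  · exact Submodule.zero_mem _
  · intro x y hx hy; exact Submodule.add_mem _ hx hy

variable (Q)

/-- The system of the classes. -/
noncomputable def sys : Sys W where
  C Z := Q.sp Z
  even := sp_even
  one Z := sp_of Q.one
  mul {Z c d} hc hd := by
    refine sp_ind (q := fun c => c * d ∈ Q.sp Z) ?_ ?_ ?_ hc
    · intro j x hx
      refine sp_ind (q := fun d => x * d ∈ Q.sp Z) ?_ ?_ ?_ hd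
      · intro l y hy; exact sp_of (Q.mul hx hy)
      · rw [mul_zero]; exact Submodule.zero_mem _
      · intro a b ha hb; rw [mul_add]; exact Submodule.add_mem _ ha hb
    · rw [zero_mul]; exact Submodule.zero_mem _
    · intro a b ha hb; rw [add_mul]; exact Submodule.add_mem _ ha hb
  map {X Y} f c hc := by
    refine sp_ind (q := fun c => W.map f c ∈ Q.sp X) ?_ ?_ ?_ hc
    · intro j x hx; exact sp_of (Q.map f hx)
    · rw [map_zero]; exact Submodule.zero_mem _
    · intro a b ha hb; rw [map_add]; exact Submodule.add_mem _ ha hb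
  push {X Y} f c hc := by
    refine sp_ind (q := fun c => W.push f c ∈ Q.sp Y) ?_ ?_ ?_ hc
    · intro j x hx
      by_cases hd : X.dim ≤ j + Y.dim
      · exact sp_of (Q.push f (l := j + Y.dim - X.dim) (by omega) hx)
      · have h2 := W.push_mem f (Q.gr hx)
        rw [grZ_of_neg (by push_cast; omega), Submodule.mem_bot] at h2
        rw [h2]
        exact Submodule.zero_mem _
    · rw [map_zero]; exact Submodule.zero_mem _
    · intro a b ha hb; rw [map_add]; exact Submodule.add_mem _ ha hb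

lemma sys_C (Z : 𝒱.Obj) : Q.sys.C Z = Q.sp Z := rfl

/-- The conjunction of two properties. -/
def inf (Q R : HPred W) : HPred W where
  P X j c := Q.P X j c ∧ R.P X j c
  gr h := Q.gr h.1
  zero := ⟨Q.zero, R.zero⟩
  add ha hb := ⟨Q.add ha.1 hb.1, R.add ha.2 hb.2⟩
  smul r _ h := ⟨Q.smul r h.1, R.smul r h.2⟩
  one := ⟨Q.one, R.one⟩
  mul ha hb := ⟨Q.mul ha.1 hb.1, R.mul ha.2 hb.2⟩
  map f _ _ h := ⟨Q.map f h.1, R.map f h.2⟩
  push f _ _ hl _ h := ⟨Q.push f hl h.1, R.push f hl h.2⟩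

lemma inf_le_left (Q R : HPred W) (Z : 𝒱.Obj) : (Q.inf R).sys.C Z ≤ Q.sys.C Z :=
  Submodule.span_mono fun _ ⟨j, hj⟩ => ⟨j, hj.1⟩

lemma inf_le_right (Q R : HPred W) (Z : 𝒱.Obj) : (Q.inf R).sys.C Z ≤ R.sys.C Z :=
  Submodule.span_mono fun _ ⟨j, hj⟩ => ⟨j, hj.2⟩

end HPred

/-- The homogeneous classes killed by a family of derivations. -/
def killPred {ι : Type*} (Δ : ι → TDer W) : HPred W where
  P X j c := c ∈ W.gr X (2 * j) ∧ ∀ i, (Δ i).D X c = 0
  gr h := h.1
  zero := ⟨Submodule.zero_mem _, fun i => map_zero _⟩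
  add ha hb := ⟨Submodule.add_mem _ ha.1 hb.1, fun i => by rw [map_add, ha.2, hb.2, add_zero]⟩
  smul r _ h := ⟨Submodule.smul_mem _ _ h.1, fun i => by rw [map_smul, h.2, smul_zero]⟩
  one := ⟨W.one_mem _, fun i => (Δ i).one _⟩
  mul {X i j a b} ha hb := ⟨by
    have := W.mul_mem ha.1 hb.1
    rwa [← mul_add] at this, fun l => by
    rw [(Δ l).leib (PH.of' (b := 0) (Nat.mul_mod_right 2 i) ha.1)
      (PH.of' (b := 0) (Nat.mul_mod_right 2 j) hb.1), ha.2, hb.2, zero_mul, mul_zero, add_zero]⟩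
  map {X Y} f {j a} h := ⟨W.map_mem f h.1, fun i => by
    rw [(Δ i).map f (PH.of' (b := 0) (Nat.mul_mod_right 2 j) h.1), h.2, map_zero]⟩
  push {X Y} f {j l} hl {a} h := ⟨by
    have h1 := W.push_mem f h.1
    have h2 : ((2 * j : ℕ) : ℤ) + 2 * ((Y.dim : ℤ) - X.dim) = ((2 * l : ℕ) : ℤ) := by
      push_cast; omega
    rw [h2] at h1
    have := h1
    rwa [grZ_natCast] at this, fun i => by
    rw [(Δ i).push f (PH.of' (b := 0) (Nat.mul_mod_right 2 j) h.1), h.2, map_zero]⟩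

end Pool.Agent.Y129.Z
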