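import Pool.Agent.Y129.Z.GalDefs
import Pool.Agent.Y129.Z.HPred

/-!
# Tate classes and the tensor automorphisms given by the Galois action
-/

open CategoryTheory AlgebraicGeometry

universe u v w

namespace Pool.Agent.Y129.Z

open Module
open Pool.Agent.Y133.Half

open Pool.Agent.H914 Pool.Agent.H914.VarClass Pool.Agent.H914.VarClass.Obj
  Pool.Agent.H914.WeilCohomology

variable {k : Type u} [Field k] {𝒱 : VarClass k} {ops : CycleOps 𝒱}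
  {W : WeilCohomology.{u, v} ops} {X Y P Z' : 𝒱.Obj} {Γ : Type w} [Group Γ]

namespace GalSys

variable (𝒢 : GalSys W Γ)

lemma rho_inv {g : Γ} (hg : g ∈ 𝒢.U X) (x : W.H X) : 𝒢.ρ X g (𝒢.ρ X g⁻¹ x) = x := by
  have h := (𝒢.act X).mul g hg g⁻¹ (inv_mem hg)
  rw [mul_inv_cancel, (𝒢.act X).one] at h
  exact (congrArg (fun f : W.H X →ₐ[W.K] W.H X => f x) h).symm

lemma rho_inj {g : Γ} (hg : g ∈ 𝒢.U X) {x : W.H X} (h : 𝒢.ρ X g x = 0) : x = 0 := by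
  have h1 := 𝒢.rho_inv (inv_mem hg) x
  rw [inv_inv, h, map_zero] at h1
  exact h1.symm

/-- A subgroup of finite index which acts on the source and the target of the morphism, such that
the pull-back is equivariant. -/
lemma exists_V (f : X ⟶ Y) : ∃ V : Subgroup Γ, V.FiniteIndex ∧ ∀ g ∈ V, g ∈ 𝒢.U X ∧ g ∈ 𝒢.U Y ∧
    ∀ y, 𝒢.ρ X g (W.map f y) = W.map f (𝒢.ρ Y g y) := by
  obtain ⟨V, hV, h⟩ := 𝒢.map f
  have := (𝒢.act X).fin
  have := (𝒢.act Y).fin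
  refine ⟨V ⊓ (𝒢.U X ⊓ 𝒢.U Y), inferInstance, fun g hg => ⟨hg.2.1, hg.2.2, fun y => ?_⟩⟩
  exact congrArg (fun F : W.H Y →ₐ[W.K] W.H X => F y) (h g hg.1)

/-- The subgroup attached to a morphism. -/
noncomputable def V (f : X ⟶ Y) : Subgroup Γ := (𝒢.exists_V f).choose

lemma V_fin (f : X ⟶ Y) : (𝒢.V f).FiniteIndex := (𝒢.exists_V f).choose_spec.1

lemma V_spec (f : X ⟶ Y) {g : Γ} (hg : g ∈ 𝒢.V f) : g ∈ 𝒢.U X ∧ g ∈ 𝒢.U Y ∧
    ∀ y, 𝒢.ρ X g (W.map f y) = W.map f (𝒢.ρ Y g y) := (𝒢.exists_V f).choose_spec.2 g hg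

/-- The action and push-forwards. -/
lemma rho_push (f : X ⟶ Y) {g : Γ} (hg : g ∈ 𝒢.V f) (x : W.H X) :
    (𝒢.θ g : W.K) ^ X.dim • 𝒢.ρ Y g (W.push f x) =
      (𝒢.θ g : W.K) ^ Y.dim • W.push f (𝒢.ρ X g x) := by
  obtain ⟨hX, hY, hmap⟩ := 𝒢.V_spec f hg
  have key : ∀ b, W.tr Y (((𝒢.θ g : W.K) ^ X.dim • 𝒢.ρ Y g (W.push f x)) * b) =
      W.tr Y (((𝒢.θ g : W.K) ^ Y.dim • W.push f (𝒢.ρ X g x)) * b) := by
    intro b
    obtain ⟨b', rfl⟩ : ∃ b', 𝒢.ρ Y g b' = b := ⟨_, 𝒢.rho_inv hY b⟩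
    rw [smul_mul_assoc, smul_mul_assoc, map_smul, map_smul, ← map_mul, (𝒢.act Y).tr g hY,
      W.tr_push, W.tr_push, ← hmap, ← map_mul, (𝒢.act X).tr g hX, smul_eq_mul, smul_eq_mul]
    ring
  have h := W.nondeg ((𝒢.θ g : W.K) ^ X.dim • 𝒢.ρ Y g (W.push f x) -
    (𝒢.θ g : W.K) ^ Y.dim • W.push f (𝒢.ρ X g x)) fun b => by
    rw [sub_mul, map_sub, key, sub_self]
  exact sub_eq_zero.1 h

/-- The homogeneous Tate classes. -/
noncomputable def tate : HPred W where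
  P := IsTate 𝒢
  gr h := h.1
  zero := ⟨Submodule.zero_mem _, ⊤, inferInstance, fun g _ => by rw [map_zero, smul_zero]⟩
  add := by
    rintro X j a b ⟨ha, V, hV, hVa⟩ ⟨hb, V', hV', hVb⟩
    exact ⟨Submodule.add_mem _ ha hb, V ⊓ V', inferInstance, fun g hg => by
      rw [map_add, hVa g hg.1, hVb g hg.2, smul_add]⟩
  smul := by
    rintro X j r a ⟨ha, V, hV, hVa⟩
    exact ⟨Submodule.smul_mem _ _ ha, V, hV, fun g hg => by
      rw [map_smul, hVa g hg, smul_comm]⟩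
  one := ⟨W.one_mem _, ⊤, inferInstance, fun g _ => by rw [map_one, pow_zero, one_smul]⟩
  mul := by
    rintro X i j a b ⟨ha, V, hV, hVa⟩ ⟨hb, V', hV', hVb⟩
    refine ⟨?_, V ⊓ V', inferInstance, fun g hg => ?_⟩
    · have := W.mul_mem ha hb
      rwa [← mul_add] at this
    · rw [map_mul, hVa g hg.1, hVb g hg.2, smul_mul_smul_comm, pow_add]
  map := by
    rintro X Y f j a ⟨ha, V, hV, hVa⟩
    have := 𝒢.V_fin f
    refine ⟨W.map_mem f ha, V ⊓ 𝒢.V f, inferInstance, fun g hg => ?_⟩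
    rw [(𝒢.V_spec f hg.2).2.2, hVa g hg.1, map_smul]
  push := by
    rintro X Y f j l hl a ⟨ha, V, hV, hVa⟩
    have := 𝒢.V_fin f
    refine ⟨?_, V ⊓ 𝒢.V f, inferInstance, fun g hg => ?_⟩
    · have h1 := W.push_mem f ha
      have h2 : ((2 * j : ℕ) : ℤ) + 2 * ((Y.dim : ℤ) - X.dim) = ((2 * l : ℕ) : ℤ) := by
        push_cast; omega
      rw [h2] at h1
      have := h1
      rwa [grZ_natCast] at this
    · have h1 := 𝒢.rho_push f hg.2 a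
      rw [hVa g hg.1, map_smul, smul_smul, ← pow_add, add_comm Y.dim j, ← hl, add_comm l, pow_add,
        mul_smul] at h1
      exact smul_right_injective _ (pow_ne_zero _ (𝒢.θ g).ne_zero) h1

open Classical in
/-- The automorphisms of the cohomology given by `g`. -/
noncomputable def gphi (g : Γ) (X : 𝒱.Obj) : W.H X →ₗ[W.K] W.H X :=
  if g ∈ 𝒢.U X then
    scal (W.isInternal X) (fun i => (((𝒢.θ g)⁻¹ : W.Kˣ) : W.K) ^ (i / 2)) ∘ₗ
      (𝒢.ρ X g).toLinearMap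
  else LinearMap.id

lemma gphi_not {g : Γ} (hg : g ∉ 𝒢.U X) (x : W.H X) : 𝒢.gphi g X x = x := by
  rw [gphi, if_neg hg]
  rfl

lemma gphi_gr {g : Γ} (hg : g ∈ 𝒢.U X) {j : ℕ} {x : W.H X} (hx : x ∈ W.gr X (2 * j)) :
    𝒢.gphi g X x = (((𝒢.θ g)⁻¹ : W.Kˣ) : W.K) ^ j • 𝒢.ρ X g x := by
  rw [gphi, if_pos hg, LinearMap.comp_apply, AlgHom.toLinearMap_apply,
    scal_apply _ _ ((𝒢.act X).gr g hg _ x hx), Nat.mul_div_cancel_left _ (by norm_num)]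

omit 𝒢 in
lemma even_ind {q : W.H X → Prop} (h : ∀ j, ∀ x ∈ W.gr X (2 * j), q x) (h0 : q 0)
    (hadd : ∀ x y, q x → q y → q (x + y)) {x : W.H X} (hx : x ∈ PH W X 0) : q x := by
  refine PH.ind (p := q) (fun i hi x hx => ?_) h0 hadd hx
  obtain ⟨j, rfl⟩ : ∃ j, i = 2 * j := ⟨i / 2, by omega⟩
  exact h j x hx

lemma gphi_mem {g : Γ} {j : ℕ} {x : W.H X} (hx : x ∈ W.gr X (2 * j)) :
    𝒢.gphi g X x ∈ W.gr X (2 * j) := by
  by_cases hg : g ∈ 𝒢.U X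
  · rw [𝒢.gphi_gr hg hx]
    exact Submodule.smul_mem _ _ ((𝒢.act X).gr g hg _ x hx)
  · rw [𝒢.gphi_not hg]
    exact hx

lemma gphi_one (g : Γ) (X : 𝒱.Obj) : 𝒢.gphi g X 1 = 1 := by
  by_cases hg : g ∈ 𝒢.U X
  · rw [𝒢.gphi_gr hg (j := 0) (W.one_mem X), pow_zero, one_smul, map_one]
  · exact 𝒢.gphi_not hg 1

lemma gphi_mul (g : Γ) {x y : W.H X} (hx : x ∈ PH W X 0) (hy : y ∈ PH W X 0) :
    𝒢.gphi g X (x * y) = 𝒢.gphi g X x * 𝒢.gphi g X y := by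
  by_cases hg : g ∈ 𝒢.U X
  · refine even_ind (q := fun x => 𝒢.gphi g X (x * y) = 𝒢.gphi g X x * 𝒢.gphi g X y) ?_ ?_ ?_ hx
    · intro i x hx
      refine even_ind (q := fun y => 𝒢.gphi g X (x * y) = 𝒢.gphi g X x * 𝒢.gphi g X y) ?_ ?_ ?_ hy
      · intro j y hy
        have h1 : x * y ∈ W.gr X (2 * (i + j)) := by
          have := W.mul_mem hx hy
          rwa [← mul_add] at this
        rw [𝒢.gphi_gr hg h1, 𝒢.gphi_gr hg hx, 𝒢.gphi_gr hg hy, map_mul, smul_mul_smul_comm,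
          pow_add]
      · simp only [mul_zero, map_zero]
      · intro a b ha hb; simp only [mul_add, map_add, ha, hb]
    · simp only [zero_mul, map_zero]
    · intro a b ha hb; simp only [add_mul, map_add, ha, hb]
  · rw [𝒢.gphi_not hg, 𝒢.gphi_not hg, 𝒢.gphi_not hg]

lemma gphi_map (f : X ⟶ Y) {g : Γ} (hg : g ∈ 𝒢.V f) {y : W.H Y} (hy : y ∈ PH W Y 0) :
    𝒢.gphi g X (W.map f y) = W.map f (𝒢.gphi g Y y) := by
  obtain ⟨hX, hY, hmap⟩ := 𝒢.V_spec f hg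
  refine even_ind (q := fun y => 𝒢.gphi g X (W.map f y) = W.map f (𝒢.gphi g Y y)) ?_ ?_ ?_ hy
  · intro j y hy
    rw [𝒢.gphi_gr hX (W.map_mem f hy), 𝒢.gphi_gr hY hy, hmap, map_smul]
  · simp only [map_zero]
  · intro a b ha hb; simp only [map_add, ha, hb]

lemma gphi_push (f : X ⟶ Y) {g : Γ} (hg : g ∈ 𝒢.V f) {x : W.H X} (hx : x ∈ PH W X 0) :
    𝒢.gphi g Y (W.push f x) = W.push f (𝒢.gphi g X x) := by
  obtain ⟨hX, hY, hmap⟩ := 𝒢.V_spec f hg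
  refine even_ind (q := fun x => 𝒢.gphi g Y (W.push f x) = W.push f (𝒢.gphi g X x)) ?_ ?_ ?_ hx
  · intro j x hx
    have h1 := W.push_mem f hx
    by_cases hd : X.dim ≤ j + Y.dim
    · obtain ⟨l, hl⟩ : ∃ l, l + X.dim = j + Y.dim := ⟨j + Y.dim - X.dim, by omega⟩
      have h2 : ((2 * j : ℕ) : ℤ) + 2 * ((Y.dim : ℤ) - X.dim) = ((2 * l : ℕ) : ℤ) := by
        push_cast; omega
      rw [h2, grZ_natCast] at h1
      rw [𝒢.gphi_gr hY h1, 𝒢.gphi_gr hX hx, map_smul]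
      have h3 := 𝒢.rho_push f hg x
      have hu : (𝒢.θ g : W.K) ≠ 0 := (𝒢.θ g).ne_zero
      apply smul_right_injective _ (pow_ne_zero (l + X.dim) hu)
      dsimp only
      rw [smul_smul, smul_smul]
      have e1 : (𝒢.θ g : W.K) ^ (l + X.dim) * (((𝒢.θ g)⁻¹ : W.Kˣ) : W.K) ^ l =
          (𝒢.θ g : W.K) ^ X.dim := by
        rw [pow_add, mul_comm, ← mul_assoc, ← mul_pow, Units.inv_mul, one_pow, one_mul]
      have e2 : (𝒢.θ g : W.K) ^ (l + X.dim) * (((𝒢.θ g)⁻¹ : W.Kˣ) : W.K) ^ j =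
          (𝒢.θ g : W.K) ^ Y.dim := by
        rw [hl, pow_add, mul_comm, ← mul_assoc, ← mul_pow, Units.inv_mul, one_pow, one_mul]
      rw [e1, e2]
      exact h3
    · rw [grZ_of_neg (by push_cast; omega), Submodule.mem_bot] at h1
      have h4 := W.push_mem f (𝒢.gphi_mem (g := g) hx)
      rw [grZ_of_neg (by push_cast; omega), Submodule.mem_bot] at h4
      rw [h1, h4, map_zero]
  · simp only [map_zero]
  · intro a b ha hb; simp only [map_add, ha, hb]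

lemma gphi_mul_apply {g h : Γ} (hg : g ∈ 𝒢.U X) (hh : h ∈ 𝒢.U X) {x : W.H X}
    (hx : x ∈ PH W X 0) : 𝒢.gphi (g * h) X x = 𝒢.gphi g X (𝒢.gphi h X x) := by
  refine even_ind (q := fun x => 𝒢.gphi (g * h) X x = 𝒢.gphi g X (𝒢.gphi h X x)) ?_ ?_ ?_ hx
  · intro j x hx
    have h1 := (𝒢.act X).gr h hh _ x hx
    rw [𝒢.gphi_gr (mul_mem hg hh) hx, 𝒢.gphi_gr hh hx, map_smul, 𝒢.gphi_gr hg h1,
      (𝒢.act X).mul g hg h hh, map_mul, mul_inv, Units.val_mul, mul_pow, smul_smul]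
    congr 1
    rw [mul_comm]
  · simp only [map_zero]
  · intro a b ha hb; simp only [map_add, ha, hb]

lemma gphi_inj {g : Γ} {x : W.H X} (hx : x ∈ PH W X 0) (h : 𝒢.gphi g X x = 0) : x = 0 := by
  by_cases hg : g ∈ 𝒢.U X
  · have h1 := 𝒢.gphi_mul_apply (inv_mem hg) hg hx
    rw [h, map_zero, inv_mul_cancel] at h1
    rw [← h1]
    symm
    refine even_ind (q := fun x => 𝒢.gphi 1 X x = x) ?_ ?_ ?_ hx
    · intro j x hx
      rw [𝒢.gphi_gr (one_mem _) hx, (𝒢.act X).one, map_one, inv_one, Units.val_one, one_pow,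
        one_smul]
      rfl
    · simp only [map_zero]
    · intro a b ha hb; simp only [map_add, ha, hb]
  · rwa [𝒢.gphi_not hg] at h

/-- The tensor automorphism given by `g`. -/
noncomputable def aut (M : Set (Arr 𝒱)) (g : Γ) (hg : ∀ a ∈ M, g ∈ 𝒢.V a.2.2) : TAut W M where
  φ X := 𝒢.gphi g X
  even {X x} hx := by
    refine even_ind (q := fun x => 𝒢.gphi g X x ∈ PH W X 0) ?_ ?_ ?_ hx
    · intro j x hx
      exact PH.of' (b := 0) (Nat.mul_mod_right 2 j) (𝒢.gphi_mem hx)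
    · rw [map_zero]; exact Submodule.zero_mem _
    · intro a b ha hb; rw [map_add]; exact Submodule.add_mem _ ha hb
  one X := 𝒢.gphi_one g X
  mul hx hy := 𝒢.gphi_mul g hx hy
  map {X Y} f hf {y} hy := 𝒢.gphi_map f (hg _ hf) hy
  push {X Y} f hf {x} hx := 𝒢.gphi_push f (hg _ hf) hx
  inj hx h := 𝒢.gphi_inj hx h

/-- A homogeneous class fixed by a subgroup of finite index is a Tate class. -/
lemma isTate_iff {j : ℕ} {c : W.H X} : IsTate 𝒢 X j c ↔ c ∈ W.gr X (2 * j) ∧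
    ∃ V : Subgroup Γ, V.FiniteIndex ∧ ∀ g ∈ V, 𝒢.gphi g X c = c := by
  have := (𝒢.act X).fin
  refine and_congr_right fun hc => ?_
  have key : ∀ g ∈ 𝒢.U X, 𝒢.gphi g X c = c ↔ 𝒢.ρ X g c = (𝒢.θ g : W.K) ^ j • c := by
    intro g hg
    rw [𝒢.gphi_gr hg hc]
    have hu : (𝒢.θ g : W.K) ^ j ≠ 0 := pow_ne_zero _ (𝒢.θ g).ne_zero
    have e1 : (𝒢.θ g : W.K) ^ j * (((𝒢.θ g)⁻¹ : W.Kˣ) : W.K) ^ j = 1 := by
      rw [← mul_pow, Units.mul_inv, one_pow]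
    constructor
    · intro h
      rw [← h, smul_smul, e1, one_smul]
      rw [h]
    · intro h
      rw [h, smul_smul, mul_comm, e1, one_smul]
  constructor
  · rintro ⟨V, hV, h⟩
    exact ⟨V ⊓ 𝒢.U X, inferInstance, fun g hg => (key g hg.2).2 (h g hg.1)⟩
  · rintro ⟨V, hV, h⟩
    exact ⟨V ⊓ 𝒢.U X, inferInstance, fun g hg => (key g hg.2).1 (h g hg.1)⟩

/-- A finite-dimensional space of Tate classes is fixed by a subgroup of finite index. -/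
lemma exists_fix (O : 𝒱.Obj) : ∃ V : Subgroup Γ, V.FiniteIndex ∧ ∀ g ∈ V,
    ∀ c ∈ 𝒢.tate.sys.C O, 𝒢.gphi g O c = c := by
  classical
  have hfg : (Submodule.span W.K {c | ∃ j, IsTate 𝒢 O j c}).FG :=
    IsNoetherian.noetherian _
  obtain ⟨s, hs, hspan⟩ := (Submodule.fg_span_iff_fg_span_finset_subset _).1 hfg
  have h1 : ∀ c : s, ∃ V : Subgroup Γ, V.FiniteIndex ∧ ∀ g ∈ V, 𝒢.gphi g O (c : W.H O) = c := by
    rintro ⟨c, hc⟩
    obtain ⟨j, hj⟩ := hs hc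
    exact (𝒢.isTate_iff.1 hj).2
  choose V hV hVc using h1
  refine ⟨⨅ c : s, V c, Subgroup.finiteIndex_iInf hV, fun g hg c hc => ?_⟩
  have h2 : c ∈ Submodule.span W.K (s : Set (W.H O)) := by
    rw [← hspan]; exact hc
  clear hc
  induction h2 using Submodule.span_induction with
  | mem x hx => exact hVc ⟨x, hx⟩ g (Subgroup.mem_iInf.1 hg ⟨x, hx⟩)
  | zero => rw [map_zero]
  | add x y _ _ hx hy => rw [map_add, hx, hy]
  | smul a x _ hx => rw [map_smul, hx]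

lemma gphi_id {x : W.H X} (hx : x ∈ PH W X 0) : 𝒢.gphi 1 X x = x := by
  refine even_ind (q := fun x => 𝒢.gphi 1 X x = x) ?_ ?_ ?_ hx
  · intro j x hx
    rw [𝒢.gphi_gr (one_mem _) hx, (𝒢.act X).one, map_one, inv_one, Units.val_one, one_pow,
      one_smul]
    rfl
  · simp only [map_zero]
  · intro a b ha hb; simp only [map_add, ha, hb]

/-- **Classes of a system of bounded index over a system of Tate classes are fixed by a subgroup
of finite index.** -/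
theorem fixed_of_bdd {S T : Sys W} {N : ℕ} (h : Bdd S T X N) (hST : ∀ X, S.C X ≤ T.C X)
    (hS : ∀ Z, S.C Z ≤ 𝒢.tate.sys.C Z) {m : ℕ} (θ : P ≅ pw X m) {t : W.H P} (ht : t ∈ T.C P) :
    ∃ V : Subgroup Γ, V.FiniteIndex ∧ ∀ g ∈ V, 𝒢.gphi g P t = t := by
  classical
  have hte := T.even ht
  obtain ⟨n, hn⟩ : ∃ n, n = 2 * N + 1 := ⟨_, rfl⟩
  have hfin : Finite (arrs P n) := (arrs_finite P n).to_subtype
  have hV₁ : (⨅ a : arrs P n, 𝒢.V a.1.2.2).FiniteIndex :=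
    Subgroup.finiteIndex_iInf fun a => 𝒢.V_fin _
  obtain ⟨V₂, hV₂, hfix⟩ := 𝒢.exists_fix ((pw P n).prod (pw P n))
  have hU := (𝒢.act P).fin
  set V₀ : Subgroup Γ := (⨅ a : arrs P n, 𝒢.V a.1.2.2) ⊓ V₂ ⊓ 𝒢.U P with hV₀
  have hV₀f : V₀.FiniteIndex := inferInstance
  let St : Subgroup Γ :=
    { carrier := {g | g ∈ V₀ ∧ 𝒢.gphi g P t = t}
      mul_mem' := by
        rintro g h ⟨hg, hgt⟩ ⟨hh, hht⟩
        exact ⟨mul_mem hg hh, by rw [𝒢.gphi_mul_apply hg.2 hh.2 hte, hht, hgt]⟩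
      one_mem' := ⟨one_mem _, 𝒢.gphi_id hte⟩
      inv_mem' := by
        rintro g ⟨hg, hgt⟩
        refine ⟨inv_mem hg, ?_⟩
        have h1 := 𝒢.gphi_mul_apply (inv_mem hg.2) hg.2 hte
        rw [hgt, inv_mul_cancel, 𝒢.gphi_id hte] at h1
        exact h1.symm }
  have hSt : ∀ g, g ∈ St ↔ g ∈ V₀ ∧ 𝒢.gphi g P t = t := fun g => Iff.rfl
  refine ⟨St, ?_, fun g hg => ((hSt g).1 hg).2⟩
  have hle : St ≤ V₀ := fun g hg => ((hSt g).1 hg).1
  refine ⟨?_⟩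
  rw [← Subgroup.relIndex_mul_index hle]
  refine mul_ne_zero ?_ hV₀f.index_ne_zero
  intro h0
  have hinf : Infinite (V₀ ⧸ St.subgroupOf V₀) := by
    rw [← not_finite_iff_infinite]
    intro hf
    exact Subgroup.FiniteIndex.index_ne_zero (H := St.subgroupOf V₀)
      (self := Subgroup.finiteIndex_of_finite_quotient) h0
  let e : ℕ ↪ (V₀ ⧸ St.subgroupOf V₀) := Infinite.natEmbedding _
  let G : ℕ → V₀ := fun i => (e i).out
  have hG : ∀ i, (QuotientGroup.mk (G i) : V₀ ⧸ St.subgroupOf V₀) = e i := fun i =>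
    QuotientGroup.out_eq' (e i)
  have hGM : ∀ i, ∀ a ∈ arrs P n, (G i : Γ) ∈ 𝒢.V a.2.2 := by
    intro i a ha
    exact Subgroup.mem_iInf.1 (G i).2.1.1 ⟨a, ha⟩
  obtain ⟨i, j, hij, hijt⟩ := h.orbit hST θ ht hn
    (fun i : Fin (N + 1) => 𝒢.aut (arrs P n) (G i) (hGM i)) (by
      intro i O hO c hc
      obtain rfl : O = (pw P n).prod (pw P n) := hO
      exact hfix _ (G i).2.1.2 c (hS _ hc))
  change 𝒢.gphi (G i) P t = 𝒢.gphi (G j) P t at hijt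
  apply hij
  apply Fin.ext
  apply e.injective
  rw [← hG, ← hG, QuotientGroup.eq]
  rw [Subgroup.mem_subgroupOf]
  refine ⟨(G i)⁻¹.2.2 |> fun _ => ((G i)⁻¹ * G j).2, ?_⟩
  rw [Subgroup.coe_mul, Subgroup.coe_inv,
    𝒢.gphi_mul_apply (inv_mem (G i).2.2) (G j).2.2 hte, ← hijt,
    ← 𝒢.gphi_mul_apply (inv_mem (G i).2.2) (G i).2.2 hte, inv_mul_cancel, 𝒢.gphi_id hte]

/-- Systems of bounded index over systems of Tate classes consist of Tate classes. -/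
theorem tate_of_bdd {S : Sys W} {Q : HPred W} {N : ℕ} (h : Bdd S Q.sys X N)
    (hST : ∀ X, S.C X ≤ Q.sys.C X) (hS : ∀ Z, S.C Z ≤ 𝒢.tate.sys.C Z) {m : ℕ} (θ : P ≅ pw X m)
    {j : ℕ} {t : W.H P} (ht : Q.P P j t) : IsTate 𝒢 P j t :=
  𝒢.isTate_iff.2 ⟨Q.gr ht, 𝒢.fixed_of_bdd h hST hS θ (HPred.sp_of ht)⟩

end GalSys

end Pool.Agent.Y129.Z
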