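import Pool.Agent.Y129.Z.HPred
import Pool.Agent.H914R2.WBase2

/-!
# Derivations of a Weil cohomology theory and extension of the coefficients
-/

open CategoryTheory AlgebraicGeometry TensorProduct

universe u v

namespace Pool.Agent.Y129.Z

open Module
open Pool.Agent.Y133.Half

open Pool.Agent.H914 Pool.Agent.H914.VarClass Pool.Agent.H914.VarClass.Obj
  Pool.Agent.H914.WeilCohomology

section Alg

variable {K : Type*} [Field K] {A : Type*} [Ring A] [Algebra K A] {B : Type*} [Ring B]
  [Algebra K B] {L : Type*} [Field L] [Algebra K L]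

lemma base_leib {D : A →ₗ[K] A} (hD : ∀ x y, D (x * y) = D x * y + x * D y) (x y : L ⊗[K] A) :
    D.baseChange L (x * y) = D.baseChange L x * y + x * D.baseChange L y := by
  refine tmul_induction (P := fun x => D.baseChange L (x * y) = D.baseChange L x * y +
    x * D.baseChange L y) ?_ ?_ ?_ x
  · rw [zero_mul, map_zero, zero_mul, zero_mul, add_zero]
  · intro a b ha hb
    rw [add_mul, map_add, ha, hb, map_add, add_mul, add_mul]
    abel
  · intro l a
    refine tmul_induction (P := fun y => D.baseChange L ((l ⊗ₜ[K] a) * y) =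
      D.baseChange L (l ⊗ₜ[K] a) * y + (l ⊗ₜ[K] a) * D.baseChange L y) ?_ ?_ ?_ y
    · rw [mul_zero, map_zero, mul_zero, mul_zero, add_zero]
    · intro b c hb hc
      rw [mul_add, map_add, hb, hc, map_add, mul_add, mul_add]
      abel
    · intro m b
      rw [Algebra.TensorProduct.tmul_mul_tmul, LinearMap.baseChange_tmul,
        LinearMap.baseChange_tmul, LinearMap.baseChange_tmul, hD,
        Algebra.TensorProduct.tmul_mul_tmul, Algebra.TensorProduct.tmul_mul_tmul, tmul_add]

lemma base_comm {D : A →ₗ[K] A} {E : B →ₗ[K] B} {f : A →ₐ[K] B}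
    (h : ∀ x, E (f x) = f (D x)) (x : L ⊗[K] A) :
    E.baseChange L (mapBase L f x) = mapBase L f (D.baseChange L x) := by
  refine tmul_induction (P := fun x => E.baseChange L (mapBase L f x) =
    mapBase L f (D.baseChange L x)) ?_ ?_ ?_ x
  · simp only [map_zero]
  · intro a b ha hb
    simp only [map_add, ha, hb]
  · intro l a
    rw [LinearMap.baseChange_tmul, Algebra.TensorProduct.map_tmul,
      Algebra.TensorProduct.map_tmul, LinearMap.baseChange_tmul, h]

lemma base_gr {D : A →ₗ[K] A} {p : Submodule K A} (h : ∀ x ∈ p, D x ∈ p) {x : L ⊗[K] A}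
    (hx : x ∈ p.baseChange L) : D.baseChange L x ∈ p.baseChange L := by
  refine base_induction (P := fun x => D.baseChange L x ∈ p.baseChange L) ?_ ?_ ?_ hx
  · rw [map_zero]; exact Submodule.zero_mem _
  · intro a b ha hb; rw [map_add]; exact Submodule.add_mem _ ha hb
  · intro l a ha
    rw [LinearMap.baseChange_tmul]
    exact Submodule.tmul_mem_baseChange_of_mem _ (h a ha)

lemma base_tr {D : A →ₗ[K] A} {t : A →ₗ[K] K} (h : ∀ x, t (D x) = 0) (x : L ⊗[K] A) :
    formBase L t (D.baseChange L x) = 0 := by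
  refine tmul_induction (P := fun x => formBase L t (D.baseChange L x) = 0) ?_ ?_ ?_ x
  · simp only [map_zero]
  · intro a b ha hb; simp only [map_add, ha, hb, add_zero]
  · intro l a
    rw [LinearMap.baseChange_tmul, formBase_tmul, h, map_zero, mul_zero]

section Slice

variable {V : Type*} [AddCommGroup V] [Module K V] {V' : Type*} [AddCommGroup V'] [Module K V']

/-- The map `λ ⊗ id`. -/
noncomputable def slice (V : Type*) [AddCommGroup V] [Module K V] (f : L →ₗ[K] K) :
    L ⊗[K] V →ₗ[K] V :=
  (TensorProduct.lid K V).toLinearMap ∘ₗ LinearMap.rTensor V f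

lemma slice_tmul (f : L →ₗ[K] K) (l : L) (a : V) : slice V f (l ⊗ₜ[K] a) = f l • a := by
  rw [slice, LinearMap.comp_apply, LinearMap.rTensor_tmul, LinearEquiv.coe_coe,
    TensorProduct.lid_tmul]

lemma slice_base (f : L →ₗ[K] K) (T : V →ₗ[K] V') (x : L ⊗[K] V) :
    slice V' f (T.baseChange L x) = T (slice V f x) := by
  induction x using TensorProduct.induction_on with
  | zero => simp only [map_zero]
  | add x y hx hy => simp only [map_add, hx, hy]
  | tmul l a => rw [LinearMap.baseChange_tmul, slice_tmul, slice_tmul, map_smul]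

/-- An element of the extension is a combination of its slices. -/
lemma mem_span_slices (x : L ⊗[K] V) :
    x ∈ Submodule.span L {y | ∃ f : L →ₗ[K] K, y = (1 : L) ⊗ₜ[K] slice V f x} := by
  classical
  let b := Basis.ofVectorSpace K L
  have h1 := (TensorProduct.equivFinsuppOfBasisLeft (N := V) b).symm_apply_apply x
  rw [TensorProduct.equivFinsuppOfBasisLeft_symm_apply] at h1
  have h2 : x = ((TensorProduct.equivFinsuppOfBasisLeft (N := V) b) x).sum
      fun i n => b i ⊗ₜ[K] n := h1.symm
  have h3 : ∀ i, (TensorProduct.equivFinsuppOfBasisLeft (N := V) b) x i =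
      slice V (b.coord i) x := fun i => TensorProduct.equivFinsuppOfBasisLeft_apply b x i
  rw [h2]
  refine Submodule.sum_mem _ fun i _ => ?_
  rw [h3]
  have h4 : b i ⊗ₜ[K] slice V (b.coord i) x =
      (b i : L) • ((1 : L) ⊗ₜ[K] slice V (b.coord i) x) := by
    rw [TensorProduct.smul_tmul', smul_eq_mul, mul_one]
  rw [← h2]
  dsimp only
  rw [h4]
  exact Submodule.smul_mem _ _ (Submodule.subset_span ⟨_, rfl⟩)

lemma eq_zero_of_slices {x : L ⊗[K] V} (h : ∀ f : L →ₗ[K] K, slice V f x = 0) : x = 0 := by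
  have h1 := mem_span_slices x
  have h2 : Submodule.span L {y | ∃ f : L →ₗ[K] K, y = (1 : L) ⊗ₜ[K] slice V f x} ≤ ⊥ := by
    rw [Submodule.span_le]
    rintro y ⟨f, rfl⟩
    rw [h f, tmul_zero]
    exact Submodule.zero_mem _
  exact (Submodule.mem_bot _).1 (h2 h1)

lemma slice_mem {p : Submodule K V} {x : L ⊗[K] V} (hx : x ∈ p.baseChange L)
    (f : L →ₗ[K] K) : slice V f x ∈ p := by
  rw [Submodule.baseChange_eq_span] at hx
  have key : ∀ z ∈ Submodule.span L ((p.map (TensorProduct.mk K L V 1) : Submodule K _) : Set _),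
      ∀ l : L, slice V f (l • z) ∈ p := by
    intro z hz
    induction hz using Submodule.span_induction with
    | mem z hz =>
      intro l
      obtain ⟨a, ha, rfl⟩ := hz
      rw [TensorProduct.mk_apply, TensorProduct.smul_tmul', slice_tmul]
      exact Submodule.smul_mem _ _ ha
    | zero => intro l; rw [smul_zero, map_zero]; exact Submodule.zero_mem _
    | add a b _ _ ha hb => intro l; rw [smul_add, map_add]; exact Submodule.add_mem _ (ha l) (hb l)
    | smul c a _ ha => intro l; rw [smul_smul]; exact ha _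
  have := key x hx 1
  rwa [one_smul] at this

/-- The common kernel of the extensions of linear maps is spanned by the common kernel. -/
lemma mem_span_of_kill {ι : Type*} (T : ι → V →ₗ[K] V') {p : Submodule K V} {x : L ⊗[K] V}
    (hp : x ∈ p.baseChange L) (hx : ∀ i, (T i).baseChange L x = 0) :
    x ∈ Submodule.span L {y | ∃ a ∈ p, (∀ i, T i a = 0) ∧ y = (1 : L) ⊗ₜ[K] a} := by
  refine Submodule.span_mono ?_ (mem_span_slices x)
  rintro y ⟨f, rfl⟩
  exact ⟨_, slice_mem hp f, fun i => by rw [← slice_base, hx, map_zero], rfl⟩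

end Slice

lemma slice_mul_right (f : L →ₗ[K] K) (x : L ⊗[K] A) (a : A) :
    slice A f (x * (1 : L) ⊗ₜ[K] a) = slice A f x * a := by
  refine tmul_induction (P := fun x => slice A f (x * (1 : L) ⊗ₜ[K] a) = slice A f x * a)
    ?_ ?_ ?_ x
  · rw [zero_mul, map_zero, zero_mul]
  · intro x y hx hy; rw [add_mul, map_add, hx, hy, map_add, add_mul]
  · intro l b
    rw [Algebra.TensorProduct.tmul_mul_tmul, slice_tmul, slice_tmul, mul_one, smul_mul_assoc]

lemma slice_mul_left (f : L →ₗ[K] K) (x : L ⊗[K] A) (a : A) :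
    slice A f ((1 : L) ⊗ₜ[K] a * x) = a * slice A f x := by
  refine tmul_induction (P := fun x => slice A f ((1 : L) ⊗ₜ[K] a * x) = a * slice A f x)
    ?_ ?_ ?_ x
  · rw [mul_zero, map_zero, mul_zero]
  · intro x y hx hy; rw [mul_add, map_add, hx, hy, map_add, mul_add]
  · intro l b
    rw [Algebra.TensorProduct.tmul_mul_tmul, slice_tmul, slice_tmul, one_mul, mul_smul_comm]

lemma slice_map (f : L →ₗ[K] K) (g : A →ₐ[K] B) (x : L ⊗[K] A) :
    slice B f (mapBase L g x) = g (slice A f x) := by
  refine tmul_induction (P := fun x => slice B f (mapBase L g x) = g (slice A f x)) ?_ ?_ ?_ x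
  · simp only [map_zero]
  · intro x y hx hy; simp only [map_add, hx, hy]
  · intro l b
    rw [Algebra.TensorProduct.map_tmul, slice_tmul, slice_tmul, map_smul]
    rfl

lemma slice_tr (f : L →ₗ[K] K) (t : A →ₗ[K] K) (x : L ⊗[K] A) :
    f (formBase L t x) = t (slice A f x) := by
  refine tmul_induction (P := fun x => f (formBase L t x) = t (slice A f x)) ?_ ?_ ?_ x
  · simp only [map_zero]
  · intro x y hx hy; simp only [map_add, hx, hy]
  · intro l b
    rw [formBase_tmul, slice_tmul, map_smul, smul_eq_mul, mul_comm l, ← Algebra.smul_def,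
      map_smul, smul_eq_mul, mul_comm]

end Alg

variable {k : Type u} [Field k] {𝒱 : VarClass k} {ops : CycleOps 𝒱}
  {W : WeilCohomology.{u, v} ops} {X Y Z' : 𝒱.Obj}

/-- Derivations of the cohomology algebras compatible with pull-backs and orientations. -/
structure ADer (W : WeilCohomology.{u, v} ops) where
  /-- the derivations -/
  D : ∀ X : 𝒱.Obj, W.H X →ₗ[W.K] W.H X
  gr : ∀ {X : 𝒱.Obj} {i : ℕ} {x : W.H X}, x ∈ W.gr X i → D X x ∈ W.gr X i
  leib : ∀ {X : 𝒱.Obj} (x y : W.H X), D X (x * y) = D X x * y + x * D X y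
  map : ∀ {X Y : 𝒱.Obj} (f : X ⟶ Y) (y : W.H Y), D X (W.map f y) = W.map f (D Y y)
  tr : ∀ {X : 𝒱.Obj} (x : W.H X), W.tr X (D X x) = 0

lemma ADer.push (Δ : ADer W) (f : X ⟶ Y) (x : W.H X) :
    Δ.D Y (W.push f x) = W.push f (Δ.D X x) := by
  have key : ∀ b, W.tr Y (Δ.D Y (W.push f x) * b) = W.tr Y (W.push f (Δ.D X x) * b) := by
    intro b
    have h1 := Δ.tr (W.push f x * b)
    have h2 := Δ.tr (x * W.map f b)
    rw [Δ.leib, map_add] at h1 h2
    have h3 := W.tr_push f x (Δ.D Y b)
    have h4 := W.tr_push f (Δ.D X x) b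
    rw [← Δ.map f b] at h3
    rw [h4]
    rw [h3] at h1
    exact add_right_cancel (h1.trans h2.symm)
  have h := W.nondeg (Δ.D Y (W.push f x) - W.push f (Δ.D X x)) fun b => by
    rw [sub_mul, map_sub, key, sub_self]
  exact sub_eq_zero.1 h

/-- The tensor derivation given by a derivation. -/
def ADer.toTDer (Δ : ADer W) : TDer W where
  D := Δ.D
  even {X x} hx := by
    refine PH.ind (p := fun x => Δ.D X x ∈ PH W X 0) ?_ ?_ ?_ hx
    · intro i hi x hx; exact PH.of' hi (Δ.gr hx)
    · rw [map_zero]; exact Submodule.zero_mem _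
    · intro a b ha hb; rw [map_add]; exact Submodule.add_mem _ ha hb
  leib _ _ := Δ.leib _ _
  map f _ _ := Δ.map f _
  push f _ _ := Δ.push f _

/-- Extension of the coefficients of a derivation. -/
noncomputable def ADer.base (Δ : ADer W) (L : Type v) [Field L] [Algebra W.K L] :
    ADer (baseW W L) where
  D X := ((Δ.D X).baseChange L : L ⊗[W.K] W.H X →ₗ[L] L ⊗[W.K] W.H X)
  gr {X i x} hx := base_gr (D := Δ.D X) (p := W.gr X i) (fun _ h => Δ.gr h) hx
  leib {X} x y := base_leib (D := Δ.D X) Δ.leib x y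
  map f y := base_comm (f := W.map f) (Δ.map f) y
  tr {X} x := base_tr (D := Δ.D X) (t := W.tr X) Δ.tr x

end Pool.Agent.Y129.Z
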