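import Pool.Agent.Y129.Z.HDefs
import Pool.Agent.Y129.Z.Der

/-!
# The derivations attached to a Hodge decomposition
-/

open CategoryTheory AlgebraicGeometry TensorProduct

universe u v

namespace Pool.Agent.Y129.Z

open Module
open Pool.Agent.Y133.Half

open Pool.Agent.H914 Pool.Agent.H914.VarClass Pool.Agent.H914.VarClass.Obj
  Pool.Agent.H914.WeilCohomology

section Gen

variable {R : Type*} [Field R] {V : Type*} [AddCommGroup V] [Module R V] {ι : Type*}
  [DecidableEq ι] {p : ι → Submodule R V}

/-- The component of a vector. -/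
noncomputable def comp (h : DirectSum.IsInternal p) (m : ι) : V →ₗ[R] V :=
  (p m).subtype ∘ₗ DirectSum.component R ι (fun i => p i) m ∘ₗ
    (LinearEquiv.ofBijective (DirectSum.coeLinearMap p) h).symm.toLinearMap

/-- The operator acting as `f i` on the `i`-th summand. -/
noncomputable def scalI (h : DirectSum.IsInternal p) (f : ι → R) : Module.End R V :=
  (DirectSum.coeLinearMap p) ∘ₗ
    (DirectSum.lmap (fun i => (f i • LinearMap.id : p i →ₗ[R] p i))) ∘ₗ
      (LinearEquiv.ofBijective (DirectSum.coeLinearMap p) h).symm.toLinearMap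

lemma symm_of (h : DirectSum.IsInternal p) {i : ι} {a : V} (ha : a ∈ p i) :
    (LinearEquiv.ofBijective (DirectSum.coeLinearMap p) h).symm a =
      DirectSum.lof R ι (fun i => p i) i ⟨a, ha⟩ := by
  rw [LinearEquiv.symm_apply_eq]
  simp

lemma scalI_apply (h : DirectSum.IsInternal p) (f : ι → R) {i : ι} {a : V} (ha : a ∈ p i) :
    scalI h f a = f i • a := by
  simp only [scalI, LinearMap.comp_apply, LinearEquiv.coe_coe]
  rw [symm_of h ha]
  simp

lemma comp_same (h : DirectSum.IsInternal p) {i : ι} {a : V} (ha : a ∈ p i) :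
    comp h i a = a := by
  simp only [comp, LinearMap.comp_apply, LinearEquiv.coe_coe]
  rw [symm_of h ha, DirectSum.component.lof_self]
  rfl

lemma comp_ne (h : DirectSum.IsInternal p) {i j : ι} {a : V} (ha : a ∈ p i) (hij : i ≠ j) :
    comp h j a = 0 := by
  simp only [comp, LinearMap.comp_apply, LinearEquiv.coe_coe]
  rw [symm_of h ha, DirectSum.component.of, dif_neg hij, map_zero]

lemma comp_mem (h : DirectSum.IsInternal p) (i : ι) (a : V) : comp h i a ∈ p i := by
  simp only [comp, LinearMap.comp_apply]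
  exact Submodule.coe_mem _

lemma eq_zero_of_comp (h : DirectSum.IsInternal p) {a : V} (ha : ∀ i, comp h i a = 0) :
    a = 0 := by
  have h1 : (LinearEquiv.ofBijective (DirectSum.coeLinearMap p) h).symm a = 0 := by
    apply DirectSum.ext_component R
    intro i
    have h2 := ha i
    simp only [comp, LinearMap.comp_apply, LinearEquiv.coe_coe] at h2
    rw [map_zero]
    exact Subtype.ext h2
  rwa [LinearEquiv.map_eq_zero_iff] at h1

lemma ind_of_internal (h : DirectSum.IsInternal p) {q : V → Prop} (hp : ∀ i, ∀ a ∈ p i, q a)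
    (h0 : q 0) (hadd : ∀ a b, q a → q b → q (a + b)) (a : V) : q a := by
  have ha : a ∈ iSup p := by rw [h.submodule_iSup_eq_top]; trivial
  exact Submodule.iSup_induction p (motive := q) ha hp h0 hadd

lemma ext_of_internal (h : DirectSum.IsInternal p) {V' : Type*} [AddCommGroup V'] [Module R V']
    {F G : V →ₗ[R] V'} (hFG : ∀ i, ∀ a ∈ p i, F a = G a) : F = G := by
  apply LinearMap.ext
  intro a
  refine ind_of_internal h (q := fun a => F a = G a) hFG ?_ ?_ a
  · rw [map_zero, map_zero]
  · intro a b ha hb; rw [map_add, ha, hb, map_add]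

lemma mem_of_comp (h : DirectSum.IsInternal p) {a : V} {i : ι} (ha : ∀ j, j ≠ i → comp h j a = 0) :
    a ∈ p i := by
  have h1 : a - comp h i a = 0 := by
    apply eq_zero_of_comp h
    intro j
    by_cases hj : j = i
    · subst hj
      rw [map_sub, comp_same h (comp_mem h j a), sub_self]
    · rw [map_sub, ha j hj, comp_ne h (comp_mem h i a) (Ne.symm hj), sub_self]
  rw [sub_eq_zero.1 h1]
  exact comp_mem h i a

lemma comp_scalI (h : DirectSum.IsInternal p) (f : ι → R) (i : ι) (a : V) :
    comp h i (scalI h f a) = f i • comp h i a := by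
  refine ind_of_internal h (q := fun a => comp h i (scalI h f a) = f i • comp h i a) ?_ ?_ ?_ a
  · intro j a ha
    rw [scalI_apply h f ha, map_smul]
    by_cases hj : j = i
    · subst hj; rfl
    · rw [comp_ne h ha hj, smul_zero, smul_zero]
  · simp only [map_zero, smul_zero]
  · intro a b ha hb; simp only [map_add, smul_add, ha, hb]

end Gen

section SliceD

variable {K : Type*} [Field K] {A : Type*} [Ring A] [Algebra K A] {B : Type*} [Ring B]
  [Algebra K B] {L : Type*} [Field L] [Algebra K L]

/-- The linear map on `A` obtained from a linear map on the extension and a functional. -/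
noncomputable def sliceD (D : L ⊗[K] A →ₗ[L] L ⊗[K] A) (f : L →ₗ[K] K) : A →ₗ[K] A :=
  slice A f ∘ₗ D.restrictScalars K ∘ₗ TensorProduct.mk K L A 1

lemma sliceD_apply (D : L ⊗[K] A →ₗ[L] L ⊗[K] A) (f : L →ₗ[K] K) (a : A) :
    sliceD D f a = slice A f (D ((1 : L) ⊗ₜ[K] a)) := rfl

lemma sliceD_leib {D : L ⊗[K] A →ₗ[L] L ⊗[K] A} (hD : ∀ x y, D (x * y) = D x * y + x * D y)
    (f : L →ₗ[K] K) (a b : A) : sliceD D f (a * b) = sliceD D f a * b + a * sliceD D f b := by
  have h1 : (1 : L) ⊗ₜ[K] (a * b) = (1 : L) ⊗ₜ[K] a * (1 : L) ⊗ₜ[K] b := by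
    rw [Algebra.TensorProduct.tmul_mul_tmul, one_mul]
  rw [sliceD_apply, sliceD_apply, sliceD_apply, h1, hD, map_add, slice_mul_right, slice_mul_left]

lemma sliceD_map {D : L ⊗[K] A →ₗ[L] L ⊗[K] A} {E : L ⊗[K] B →ₗ[L] L ⊗[K] B} {g : A →ₐ[K] B}
    (h : ∀ x, E (mapBase L g x) = mapBase L g (D x)) (f : L →ₗ[K] K) (a : A) :
    sliceD E f (g a) = g (sliceD D f a) := by
  have h1 : (1 : L) ⊗ₜ[K] (g a) = mapBase L g ((1 : L) ⊗ₜ[K] a) := by
    rw [Algebra.TensorProduct.map_tmul]; rfl
  rw [sliceD_apply, sliceD_apply, h1, h, slice_map]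

lemma sliceD_gr {D : L ⊗[K] A →ₗ[L] L ⊗[K] A} {p : Submodule K A}
    (h : ∀ x ∈ p.baseChange L, D x ∈ p.baseChange L) (f : L →ₗ[K] K) {a : A} (ha : a ∈ p) :
    sliceD D f a ∈ p :=
  slice_mem (h _ (Submodule.tmul_mem_baseChange_of_mem _ ha)) f

lemma sliceD_tr {D : L ⊗[K] A →ₗ[L] L ⊗[K] A} {t : A →ₗ[K] K}
    (h : ∀ x, formBase L t (D x) = 0) (f : L →ₗ[K] K) (a : A) : t (sliceD D f a) = 0 := by
  rw [sliceD_apply, ← slice_tr, h, map_zero]

lemma sliceD_eq_zero {D : L ⊗[K] A →ₗ[L] L ⊗[K] A} {a : A} :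
    (∀ f, sliceD D f a = 0) ↔ D ((1 : L) ⊗ₜ[K] a) = 0 := by
  constructor
  · intro h; exact eq_zero_of_slices fun f => h f
  · intro h f; rw [sliceD_apply, h, map_zero]

end SliceD

section Alg

variable {K : Type*} [Field K] {A B : Type*} [Ring A] [Algebra K A] [Ring B]
  [Algebra K B] {L : Type*} [Field L] [Algebra K L] [CharZero L]
  {G : ℕ → Submodule K A} {d : ℕ} {H : ℕ → ℕ → Submodule L (L ⊗[K] A)}
  {G' : ℕ → Submodule K B} {d' : ℕ} {H' : ℕ → ℕ → Submodule L (L ⊗[K] B)}

/-- The formal properties of a Hodge decomposition. -/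
structure IsBig (G : ℕ → Submodule K A) (d : ℕ) (H : ℕ → ℕ → Submodule L (L ⊗[K] A)) :
    Prop where
  dec : DirectSum.IsInternal (fun m : ℕ × ℕ => H m.1 m.2)
  deg : ∀ p q, ∀ x ∈ H p q, x ∈ (G (p + q)).baseChange L
  mul : ∀ p q r s, ∀ x ∈ H p q, ∀ y ∈ H r s, x * y ∈ H (p + r) (q + s)
  top : ∀ c ∈ G (2 * d), (1 : L) ⊗ₜ[K] c ∈ H d d

/-- The derivation which acts as `p - q` on the subspace `H p q`. -/
noncomputable def hodD (h : IsBig G d H) : L ⊗[K] A →ₗ[L] L ⊗[K] A :=
  scalI h.dec (fun m : ℕ × ℕ => (m.1 : L) - m.2)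

variable (h : IsBig G d H) (h' : IsBig G' d' H')

omit [CharZero L] in
include h in
lemma hod_ind {q : L ⊗[K] A → Prop} (hp : ∀ i j, ∀ a ∈ H i j, q a)
    (h0 : q 0) (hadd : ∀ a b, q a → q b → q (a + b)) (a : L ⊗[K] A) : q a :=
  ind_of_internal h.dec (q := q) (fun m a ha => hp m.1 m.2 a ha) h0 hadd a

omit [CharZero L] in
lemma hodD_apply {i j : ℕ} {a : L ⊗[K] A} (ha : a ∈ H i j) :
    hodD h a = ((i : L) - j) • a :=
  scalI_apply h.dec (fun m : ℕ × ℕ => (m.1 : L) - m.2) (i := (i, j)) ha

omit [CharZero L] in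
lemma hodD_leib (x y : L ⊗[K] A) : hodD h (x * y) = hodD h x * y + x * hodD h y := by
  refine hod_ind h (q := fun x => hodD h (x * y) = hodD h x * y + x * hodD h y) ?_ ?_ ?_ x
  · intro i j a ha
    refine hod_ind h (q := fun y => hodD h (a * y) = hodD h a * y + a * hodD h y) ?_ ?_ ?_ y
    · intro r s b hb
      have h1 : a * b ∈ H (i + r) (j + s) := h.mul i j r s a ha b hb
      rw [hodD_apply h h1, hodD_apply h ha, hodD_apply h hb, smul_mul_assoc, mul_smul_comm,
        ← add_smul]
      congr 1
      push_cast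
      ring
    · rw [mul_zero, map_zero, mul_zero, mul_zero, add_zero]
    · intro b c hb hc
      rw [mul_add, map_add, hb, hc, map_add, mul_add, mul_add]
      abel
  · rw [zero_mul, map_zero, zero_mul, zero_mul, add_zero]
  · intro b c hb hc
    rw [add_mul, map_add, hb, hc, map_add, add_mul, add_mul]
    abel

omit [CharZero L] in
lemma base_proj_mem (hG : DirectSum.IsInternal G) (i : ℕ) (x : L ⊗[K] A) :
    (proj hG i).baseChange L x ∈ (G i).baseChange L := by
  induction x using TensorProduct.induction_on with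
  | zero => rw [map_zero]; exact Submodule.zero_mem _
  | add x y hx hy => rw [map_add]; exact Submodule.add_mem _ hx hy
  | tmul l a =>
    rw [LinearMap.baseChange_tmul]
    exact Submodule.tmul_mem_baseChange_of_mem _ (proj_mem hG i a)

omit [CharZero L] in
lemma base_proj_same (hG : DirectSum.IsInternal G) {i : ℕ} {x : L ⊗[K] A}
    (hx : x ∈ (G i).baseChange L) : (proj hG i).baseChange L x = x := by
  refine base_induction (P := fun a => (proj hG i).baseChange L a = a) ?_ ?_ ?_ hx
  · rw [map_zero]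
  · intro a b ha hb; rw [map_add, ha, hb]
  · intro l a ha; rw [LinearMap.baseChange_tmul, proj_same hG ha]

omit [CharZero L] in
lemma base_proj_ne (hG : DirectSum.IsInternal G) {i j : ℕ} {x : L ⊗[K] A}
    (hx : x ∈ (G i).baseChange L) (hij : i ≠ j) : (proj hG j).baseChange L x = 0 := by
  refine base_induction (P := fun a => (proj hG j).baseChange L a = 0) ?_ ?_ ?_ hx
  · rw [map_zero]
  · intro a b ha hb; rw [map_add, ha, hb, add_zero]
  · intro l a ha; rw [LinearMap.baseChange_tmul, proj_ne hG ha hij, tmul_zero]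

omit [CharZero L] in
lemma hodD_proj (hG : DirectSum.IsInternal G) (i : ℕ) (x : L ⊗[K] A) :
    hodD h ((proj hG i).baseChange L x) = (proj hG i).baseChange L (hodD h x) := by
  refine hod_ind h (q := fun x => hodD h ((proj hG i).baseChange L x) =
    (proj hG i).baseChange L (hodD h x)) ?_ ?_ ?_ x
  · intro r s a ha
    have h1 := h.deg r s a ha
    rw [hodD_apply h ha, map_smul]
    by_cases hi : r + s = i
    · subst hi
      rw [base_proj_same hG h1, hodD_apply h ha]
    · rw [base_proj_ne hG h1 hi, map_zero, smul_zero]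
  · simp only [map_zero]
  · intro a b ha hb; simp only [map_add, ha, hb]

omit [CharZero L] in
lemma hodD_gr (hG : DirectSum.IsInternal G) {i : ℕ} {x : L ⊗[K] A}
    (hx : x ∈ (G i).baseChange L) : hodD h x ∈ (G i).baseChange L := by
  have h1 := hodD_proj h hG i x
  rw [base_proj_same hG hx] at h1
  rw [h1]
  exact base_proj_mem hG i _

omit [CharZero L] in
lemma comp_proj (hG : DirectSum.IsInternal G) {i : ℕ} {m : ℕ × ℕ} (hm : m.1 + m.2 ≠ i)
    {x : L ⊗[K] A} (hx : x ∈ (G i).baseChange L) : comp h.dec m x = 0 := by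
  have key : ∀ x : L ⊗[K] A, comp h.dec m ((proj hG i).baseChange L x) = 0 := by
    intro x
    refine hod_ind h (q := fun x => comp h.dec m ((proj hG i).baseChange L x) = 0) ?_ ?_ ?_ x
    · intro r s a ha
      have h1 := h.deg r s a ha
      by_cases hi : r + s = i
      · subst hi
        rw [base_proj_same hG h1]
        refine comp_ne h.dec (i := (r, s)) ha ?_
        rintro rfl
        exact hm rfl
      · rw [base_proj_ne hG h1 hi, map_zero]
    · simp only [map_zero]
    · intro a b ha hb; simp only [map_add, ha, hb, add_zero]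
  rw [← base_proj_same hG hx]
  exact key x

/-- The elements of degree `2 j` which are killed by the derivation are of type `(j, j)`. -/
lemma hodD_eq_zero (hG : DirectSum.IsInternal G) {j : ℕ} {x : L ⊗[K] A}
    (hx : x ∈ (G (2 * j)).baseChange L) : hodD h x = 0 ↔ x ∈ H j j := by
  constructor
  · intro h0
    refine mem_of_comp h.dec (i := (j, j)) fun m hm => ?_
    by_cases h1 : m.1 + m.2 = 2 * j
    · have h2 : comp h.dec m (hodD h x) = ((m.1 : L) - m.2) • comp h.dec m x :=
        comp_scalI h.dec _ m x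
      rw [h0, map_zero] at h2
      rcases smul_eq_zero.1 h2.symm with h3 | h3
      · exfalso
        apply hm
        have h4 : m.1 = m.2 := by
          have := sub_eq_zero.1 h3
          exact_mod_cast this
        ext
        · omega
        · omega
      · exact h3
    · exact comp_proj h hG h1 hx
  · intro h1
    rw [hodD_apply h h1, sub_self, zero_smul]

omit [CharZero L] in
include h' in
lemma hodD_map {g : A →ₐ[K] B}
    (hg : ∀ p q, ∀ y ∈ H p q, mapBase L g y ∈ H' p q) (x : L ⊗[K] A) :
    hodD h' (mapBase L g x) = mapBase L g (hodD h x) := by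
  refine hod_ind h (q := fun x => hodD h' (mapBase L g x) = mapBase L g (hodD h x)) ?_ ?_ ?_ x
  · intro i j a ha
    rw [hodD_apply h ha, hodD_apply h' (hg i j a ha), map_smul]
  · simp only [map_zero]
  · intro a b ha hb; simp only [map_add, ha, hb]

omit [CharZero L] in
lemma hodD_tr {t : A →ₗ[K] K} (ht : ∀ i, i ≠ 2 * d → ∀ a ∈ G i, t a = 0) (x : L ⊗[K] A) :
    formBase L t (hodD h x) = 0 := by
  refine hod_ind h (q := fun x => formBase L t (hodD h x) = 0) ?_ ?_ ?_ x
  · intro i j a ha
    rw [hodD_apply h ha, map_smul]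
    have h1 := h.deg i j a ha
    by_cases hij : i + j = 2 * d
    · by_cases h2 : i = j
      · subst h2
        rw [sub_self, zero_smul]
      · have h3 : a ∈ H d d := by
          rw [hij] at h1
          refine base_induction (P := fun a => a ∈ H d d) ?_ ?_ ?_ h1
          · exact Submodule.zero_mem _
          · intro a b ha hb; exact Submodule.add_mem _ ha hb
          · intro l a ha
            have h4 : l ⊗ₜ[K] a = l • ((1 : L) ⊗ₜ[K] a) := by
              rw [TensorProduct.smul_tmul', smul_eq_mul, mul_one]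
            rw [h4]
            exact Submodule.smul_mem _ _ (h.top a ha)
        have h5 : a = 0 := by
          have e1 := comp_same h.dec (i := (i, j)) ha
          have e2 := comp_ne h.dec (i := (d, d)) (j := (i, j)) h3 (by
            intro e
            rw [Prod.mk.injEq] at e
            exact h2 (e.1.symm.trans e.2))
          rw [← e1, e2]
        rw [h5, map_zero, smul_zero]
    · have h3 : formBase L t a = 0 := by
        refine base_induction (P := fun a => formBase L t a = 0) ?_ ?_ ?_ h1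
        · rw [map_zero]
        · intro a b ha hb; rw [map_add, ha, hb, add_zero]
        · intro l a ha
          rw [formBase_tmul, ht _ hij a ha, map_zero, mul_zero]
      rw [h3, smul_zero]
  · simp only [map_zero]
  · intro a b ha hb; simp only [map_add, ha, hb, add_zero]

end Alg

variable {k : Type u} [Field k] {𝒱 : VarClass k} {ops : CycleOps 𝒱}
  {W : WeilCohomology.{u, v} ops} [Algebra W.K ℝ] {X Y Z' : 𝒱.Obj}

/-- The Hodge decomposition in terms of tensor products. -/
lemma HodgeDec.big (Ψ : HodgeDec W) (X : 𝒱.Obj) :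
    IsBig (L := ℂ) (W.gr X) X.dim
      (fun p q => (show Submodule ℂ (ℂ ⊗[W.K] W.H X) from (Ψ.on X).H p q)) where
  dec := (Ψ.on X).dec
  deg p q x hx := by
    rw [Submodule.baseChange_eq_span]
    exact (Ψ.on X).deg p q x hx
  mul := (Ψ.on X).mul
  top := (Ψ.on X).top

/-- The derivation of the cohomology given by the Hodge decomposition and a functional on the
complex numbers. -/
noncomputable def HodgeDec.ader (Ψ : HodgeDec W) (f : ℂ →ₗ[W.K] W.K) : ADer W where
  D X := sliceD (hodD (Ψ.big X)) f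
  gr {X i x} hx := sliceD_gr (fun _ h => hodD_gr (Ψ.big X) (W.isInternal X) h) f hx
  leib {X} x y := sliceD_leib (hodD_leib (Ψ.big X)) f x y
  map {X Y} g y := sliceD_map (fun x => hodD_map (Ψ.big Y) (Ψ.big X)
    (fun p q y hy => Ψ.map g p q y hy) x) f y
  tr {X} x := sliceD_tr (hodD_tr (Ψ.big X) fun _ hi _ ha => W.tr_eq_zero ha hi) f x

lemma HodgeDec.isHodge_iff {Ψ : HodgeDec W} {j : ℕ} {c : W.H X} :
    IsHodge Ψ X j c ↔ c ∈ W.gr X (2 * j) ∧ ∀ f, (Ψ.ader f).D X c = 0 := by
  refine and_congr_right fun hc => ?_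
  have h1 := hodD_eq_zero (Ψ.big X) (W.isInternal X) (j := j)
    (Submodule.tmul_mem_baseChange_of_mem (1 : ℂ) hc)
  exact h1.symm.trans sliceD_eq_zero.symm

end Pool.Agent.Y129.Z
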