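import Pool.Agent.Y129.Z.HPred

/-!
# Nondegeneracy of the intersection form for polarized systems of classes
-/

open CategoryTheory AlgebraicGeometry

universe u v

namespace Pool.Agent.Y129.Z

open Module
open Pool.Agent.Y133.Half

open Pool.Agent.H914 Pool.Agent.H914.VarClass Pool.Agent.H914.VarClass.Obj
  Pool.Agent.H914.WeilCohomology

variable {k : Type u} [Field k] {𝒱 : VarClass k} {ops : CycleOps 𝒱}
  {W : WeilCohomology.{u, v} ops} {X Y Z' : 𝒱.Obj}

namespace HPred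

variable {Q : HPred W}

lemma sub {j : ℕ} {a b : W.H X} (ha : Q.P X j a) (hb : Q.P X j b) : Q.P X j (a - b) := by
  have h := Q.add ha (Q.smul (-1) hb)
  rwa [neg_smul, one_smul, ← sub_eq_add_neg] at h

lemma pow {w : W.H X} (hw : Q.P X 1 w) (n : ℕ) : Q.P X n (w ^ n) := by
  induction n with
  | zero => rw [pow_zero]; exact Q.one
  | succ n ih =>
    rw [pow_succ]
    exact Q.mul ih hw

end HPred

/-- A polarization of the system of classes on `X`. -/
structure Pol [Algebra W.K ℝ] (Q : HPred W) (X : 𝒱.Obj) (w : W.H X) : Prop where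
  mem : Q.P X 1 w
  hard : HardLef (W.gr X) X.dim (LinearMap.mulLeft W.K w)
  div : ∀ j, 2 * j ≤ X.dim → ∀ x ∈ W.gr X (2 * j),
    Q.P X (X.dim - j) (w ^ (X.dim - 2 * j) * x) → Q.P X j x
  pos : ∀ j, 2 * j ≤ X.dim → ∀ x, Q.P X j x → w ^ (X.dim - 2 * j + 1) * x = 0 → x ≠ 0 →
    0 < (-1 : ℝ) ^ j * algebraMap W.K ℝ (W.tr X (w ^ (X.dim - 2 * j) * x * x))

lemma hardLef_inj {w : W.H X} (hHL : HardLef (W.gr X) X.dim (LinearMap.mulLeft W.K w)) {i : ℕ}
    (hi : i ≤ X.dim) {x : W.H X} (hx : x ∈ W.gr X i) (h : w ^ (X.dim - i) * x = 0) : x = 0 := by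
  apply (hHL i hi).1 x hx
  rw [LinearMap.pow_mulLeft, LinearMap.mulLeft_apply, h]

lemma hardLef_surj {w : W.H X} (hHL : HardLef (W.gr X) X.dim (LinearMap.mulLeft W.K w)) {i : ℕ}
    (hi : i ≤ X.dim) {y : W.H X} (hy : y ∈ W.gr X (2 * X.dim - i)) :
    ∃ x ∈ W.gr X i, w ^ (X.dim - i) * x = y := by
  obtain ⟨x, hx, h⟩ := (hHL i hi).2 y hy
  rw [LinearMap.pow_mulLeft, LinearMap.mulLeft_apply] at h
  exact ⟨x, hx, h⟩

namespace Pol

variable [Algebra W.K ℝ] {Q : HPred W} {w : W.H X} (hw : Pol Q X w)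

include hw

/-- The Lefschetz isomorphism is an isomorphism on the classes of the system. -/
lemma lift {j : ℕ} (hj : 2 * j ≤ X.dim) {y : W.H X} (hy : Q.P X (X.dim - j) y) :
    ∃ x, Q.P X j x ∧ w ^ (X.dim - 2 * j) * x = y := by
  have h0 : y ∈ W.gr X (2 * X.dim - 2 * j) := by
    have := Q.gr hy
    rwa [show 2 * (X.dim - j) = 2 * X.dim - 2 * j by omega] at this
  obtain ⟨x, hx, hxy⟩ := hardLef_surj hw.hard hj h0
  refine ⟨x, hw.div j hj x hx ?_, hxy⟩
  rw [hxy]
  exact hy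

/-- The primitive decomposition. -/
lemma decomp {j : ℕ} (hj : 2 * (j + 1) ≤ X.dim) {x : W.H X} (hx : Q.P X (j + 1) x) :
    ∃ y, Q.P X j y ∧ w ^ (X.dim - 2 * (j + 1) + 1) * (x - w * y) = 0 := by
  have h1 := Q.mul (HPred.pow hw.mem (X.dim - 2 * (j + 1) + 1)) hx
  rw [show X.dim - 2 * (j + 1) + 1 + (j + 1) = X.dim - j by omega] at h1
  obtain ⟨y, hy, hyv⟩ := hw.lift (j := j) (by omega) h1
  refine ⟨y, hy, ?_⟩
  rw [mul_sub, ← mul_assoc, ← pow_succ, sub_eq_zero, ← hyv]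
  congr 2
  omega

/-- **The Hodge index theorem.** -/
lemma star (j : ℕ) :
    2 * j ≤ X.dim → ∀ x, Q.P X j x → ∃ x', Q.P X j x' ∧ (x ≠ 0 →
      0 < (-1 : ℝ) ^ j * algebraMap W.K ℝ (W.tr X (w ^ (X.dim - 2 * j) * x * x'))) := by
  induction j with
  | zero =>
    intro hj x hx
    refine ⟨x, hx, hw.pos 0 hj x hx ?_⟩
    have h1 := Q.gr (Q.mul (HPred.pow hw.mem (X.dim - 2 * 0 + 1)) hx)
    rw [W.gr_eq_bot X _ (by omega)] at h1
    exact (Submodule.mem_bot _).1 h1
  | succ j ih =>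
    intro hj x hx
    obtain ⟨y, hy, hprim⟩ := hw.decomp hj hx
    obtain ⟨y', hy', hyy⟩ := ih (by omega) y hy
    obtain ⟨x₀, hx₀⟩ : ∃ x₀, x₀ = x - w * y := ⟨_, rfl⟩
    rw [← hx₀] at hprim
    have hwy : Q.P X (j + 1) (w * y) := by
      have := Q.mul hw.mem hy; rwa [add_comm] at this
    have hwy' : Q.P X (j + 1) (w * y') := by
      have := Q.mul hw.mem hy'; rwa [add_comm] at this
    have hx₀H : Q.P X (j + 1) x₀ := by rw [hx₀]; exact HPred.sub hx hwy
    refine ⟨x₀ - w * y', HPred.sub hx₀H hwy', fun hne => ?_⟩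
    set m := X.dim - 2 * (j + 1) with hm
    have hwc : ∀ a, w * a = a * w := W.even_comm (Q.gr hw.mem)
    have hx₀c : ∀ a, x₀ * a = a * x₀ := W.even_comm (Q.gr hx₀H)
    have e1 : w ^ m * x * (x₀ - w * y') = w ^ m * x₀ * x₀ - w ^ (m + 2) * y * y' := by
      have h1 : x = x₀ + w * y := by rw [hx₀]; abel
      have h2 : w ^ m * x₀ * (w * y') = 0 := by
        rw [← mul_assoc, mul_assoc (w ^ m), ← hwc, ← mul_assoc, ← pow_succ, hprim, zero_mul]
      have h3 : w ^ m * (w * y) * x₀ = 0 := by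
        rw [← mul_assoc, ← pow_succ, mul_assoc, ← hx₀c, ← mul_assoc, hprim, zero_mul]
      have h4 : w ^ m * (w * y) * (w * y') = w ^ (m + 2) * y * y' := by
        rw [← mul_assoc (w ^ m * (w * y)), ← mul_assoc (w ^ m), mul_assoc (w ^ m * w) y w, ← hwc y,
          ← mul_assoc (w ^ m * w), ← pow_succ, ← pow_succ]
      have h5 : w ^ m * x * (x₀ - w * y') = w ^ m * (x₀ + w * y) * (x₀ - w * y') := by rw [← h1]
      rw [h5, mul_add, add_mul, mul_sub, mul_sub, h2, h3, h4]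
      abel
    have e2 : m + 2 = X.dim - 2 * j := by omega
    rw [e1, e2, map_sub, map_sub, mul_sub, pow_succ]
    have e3 : (-1 : ℝ) ^ j * -1 * algebraMap W.K ℝ (W.tr X (w ^ m * x₀ * x₀)) -
        (-1 : ℝ) ^ j * -1 * algebraMap W.K ℝ (W.tr X (w ^ (X.dim - 2 * j) * y * y')) =
        (-1 : ℝ) ^ (j + 1) * algebraMap W.K ℝ (W.tr X (w ^ m * x₀ * x₀)) +
        (-1 : ℝ) ^ j * algebraMap W.K ℝ (W.tr X (w ^ (X.dim - 2 * j) * y * y')) := by
      rw [pow_succ]; ring
    rw [e3]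
    have hA : x₀ ≠ 0 → 0 < (-1 : ℝ) ^ (j + 1) *
        algebraMap W.K ℝ (W.tr X (w ^ m * x₀ * x₀)) := fun h => hw.pos (j + 1) hj x₀ hx₀H hprim h
    rcases eq_or_ne x₀ 0 with h0 | h0
    · rcases eq_or_ne y 0 with h1 | h1
      · exfalso
        apply hne
        have h2 : x = x₀ + w * y := by rw [hx₀]; abel
        rw [h2, h0, h1, mul_zero, add_zero]
      · have h2 := hyy h1
        rw [h0]
        simpa using h2
    · rcases eq_or_ne y 0 with h1 | h1
      · have h2 := hA h0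
        rw [h1]
        simpa using h2
      · exact add_pos (hA h0) (hyy h1)

/-- The intersection pairing is nondegenerate. -/
lemma nondeg_gr {j l : ℕ} (hjl : j + l = X.dim) {x : W.H X} (hx : Q.P X j x)
    (h : ∀ y, Q.P X l y → W.tr X (x * y) = 0) : x = 0 := by
  by_cases h2j : 2 * j ≤ X.dim
  · by_contra hne
    obtain ⟨x', hx', hp⟩ := hw.star j h2j x hx
    have h1 := hp hne
    have h2 : Q.P X l (w ^ (X.dim - 2 * j) * x') := by
      have := Q.mul (HPred.pow hw.mem (X.dim - 2 * j)) hx'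
      rwa [show X.dim - 2 * j + j = l by omega] at this
    have h3 : w ^ (X.dim - 2 * j) * x * x' = x * (w ^ (X.dim - 2 * j) * x') := by
      rw [W.even_comm (Q.gr (HPred.pow hw.mem _)), mul_assoc]
    rw [h3, h _ h2, map_zero, mul_zero] at h1
    exact lt_irrefl _ h1
  · have hj' : j = X.dim - l := by omega
    subst hj'
    obtain ⟨x₁, hx₁, rfl⟩ := hw.lift (j := l) (by omega) hx
    obtain ⟨x', hx', hp⟩ := hw.star l (by omega) x₁ hx₁
    by_cases hne : x₁ = 0
    · rw [hne, mul_zero]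
    · have h1 := hp hne
      rw [h _ hx', map_zero, mul_zero] at h1
      exact absurd h1 (lt_irrefl _)

lemma nondeg {x : W.H X} (hx : x ∈ Q.sp X) (h : ∀ y ∈ Q.sp X, W.tr X (x * y) = 0) : x = 0 := by
  have key : ∀ (j l : ℕ), j + l = X.dim → ∀ y ∈ W.gr X (2 * l),
      W.tr X (x * y) = W.tr X (H914.proj (W.isInternal X) (2 * j) x * y) := by
    intro j l hjl y hy
    refine gr_induction (W.isInternal X) (p := fun x => W.tr X (x * y) =
      W.tr X (H914.proj (W.isInternal X) (2 * j) x * y)) ?_ ?_ x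
    · intro i a ha
      by_cases hi : i = 2 * j
      · subst hi
        rw [proj_same _ ha]
      · rw [proj_ne _ ha hi, zero_mul, map_zero]
        exact W.tr_eq_zero (W.mul_mem ha hy) (by omega)
    · intro a b ha hb
      rw [add_mul, map_add, ha, hb, map_add, add_mul, map_add]
  have h0 : ∀ j l, j + l = X.dim → H914.proj (W.isInternal X) (2 * j) x = 0 := by
    intro j l hjl
    refine hw.nondeg_gr hjl (HPred.sp_proj hx j) fun y hy => ?_
    rw [← key j l hjl y (Q.gr hy)]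
    exact h y (HPred.sp_of hy)
  apply W.nondeg
  intro b
  refine gr_induction (W.isInternal X) (p := fun b => W.tr X (x * b) = 0) ?_ ?_ b
  · intro i b hb
    rcases Nat.even_or_odd' i with ⟨l, rfl | rfl⟩
    · by_cases hl' : l ≤ X.dim
      · rw [key (X.dim - l) l (by omega) b hb, h0 (X.dim - l) l (by omega), zero_mul, map_zero]
      · rw [W.gr_eq_bot X (2 * l) (by omega)] at hb
        rw [(Submodule.mem_bot _).1 hb, mul_zero, map_zero]
    · exact PH.tr_odd (PH.mul (HPred.sp_even hx) (PH.of hb)) (by omega)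
  · intro a b ha hb
    rw [mul_add, map_add, ha, hb, add_zero]

end Pol

end Pool.Agent.Y129.Z
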