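import Pool.Agent.Y129.Z.Der
import Pool.Agent.Y129.Z.Pos

/-!
# The classes killed by derivations, after extension of the coefficients
-/

open CategoryTheory AlgebraicGeometry TensorProduct Filter Topology

universe u v

namespace Pool.Agent.Y129.Z

open Module
open Pool.Agent.Y133.Half

open Pool.Agent.H914 Pool.Agent.H914.VarClass Pool.Agent.H914.VarClass.Obj
  Pool.Agent.H914.WeilCohomology

section Alg

variable {K : Type*} [Field K] {V : Type*} [AddCommGroup V] [Module K V] {L : Type*} [Field L]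
  [Algebra K L]

lemma base_eq_span (p : Submodule K V) :
    p.baseChange L = Submodule.span L {y | ∃ a ∈ p, y = (1 : L) ⊗ₜ[K] a} := by
  rw [Submodule.baseChange_eq_span]
  congr 1
  ext y
  constructor
  · rintro ⟨a, ha, rfl⟩; exact ⟨a, ha, rfl⟩
  · rintro ⟨a, ha, rfl⟩; exact ⟨a, ha, rfl⟩

lemma finrank_base (p : Submodule K V) : finrank L (p.baseChange L) = finrank K p := by
  rw [← Module.finrank_baseChange (R := L) (S := K) (M' := p)]
  exact (LinearEquiv.ofBijective (p.toBaseChange L)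
    ⟨p.toBaseChange_injective L, p.toBaseChange_surjective L⟩).symm.finrank_eq

lemma span_span_base (s : Set V) :
    Submodule.span L {y | ∃ a ∈ s, y = (1 : L) ⊗ₜ[K] a} = (Submodule.span K s).baseChange L := by
  rw [base_eq_span]
  apply le_antisymm
  · exact Submodule.span_mono fun y ⟨a, ha, h⟩ => ⟨a, Submodule.subset_span ha, h⟩
  · rw [Submodule.span_le]
    rintro y ⟨a, ha, rfl⟩
    change (1 : L) ⊗ₜ[K] a ∈ Submodule.span L {y | ∃ a ∈ s, y = (1 : L) ⊗ₜ[K] a}
    induction ha using Submodule.span_induction with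
    | mem x hx => exact Submodule.subset_span ⟨x, hx, rfl⟩
    | zero => rw [tmul_zero]; exact Submodule.zero_mem _
    | add x y _ _ hx hy => rw [tmul_add]; exact Submodule.add_mem _ hx hy
    | smul r x _ hx =>
      rw [tmul_smul, ← algebraMap_smul L r ((1 : L) ⊗ₜ[K] x)]
      exact Submodule.smul_mem _ _ hx

end Alg

variable {k : Type u} [Field k] {𝒱 : VarClass k} {ops : CycleOps 𝒱}
  {W : WeilCohomology.{u, v} ops} {X Y Z' : 𝒱.Obj} {ι : Type*}

/-- The homogeneous classes killed by the derivations. -/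
def kill (Δ : ι → ADer W) : HPred W := killPred fun i => (Δ i).toTDer

lemma kill_iff {Δ : ι → ADer W} {j : ℕ} {c : W.H X} :
    (kill Δ).P X j c ↔ c ∈ W.gr X (2 * j) ∧ ∀ i, (Δ i).D X c = 0 := Iff.rfl

/-- The homogeneous classes with coefficients in `L` killed by the derivations. -/
noncomputable def killF (Δ : ι → ADer W) (L : Type v) [Field L] [Algebra W.K L] :
    HPred (baseW W L) :=
  killPred fun i => ((Δ i).base L).toTDer

variable {L : Type v} [Field L] [Algebra W.K L] {Δ : ι → ADer W}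

lemma killF_iff {j : ℕ} {c : (baseW W L).H X} : (killF Δ L).P X j c ↔
    c ∈ ((Submodule.span L {y | ∃ a, (kill Δ).P X j a ∧ y = (1 : L) ⊗ₜ[W.K] a} :
      Submodule L (L ⊗[W.K] W.H X)) : Set (L ⊗[W.K] W.H X)) := by
  constructor
  · rintro ⟨h1, h2⟩
    have h := mem_span_of_kill (L := L) (fun i => (Δ i).D X) (p := W.gr X (2 * j)) h1 h2
    refine Submodule.span_mono ?_ h
    rintro y ⟨a, ha, hka, rfl⟩
    exact ⟨a, ⟨ha, hka⟩, rfl⟩
  · intro h
    have key : ∀ z ∈ (Submodule.span L {y | ∃ a, (kill Δ).P X j a ∧ y = (1 : L) ⊗ₜ[W.K] a} :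
        Submodule L (L ⊗[W.K] W.H X)), z ∈ (W.gr X (2 * j)).baseChange L ∧
          ∀ i, ((Δ i).D X).baseChange L z = 0 := by
      intro z hz
      induction hz using Submodule.span_induction with
      | mem x hx =>
        obtain ⟨a, ⟨ha, hka⟩, rfl⟩ := hx
        refine ⟨Submodule.tmul_mem_baseChange_of_mem _ ha, fun i => ?_⟩
        have h1 : (Δ i).D X a = 0 := hka i
        rw [LinearMap.baseChange_tmul, h1, tmul_zero]
      | zero => exact ⟨Submodule.zero_mem _, fun i => map_zero _⟩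
      | add x y _ _ hx hy =>
        exact ⟨Submodule.add_mem _ hx.1 hy.1, fun i => by rw [map_add, hx.2, hy.2, add_zero]⟩
      | smul r x _ hx =>
        exact ⟨Submodule.smul_mem _ _ hx.1, fun i => by rw [map_smul, hx.2, smul_zero]⟩
    exact key c h

lemma killF_C (X : 𝒱.Obj) : (killF Δ L).sys.C X =
    (((kill Δ).sys.C X).baseChange L : Submodule L (L ⊗[W.K] W.H X)) := by
  apply le_antisymm
  · refine Submodule.span_le.2 ?_
    rintro c ⟨j, hj⟩
    have h1 := killF_iff.1 hj
    have h2 : (Submodule.span L {y | ∃ a, (kill Δ).P X j a ∧ y = (1 : L) ⊗ₜ[W.K] a} :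
        Submodule L (L ⊗[W.K] W.H X)) ≤ ((kill Δ).sys.C X).baseChange L := by
      rw [Submodule.span_le]
      rintro y ⟨a, ha, rfl⟩
      exact Submodule.tmul_mem_baseChange_of_mem _ (HPred.sp_of ha)
    exact h2 h1
  · obtain ⟨M, hM⟩ : ∃ M : Submodule L (L ⊗[W.K] W.H X), M = (killF Δ L).sys.C X := ⟨_, rfl⟩
    have h3 : ((kill Δ).sys.C X).baseChange L ≤ M := by
      rw [base_eq_span, Submodule.span_le]
      rintro y ⟨a, ha, rfl⟩
      refine HPred.sp_ind (q := fun a => (1 : L) ⊗ₜ[W.K] a ∈ M) ?_ ?_ ?_ ha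
      · intro j x hx
        rw [hM]
        have h4 : (1 : L) ⊗ₜ[W.K] x ∈ (Submodule.span L {y | ∃ a, (kill Δ).P X j a ∧
            y = (1 : L) ⊗ₜ[W.K] a} : Submodule L (L ⊗[W.K] W.H X)) :=
          Submodule.subset_span ⟨x, hx, rfl⟩
        exact HPred.sp_of (Q := killF Δ L) (j := j) (killF_iff.2 h4)
      · rw [tmul_zero]; exact Submodule.zero_mem _
      · intro a b ha hb; rw [tmul_add]; exact Submodule.add_mem _ ha hb
    rw [hM] at h3
    exact h3

lemma killF_finrank (X : 𝒱.Obj) :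
    finrank (baseW W L).K ((killF Δ L).sys.C X) = finrank W.K ((kill Δ).sys.C X) := by
  rw [killF_C]
  exact finrank_base (L := L) ((kill Δ).sys.C X)

/-- If the classes killed by the derivations are polarized, the intersection form is
nondegenerate after the extension of the coefficients. -/
lemma killF_num [Algebra W.K ℝ] {w : W.H X} (hw : Pol (kill Δ) X w) :
    (killF Δ L).sys.Num X = ⊥ := by
  rw [eq_bot_iff]
  rintro x ⟨hx, hx'⟩
  rw [killF_C] at hx
  rw [Submodule.mem_bot]
  have hx1 : x ∈ ((kill Δ).sys.C X).baseChange L := hx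
  apply eq_zero_of_slices (K := W.K) (V := W.H X)
  intro f
  refine hw.nondeg (slice_mem hx1 f) fun y hy => ?_
  rw [← slice_mul_right, ← slice_tr]
  have h1 : formBase L (W.tr X) ((show L ⊗[W.K] W.H X from x) * (1 : L) ⊗ₜ[W.K] y) = 0 := by
    refine hx' ((1 : L) ⊗ₜ[W.K] y) ?_
    rw [killF_C]
    exact Submodule.tmul_mem_baseChange_of_mem _ hy
  have h2 := congrArg f h1
  rw [map_zero] at h2
  exact h2

lemma killF_a [Algebra W.K ℝ] {w : W.H X} (hw : Pol (kill Δ) X w) :
    (killF Δ L).sys.a X = finrank W.K ((kill Δ).sys.C X) := by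
  have h1 := (killF Δ L).sys.a_add_num X
  rw [killF_num hw, finrank_bot, add_zero] at h1
  rw [h1, killF_finrank]

/-- The condition on the Lefschetz operator holds for the classes killed by derivations. -/
lemma kill_div {w : W.H X} (hw : (kill Δ).P X 1 w)
    (hard : HardLef (W.gr X) X.dim (LinearMap.mulLeft W.K w)) {j : ℕ} (hj : 2 * j ≤ X.dim)
    {x : W.H X} (hx : x ∈ W.gr X (2 * j))
    (h : (kill Δ).P X (X.dim - j) (w ^ (X.dim - 2 * j) * x)) : (kill Δ).P X j x := by
  refine ⟨hx, fun i => ?_⟩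
  have h1 := h.2 i
  have h2 : (Δ i).D X (w ^ (X.dim - 2 * j)) = 0 := (HPred.pow hw (X.dim - 2 * j)).2 i
  change (Δ i).D X (w ^ (X.dim - 2 * j) * x) = 0 at h1
  rw [(Δ i).leib, h2, zero_mul, zero_add] at h1
  exact hardLef_inj hard hj ((Δ i).gr hx) h1

end Pool.Agent.Y129.Z
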