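import Pool.Agent.Y129.Z.EDefs
import Pool.Agent.Y129.Z.KillF
import Pool.Agent.Y129.Z.HDec
import Pool.Agent.Y129.Z.Gal

/-!
# Zero-one laws: general lemmas
-/

open CategoryTheory AlgebraicGeometry TensorProduct Filter Topology

universe u v w

namespace Pool.Agent.Y129.Z

open Module
open Pool.Agent.Y133.Half

open Pool.Agent.H914 Pool.Agent.H914.VarClass Pool.Agent.H914.VarClass.Obj
  Pool.Agent.H914.WeilCohomology

lemma tendsto_of_large {r t : ℕ → ℕ} (h : ∀ N : ℕ, ∃ n₀ : ℕ, ∀ n ≥ n₀, N * r n ≤ t n) :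
    Tendsto (fun n => (r n : ℝ) / t n) atTop (𝓝 0) := by
  rw [Metric.tendsto_atTop]
  intro ε hε
  obtain ⟨N, hN⟩ := exists_nat_gt (1 / ε)
  obtain ⟨n₀, hn₀⟩ := h (N + 1)
  refine ⟨n₀, fun n hn => ?_⟩
  have h1 := hn₀ n hn
  rw [Real.dist_eq, sub_zero, abs_of_nonneg (by positivity)]
  rcases Nat.eq_zero_or_pos (t n) with h2 | h2
  · rw [h2, Nat.cast_zero, div_zero]
    exact hε
  · have h3 : (0 : ℝ) < t n := by exact_mod_cast h2
    rw [div_lt_iff₀ h3]
    have h4 : ((N : ℝ) + 1) * r n ≤ t n := by exact_mod_cast h1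
    have h5 : 1 < ε * ((N : ℝ) + 1) := by
      have := (div_lt_iff₀ hε).1 hN
      nlinarith
    have h6 : (0 : ℝ) ≤ r n := Nat.cast_nonneg _
    nlinarith

section Alg

variable {K : Type*} [Field K] {A : Type*} [Ring A] [Algebra K A] {F : Type*} [Field F]
  [Algebra K F]

lemma mem_span_toExt {s : Set A} {x : F ⊗[K] A} :
    x ∈ Submodule.span F (toExt F '' s : Set (Ext F K A)) ↔
      x ∈ Submodule.span F {y : F ⊗[K] A | ∃ a ∈ s, y = (1 : F) ⊗ₜ[K] a} := by
  have h : (toExt F '' s : Set (Ext F K A)) = {y : F ⊗[K] A | ∃ a ∈ s, y = (1 : F) ⊗ₜ[K] a} := by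
    ext y
    constructor
    · rintro ⟨a, ha, rfl⟩; exact ⟨a, ha, rfl⟩
    · rintro ⟨a, ha, rfl⟩; exact ⟨a, ha, rfl⟩
  rw [h]
  rfl

/-- The kernel of the extension of a functional. -/
lemma ker_formBase (t : A →ₗ[K] K) (x : F ⊗[K] A) :
    x ∈ Submodule.span F {y : F ⊗[K] A | ∃ a ∈ {a | t a = 0}, y = (1 : F) ⊗ₜ[K] a} ↔
      formBase F t x = 0 := by
  constructor
  · intro hx
    induction hx using Submodule.span_induction with
    | mem y hy =>
      obtain ⟨a, ha, rfl⟩ := hy
      rw [formBase_tmul, (show t a = 0 from ha), map_zero, mul_zero]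
    | zero => exact map_zero _
    | add a b _ _ ha hb => rw [map_add, ha, hb, add_zero]
    | smul c a _ ha => rw [map_smul, ha, smul_zero]
  · intro hx
    by_cases ht : ∀ a, t a = 0
    · have h1 : ∀ y : F ⊗[K] A,
          y ∈ Submodule.span F {y : F ⊗[K] A | ∃ a ∈ {a | t a = 0}, y = (1 : F) ⊗ₜ[K] a} := by
        intro y
        induction y using TensorProduct.induction_on with
        | zero => exact Submodule.zero_mem _
        | add a b ha hb => exact Submodule.add_mem _ ha hb
        | tmul l a =>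
          have h2 : l ⊗ₜ[K] a = l • ((1 : F) ⊗ₜ[K] a) := by
            rw [TensorProduct.smul_tmul', smul_eq_mul, mul_one]
          rw [h2]
          exact Submodule.smul_mem _ _ (Submodule.subset_span ⟨a, ht a, rfl⟩)
      exact h1 x
    · push Not at ht
      obtain ⟨a₁, ha₁⟩ := ht
      obtain ⟨a₀, ha₀⟩ : ∃ a₀, t a₀ = 1 :=
        ⟨(t a₁)⁻¹ • a₁, by rw [map_smul, smul_eq_mul, inv_mul_cancel₀ ha₁]⟩
      have h1 : ∀ y : F ⊗[K] A, y - formBase F t y • ((1 : F) ⊗ₜ[K] a₀) ∈
          Submodule.span F {y : F ⊗[K] A | ∃ a ∈ {a | t a = 0}, y = (1 : F) ⊗ₜ[K] a} := by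
        intro y
        induction y using TensorProduct.induction_on with
        | zero => rw [map_zero, zero_smul, sub_zero]; exact Submodule.zero_mem _
        | add a b ha hb =>
          have h2 := Submodule.add_mem _ ha hb
          rw [map_add, add_smul]
          convert h2 using 1
          abel
        | tmul l a =>
          have h2 : l ⊗ₜ[K] a - formBase F t (l ⊗ₜ[K] a) • ((1 : F) ⊗ₜ[K] a₀) =
              l • ((1 : F) ⊗ₜ[K] (a - t a • a₀)) := by
            rw [formBase_tmul, tmul_sub, smul_sub]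
            congr 1
            · rw [TensorProduct.smul_tmul', smul_eq_mul, mul_one]
            · rw [mul_smul, tmul_smul, algebraMap_smul]
          rw [h2]
          refine Submodule.smul_mem _ _ (Submodule.subset_span ⟨_, ?_, rfl⟩)
          change t (a - t a • a₀) = 0
          rw [map_sub, map_smul, ha₀, smul_eq_mul, mul_one, sub_self]
      have h2 := h1 x
      rwa [hx, zero_smul, sub_zero] at h2

end Alg

section Gen

variable {k : Type u} [Field k] {𝒱 : VarClass k} {ops : CycleOps 𝒱}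
  {W : WeilCohomology.{u, v} ops} {X Z' : 𝒱.Obj}

/-- The rank of the intersection form on the classes of a system. -/
lemma formRank_eq (S : Sys W) (Z : 𝒱.Obj) {s : Set (W.H Z)} {N : Submodule W.K (W.H Z)}
    (hN : ∀ x, x ∈ N ↔ W.tr Z x = 0) (h : S.C Z = Submodule.span W.K s) :
    formRank N s = S.a Z := by
  have h1 : {x | x ∈ Submodule.span W.K s ∧ ∀ y ∈ s, x * y ∈ N} = (S.Num Z : Set (W.H Z)) := by
    ext x
    constructor
    · rintro ⟨hx, hx'⟩
      refine ⟨by rw [h]; exact hx, fun d hd => ?_⟩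
      rw [h] at hd
      induction hd using Submodule.span_induction with
      | mem y hy => exact (hN _).1 (hx' y hy)
      | zero => rw [mul_zero, map_zero]
      | add a b _ _ ha hb => rw [mul_add, map_add, ha, hb, add_zero]
      | smul c a _ ha => rw [mul_smul_comm, map_smul, ha, smul_zero]
    · rintro ⟨hx, hx'⟩
      refine ⟨by rw [← h]; exact hx, fun y hy => (hN _).2 (hx' y ?_)⟩
      rw [h]
      exact Submodule.subset_span hy
  have h2 := S.a_add_num Z
  rw [formRank, h1, Set.finrank, Set.finrank, Submodule.span_eq, ← h]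
  omega

/-- **The law for derivations.** -/
theorem killed_of_not_large {ι : Type*} {S : Sys W} {Q : HPred W} {Δ : ι → TDer W}
    (hSQ : ∀ X, S.C X ≤ Q.sys.C X) (hS : ∀ Z, S.C Z ≤ (killPred Δ).sys.C Z)
    (h : ¬ Large S Q.sys X) (n j : ℕ) (c : W.H (pw X n)) (hc : Q.P (pw X n) j c) :
    (killPred Δ).P (pw X n) j c := by
  obtain ⟨N, hN⟩ := bdd_of_not_large hSQ h
  refine ⟨Q.gr hc, fun i => ?_⟩
  refine hN.der hSQ (Iso.refl (pw X n)) (HPred.sp_of hc) (Δ i) fun Z x hx => ?_
  refine HPred.sp_ind (Q := killPred Δ) (q := fun x => (Δ i).D Z x = 0) ?_ ?_ ?_ (hS Z hx)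
  · intro j x hx; exact hx.2 i
  · exact map_zero _
  · intro a b ha hb; rw [map_add, ha, hb, add_zero]

/-- **The law for Galois actions.** -/
theorem tate_of_not_large {Γ : Type w} [Group Γ] (𝒢 : GalSys W Γ) {S : Sys W} {Q : HPred W}
    (hSQ : ∀ X, S.C X ≤ Q.sys.C X) (hS : ∀ Z, S.C Z ≤ 𝒢.tate.sys.C Z)
    (h : ¬ Large S Q.sys X) (n j : ℕ) (c : W.H (pw X n)) (hc : Q.P (pw X n) j c) :
    IsTate 𝒢 (pw X n) j c := by
  obtain ⟨N, hN⟩ := bdd_of_not_large hSQ h
  exact 𝒢.tate_of_bdd hN hSQ hS (Iso.refl (pw X n)) hc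

end Gen

section Gal

variable {k : Type u} [Field k] {𝒱 : VarClass k} {ops : CycleOps 𝒱}
  {W : WeilCohomology.{u, v} ops} {F : Type v} [Field F] [Algebra W.K F] {X : 𝒱.Obj}
  {Γ : Type w} [Group Γ]

/-- The Galois action on the cohomology with coefficients in `F`. -/
noncomputable def GaloisSystem.gal (𝒢 : GaloisSystem W F Γ) : GalSys (baseW W F) Γ where
  θ := (show Γ →* Fˣ from 𝒢.θ)
  U X := (𝒢.on X).U
  ρ X := (show Γ → (F ⊗[W.K] W.H X →ₐ[F] F ⊗[W.K] W.H X) from (𝒢.on X).ρ)
  act X :=
    { fin := (𝒢.on X).fin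
      one := (𝒢.on X).one
      mul := (𝒢.on X).mul
      gr := by
        intro g hg i c hc
        have hc' : c ∈ (W.gr X i).baseChange F := hc
        have key : ∀ c : F ⊗[W.K] W.H X, c ∈ (W.gr X i).baseChange F →
            (show F ⊗[W.K] W.H X →ₐ[F] F ⊗[W.K] W.H X from (𝒢.on X).ρ g) c ∈
              (W.gr X i).baseChange F := by
          intro c hc
          refine base_induction (P := fun c =>
            (show F ⊗[W.K] W.H X →ₐ[F] F ⊗[W.K] W.H X from (𝒢.on X).ρ g) c ∈
              (W.gr X i).baseChange F) ?_ ?_ ?_ hc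
          · rw [map_zero]; exact Submodule.zero_mem _
          · intro a b ha hb; rw [map_add]; exact Submodule.add_mem _ ha hb
          · intro l a ha
            have h1 : l ⊗ₜ[W.K] a = l • ((1 : F) ⊗ₜ[W.K] a) := by
              rw [TensorProduct.smul_tmul', smul_eq_mul, mul_one]
            rw [h1, map_smul]
            refine Submodule.smul_mem _ _ ?_
            rw [base_eq_span]
            exact mem_span_toExt.1 ((𝒢.on X).gr g hg i a ha)
        exact key c hc'
      tr := by
        intro g hg c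
        have hgr : ∀ i, ∀ a ∈ W.gr X i,
            (show F ⊗[W.K] W.H X →ₐ[F] F ⊗[W.K] W.H X from (𝒢.on X).ρ g) ((1 : F) ⊗ₜ[W.K] a) ∈
              (W.gr X i).baseChange F := by
          intro i a ha
          rw [base_eq_span]
          exact mem_span_toExt.1 ((𝒢.on X).gr g hg i a ha)
        have hzero : ∀ i, i ≠ 2 * X.dim → ∀ z ∈ (W.gr X i).baseChange F,
            formBase F (W.tr X) z = 0 := by
          intro i hi z hz
          refine base_induction (P := fun z => formBase F (W.tr X) z = 0) ?_ ?_ ?_ hz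
          · exact map_zero _
          · intro a b ha hb; rw [map_add, ha, hb, add_zero]
          · intro l a ha; rw [formBase_tmul, W.tr_eq_zero ha hi, map_zero, mul_zero]
        have key : ∀ c : F ⊗[W.K] W.H X, formBase F (W.tr X)
            ((show F ⊗[W.K] W.H X →ₐ[F] F ⊗[W.K] W.H X from (𝒢.on X).ρ g) c) =
              (𝒢.θ g : F) ^ X.dim * formBase F (W.tr X) c := by
          intro c
          refine tmul_induction (P := fun c => formBase F (W.tr X)
            ((show F ⊗[W.K] W.H X →ₐ[F] F ⊗[W.K] W.H X from (𝒢.on X).ρ g) c) =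
              (𝒢.θ g : F) ^ X.dim * formBase F (W.tr X) c) ?_ ?_ ?_ c
          · simp only [map_zero, mul_zero]
          · intro a b ha hb; simp only [map_add, ha, hb, mul_add]
          · intro l a
            have h1 : l ⊗ₜ[W.K] a = l • ((1 : F) ⊗ₜ[W.K] a) := by
              rw [TensorProduct.smul_tmul', smul_eq_mul, mul_one]
            rw [h1, map_smul, map_smul, map_smul, smul_eq_mul, smul_eq_mul, mul_left_comm]
            congr 1
            refine gr_induction (W.isInternal X) (p := fun a => formBase F (W.tr X)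
              ((show F ⊗[W.K] W.H X →ₐ[F] F ⊗[W.K] W.H X from (𝒢.on X).ρ g)
                ((1 : F) ⊗ₜ[W.K] a)) = (𝒢.θ g : F) ^ X.dim *
                  formBase F (W.tr X) ((1 : F) ⊗ₜ[W.K] a)) ?_ ?_ a
            · intro i a ha
              by_cases hi : i = 2 * X.dim
              · subst hi
                have h2 : (show F ⊗[W.K] W.H X →ₐ[F] F ⊗[W.K] W.H X from (𝒢.on X).ρ g)
                    ((1 : F) ⊗ₜ[W.K] a) = (𝒢.θ g : F) ^ X.dim • ((1 : F) ⊗ₜ[W.K] a) :=
                  (𝒢.on X).top g hg a ha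
                rw [h2, map_smul, smul_eq_mul]
              · rw [hzero i hi _ (hgr i a ha),
                  hzero i hi _ (Submodule.tmul_mem_baseChange_of_mem _ ha), mul_zero]
            · intro a b ha hb
              rw [tmul_add, map_add, map_add, ha, hb, map_add, mul_add]
        exact key c }
  map f := 𝒢.map f

lemma GaloisSystem.fixed_iff (𝒢 : GaloisSystem W F Γ) {j : ℕ} {c : (baseW W F).H X} :
    IsTate 𝒢.gal X j c ↔ AlmostFixed (𝒢.on X) j c := by
  refine and_congr ?_ Iff.rfl
  have h1 : c ∈ (W.gr X (2 * j)).baseChange F ↔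
      c ∈ Submodule.span F (toExt F '' (W.gr X (2 * j) : Set (W.H X)) : Set (Ext F W.K _)) := by
    rw [base_eq_span]
    exact mem_span_toExt.symm
  exact h1

end Gal

end Pool.Agent.Y129.Z
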