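import Pool.Agent.Y133.Half.Main2

/-!
# Covers of classes by idempotent operators
-/

set_option linter.unusedSectionVars false

open CategoryTheory AlgebraicGeometry

universe u v

namespace Pool.Agent.Y129.Z

open Module Polynomial
open Pool.Agent.Y133.Half

section Alg

variable {ι K : Type*} [Fintype ι] [DecidableEq ι] [Field K] {V : ι → Type*}
  [∀ i, AddCommGroup (V i)] [∀ i, Module K (V i)] [∀ i, FiniteDimensional K (V i)]
  (C : Cat K V)

/-- An idempotent operator of minimal rank fixing the vector `t`: the rank of the trace form cut out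
by it is at most the number of linearly independent images of `t`. -/
theorem cover (i : ι) (t : V i) : ∃ g ∈ C.S i i, g ∘ₗ g = g ∧ g t = t ∧ ∀ j,
      rk (C.B i j g LinearMap.id) ≤ finrank K (C.gen i j (K ∙ t)) := by
  classical
  let Q : ℕ → Prop := fun n => ∃ g ∈ C.S i i, g ∘ₗ g = g ∧ g t = t ∧
    finrank K (LinearMap.range g) = n
  have hQ : ∃ n, Q n := ⟨_, LinearMap.id, C.one i, rfl, rfl, rfl⟩
  obtain ⟨g, hg, hgg, hgt, hn⟩ := Nat.find_spec hQ
  have hmin : ∀ g' ∈ C.S i i, g' ∘ₗ g' = g' → g' t = t →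
      ¬ finrank K (LinearMap.range g') < finrank K (LinearMap.range g) := by
    intro g' hg' hgg' hgt' hlt'
    rw [hn] at hlt'
    exact Nat.find_min hQ hlt' ⟨g', hg', hgg', hgt', rfl⟩
  refine ⟨g, hg, hgg, hgt, fun j => ?_⟩
  -- the key property
  have key : ∀ x ∈ C.S i i, x t = 0 → LinearMap.trace K (V i) (C.p i ∘ₗ g ∘ₗ x) = 0 := by
    intro x hx hxt
    set y : Module.End K (V i) := g ∘ₗ x ∘ₗ g with hy
    have hyS : y ∈ C.S i i := C.mul hg (C.mul hx hg)
    have hgy : g ∘ₗ y = y := by rw [hy, ← LinearMap.comp_assoc, hgg]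
    have hyg : y ∘ₗ g = y := by rw [hy, LinearMap.comp_assoc, LinearMap.comp_assoc, hgg]
    have hyt : y t = 0 := by
      rw [hy, LinearMap.comp_apply, LinearMap.comp_apply, hgt, hxt, map_zero]
    obtain ⟨q, hq1, hq2⟩ := exists_fit y
    set u := aeval y q with hu
    have huS : u ∈ C.S i i := C.aeval_mem hyS q
    have hcomm : u * y = y * u := by
      have : Commute (aeval y q) (aeval y (X : K[X])) := by
        rw [Commute, SemiconjBy, ← map_mul, ← map_mul, mul_comm]
      rw [aeval_X] at this
      exact this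
    set π := u * y with hπ
    have hπS : π ∈ C.S i i := C.mul huS hyS
    have hgπ : g * π = π := by
      rw [hcomm, ← mul_assoc]
      exact congrArg (fun f : Module.End K (V i) => f * u) hgy
    have hπg : π * g = π := by
      rw [hπ, mul_assoc]
      exact congrArg (fun f : Module.End K (V i) => u * f) hyg
    have hπ0 : π = 0 := by
      by_contra hne
      have h1 : (g - π) ∘ₗ (g - π) = g - π := by
        change (g - π) * (g - π) = g - π
        rw [sub_mul, mul_sub, mul_sub, hgπ, hπg, hq1, sub_self, sub_zero]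
        change g ∘ₗ g - π = _
        rw [hgg]
      have h2 : (g - π) ∈ C.S i i := Submodule.sub_mem _ hg hπS
      have h3 : finrank K (LinearMap.range (g - π)) < finrank K (LinearMap.range g) := by
        have hle : LinearMap.range (g - π) ≤ LinearMap.range g := by
          rintro _ ⟨x, rfl⟩
          refine ⟨(g - π) x, ?_⟩
          have : g * (g - π) = g - π := by
            rw [mul_sub, hgπ]
            change g ∘ₗ g - π = _
            rw [hgg]
          exact congrArg (fun f : Module.End K (V i) => f x) this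
        apply Submodule.finrank_lt_finrank_of_lt
        refine lt_of_le_of_ne hle ?_
        intro heq
        apply hne
        apply LinearMap.ext
        intro x
        have h4 : π x ∈ LinearMap.range g := ⟨π x, congrArg (fun f : Module.End K (V i) => f x) hgπ⟩
        rw [← heq] at h4
        obtain ⟨w, hw⟩ := h4
        have h5 : π ((g - π) w) = 0 := by
          have : π * (g - π) = 0 := by rw [mul_sub, hπg, hq1, sub_self]
          exact congrArg (fun f : Module.End K (V i) => f w) this
        rw [hw] at h5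
        have h6 : π (π x) = π x := congrArg (fun f : Module.End K (V i) => f x) hq1
        rw [LinearMap.zero_apply, ← h6, h5]
      refine hmin _ h2 h1 ?_ h3
      rw [LinearMap.sub_apply, hgt, hπ, Module.End.mul_apply, hyt, map_zero, sub_zero]
    have hnil : IsNilpotent y := hq2 hπ0
    have h7 := C.tr_nil hyS hnil
    rw [hy] at h7
    have h8 : C.p i ∘ₗ g = g ∘ₗ C.p i := C.comm hg
    calc LinearMap.trace K (V i) (C.p i ∘ₗ g ∘ₗ x)
        = LinearMap.trace K (V i) (C.p i ∘ₗ (g ∘ₗ g) ∘ₗ x) := by rw [hgg]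
      _ = LinearMap.trace K (V i) (g ∘ₗ (C.p i ∘ₗ g ∘ₗ x)) := by
          congr 1
          rw [LinearMap.comp_assoc, ← LinearMap.comp_assoc (g ∘ₗ x) g (C.p i), h8,
            LinearMap.comp_assoc]
      _ = LinearMap.trace K (V i) ((C.p i ∘ₗ g ∘ₗ x) ∘ₗ g) := LinearMap.trace_comp_comm' _ _
      _ = 0 := by rw [← h7]; rfl
  -- the map `v ↦ v t`
  let Λ : C.S j i →ₗ[K] V j :=
    { toFun := fun v => (v : V i →ₗ[K] V j) t
      map_add' := fun a b => rfl
      map_smul' := fun c a => rfl }
  have hker : LinearMap.ker Λ ≤ LinearMap.ker (C.B i j g LinearMap.id).flip := by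
    intro v hv
    rw [LinearMap.mem_ker] at hv ⊢
    have h1 : (v : V i →ₗ[K] V j) t = 0 := hv
    apply LinearMap.ext
    intro u
    rw [LinearMap.flip_apply, Cat.B_apply, LinearMap.id_comp, LinearMap.zero_apply]
    exact key _ (C.mul u.2 v.2) (by rw [LinearMap.comp_apply, h1, map_zero])
  have hr1 := LinearMap.finrank_range_add_finrank_ker Λ
  have hr2 := LinearMap.finrank_range_add_finrank_ker (C.B i j g LinearMap.id).flip
  have hr3 := Submodule.finrank_mono hker
  have hr4 : rk (C.B i j g LinearMap.id) ≤ finrank K (LinearMap.range Λ) := by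
    rw [← rk_flip, rk]
    omega
  have hr5 : LinearMap.range Λ ≤ C.gen i j (K ∙ t) := by
    rintro _ ⟨v, rfl⟩
    exact Submodule.subset_span ⟨v, v.2, t, Submodule.mem_span_singleton_self t, rfl⟩
  exact hr4.trans (Submodule.finrank_mono hr5)

end Alg

open Pool.Agent.H914 Pool.Agent.H914.VarClass Pool.Agent.H914.VarClass.Obj
  Pool.Agent.H914.WeilCohomology

variable {k : Type u} [Field k] {𝒱 : VarClass k} {ops : CycleOps 𝒱}
  {W : WeilCohomology.{u, v} ops} (S : Sys W) {P Q Z' : 𝒱.Obj}

theorem sys_cover {T : Sys W} (hST : ∀ X, S.C X ≤ T.C X) (P Z' : 𝒱.Obj) {t : W.H P}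
    (ht : t ∈ T.C P) : ∃ g ∈ S.Op P P, g ∘ₗ g = g ∧ g t = t ∧
      S.r P g Z' ≤ finrank W.K (T.C Z') := by
  let X : Fin 2 → 𝒱.Obj := ![P, Z']
  obtain ⟨g, hg, hgg, hgt, hs⟩ := cover (S.cat X) (0 : Fin 2) t
  refine ⟨g, hg, hgg, hgt, ?_⟩
  have h1 := hs 1
  have h2 := S.rk_BO_r (P := P) (Z := Z') (g := g) (Sys.Op.ev (S := S) hg)
  have h3 : (S.cat X).gen 0 1 (W.K ∙ t) ≤ (T.C Z' : Submodule W.K (W.H Z')) := by
    refine Submodule.span_le.2 ?_
    rintro _ ⟨v, hv, m, hm, rfl⟩
    obtain ⟨r, rfl⟩ := Submodule.mem_span_singleton.1 hm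
    exact Sys.Op.apply (S := S) (X := P) (Y := Z') hST (T := T) hv (Submodule.smul_mem _ _ ht)
  refine le_trans ?_ (Submodule.finrank_mono (R := W.K) (M := W.H Z') h3)
  exact h2.symm.le.trans h1

end Pool.Agent.Y129.Z
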