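import Pool.Agent.Y129.Z.HDefs

/-!
# Galois actions, Tate classes and Hodge classes: definitions

In the intended use `k` is an algebraic closure in `ℂ` of a number field `L` (or of a finitely
generated field), `W` is the cohomology of the complex manifolds `X(ℂ)` with rational coefficients,
`F = ℚ_ℓ`, `Γ` is the Galois group of `k` over `L`, and the cohomology with coefficients in `F` is
identified with `ℓ`-adic cohomology by Artin's comparison isomorphism.
-/

open CategoryTheory AlgebraicGeometry

universe u v w

namespace Pool.Agent.Y129.Z

open Pool.Agent.H914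

section Alg

/-- The rank of the bilinear form given by the product and a functional with the kernel `Z`, on the
subspace spanned by the set `s`: the dimension of this subspace minus the dimension of the subspace
of its elements which are orthogonal to `s`. -/
noncomputable def formRank {F M : Type*} [Field F] [Ring M] [Algebra F M] (Z : Submodule F M)
    (s : Set M) : ℕ :=
  Set.finrank F s - Set.finrank F {x | x ∈ Submodule.span F s ∧ ∀ y ∈ s, x * y ∈ Z}

variable {F K A : Type*} [Field F] [Field K] [Ring A] [Algebra K A] {M M' : Type*} [Ring M]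
  [Algebra F M] [Ring M'] [Algebra F M'] {Γ : Type*} [Group Γ]

/-- An action `ρ` of a subgroup `U` of finite index of `Γ` on the cohomology `M` with coefficients
in `F` of a variety of dimension `d`, by algebra automorphisms which respect the degree, such that
`g` acts on the elements of degree `2 d` as multiplication by `θ g ^ d`, where `θ` is the inverse of
the cyclotomic character. (Only the values of `ρ` on `U` are meaningful. In the applications `M` is
the algebra `A` with coefficients in `F` and `κ` is the inclusion.) -/
structure GaloisOn (κ : A → M) (θ : Γ →* Fˣ) (G : ℕ → Submodule K A) (d : ℕ) where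
  /-- the subgroup -/
  U : Subgroup Γ
  /-- the action -/
  ρ : Γ → (M →ₐ[F] M)
  fin : U.FiniteIndex
  one : ρ 1 = AlgHom.id F M
  mul : ∀ g ∈ U, ∀ h ∈ U, ρ (g * h) = (ρ g).comp (ρ h)
  gr : ∀ g ∈ U, ∀ i, ∀ c ∈ G i, ρ g (κ c) ∈ Submodule.span F (κ '' (G i : Set A))
  top : ∀ g ∈ U, ∀ c ∈ G (2 * d), ρ g (κ c) = (θ g : F) ^ d • κ c

/-- The homomorphism `f` commutes with the actions of a subgroup of finite index. -/
def AlmostEquivariant (f : M →ₐ[F] M') (ρ : Γ → (M →ₐ[F] M)) (ρ' : Γ → (M' →ₐ[F] M')) : Prop :=
  ∃ V : Subgroup Γ, V.FiniteIndex ∧ ∀ g ∈ V, (ρ' g).comp f = f.comp (ρ g)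

variable {κ : A → M} {θ : Γ →* Fˣ} {G : ℕ → Submodule K A} {d : ℕ}

/-- The element `c` has degree `2 j`, and it is multiplied by `θ g ^ j` by all elements `g` of a
subgroup of finite index. -/
def AlmostFixed (S : GaloisOn κ θ G d) (j : ℕ) (c : M) : Prop :=
  c ∈ Submodule.span F (κ '' (G (2 * j) : Set A)) ∧
    ∃ V : Subgroup Γ, V.FiniteIndex ∧ ∀ g ∈ V, S.ρ g c = (θ g : F) ^ j • c

/-- The dimension of the space spanned by the elements `c` with `AlmostFixed S j c` for some
`j`. -/
noncomputable def fixedDim (S : GaloisOn κ θ G d) : ℕ :=
  Set.finrank F {c | ∃ j, AlmostFixed S j c}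

variable [Algebra K ℝ] {E : Type*} [Ring E] [Algebra ℂ E] {ι : A → E} {t : A →ₗ[K] K}

/-- The dimension of the space spanned by the elements of type `(j, j)` for some `j`. -/
noncomputable def typeDim (Ψ : HodgeOn ι G d t) : ℕ :=
  Set.finrank K {c | ∃ j, HasType ι G Ψ.H j c}

/-- The element `c` is a linear combination with coefficients in `F` of elements of degree `2 j` and
type `(j, j)`. -/
def InTypeSpan (F : Type*) [Field F] [Algebra F M] (κ : A → M) (Ψ : HodgeOn ι G d t) (j : ℕ)
    (c : M) : Prop :=
  c ∈ Submodule.span F (κ '' {c | HasType ι G Ψ.H j c})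

variable (Ψ : HodgeOn ι G d t) (S : GaloisOn κ θ G d)

/-- The rank of the form `(x, y) ↦ t (x y)` (with coefficients in `F`) on the elements with both
properties. -/
noncomputable def bothRank : ℕ :=
  formRank (Submodule.span F (κ '' {a | t a = 0}))
    {c | ∃ j, AlmostFixed S j c ∧ InTypeSpan F κ Ψ j c}

/-- The first property implies the second one. -/
def FixedLeType : Prop := ∀ j c, AlmostFixed S j c → InTypeSpan F κ Ψ j c

/-- The second property implies the first one. -/
def TypeLeFixed : Prop := ∀ j c, InTypeSpan F κ Ψ j c → AlmostFixed S j c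

end Alg

open Pool.Agent.H914.VarClass Pool.Agent.H914.VarClass.Obj Pool.Agent.H914.WeilCohomology

variable {k : Type u} [Field k] {𝒱 : VarClass k} {ops : CycleOps 𝒱}

/-- Galois actions on the cohomology with coefficients in `F`: for each variety `X` an action of a
subgroup of finite index (the Galois group of `k` over a field of definition of `X`), such that the
pull-back by each morphism commutes with the action of a subgroup of finite index (the Galois group
of `k` over a field of definition of the morphism). -/
structure GaloisSystem (W : WeilCohomology.{u, v} ops) (F : Type v) [Field F] [Algebra W.K F]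
    (Γ : Type w) [Group Γ] where
  /-- the inverse of the cyclotomic character -/
  θ : Γ →* Fˣ
  /-- the action on the cohomology of `X` -/
  on : ∀ X : 𝒱.Obj, GaloisOn (toExt F : W.H X → Ext F W.K (W.H X)) θ (W.gr X) X.dim
  map : ∀ {X Y : 𝒱.Obj} (f : X ⟶ Y), AlmostEquivariant (extMap F (W.map f)) (on Y).ρ (on X).ρ

variable {W : WeilCohomology.{u, v} ops} {F : Type v} [Field F] [Algebra W.K F]
  {Γ : Type w} [Group Γ]

/-- The dimension of the space spanned by the Tate classes of all degrees. The Tate classes of
degree `2 j` are the classes in `H^(2 j)(X)(j)` fixed by a subgroup of finite index of the Galois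
group. -/
noncomputable def tateDim (𝒢 : GaloisSystem W F Γ) (X : 𝒱.Obj) : ℕ := fixedDim (𝒢.on X)

variable [Algebra W.K ℝ] (Ψ : HodgeDec W) (𝒢 : GaloisSystem W F Γ) (X : 𝒱.Obj)

/-- The dimension of the space spanned by the Hodge classes of all degrees. -/
noncomputable def hodgeDim : ℕ := typeDim (Ψ.on X)

/-- The rank of the intersection form on the classes which are both Tate classes and linear
combinations of Hodge classes. -/
noncomputable def commonRank : ℕ := bothRank (Ψ.on X) (𝒢.on X)

/-- All Tate classes on `X` are linear combinations of Hodge classes. -/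
def TateLeHodge : Prop := FixedLeType (Ψ.on X) (𝒢.on X)

/-- All Hodge classes on `X` are Tate classes. -/
def HodgeLeTate : Prop := TypeLeFixed (Ψ.on X) (𝒢.on X)

/-- The Mumford-Tate conjecture for `X`: in all degrees the space of the Tate classes is the space
of the linear combinations of Hodge classes. -/
def MumfordTate : Prop := TateLeHodge Ψ 𝒢 X ∧ HodgeLeTate Ψ 𝒢 X

end Pool.Agent.Y129.Z
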