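import Pool.Agent.Y129.Z.Bnd

/-!
# External powers of classes, tensor automorphisms and tensor derivations
-/

open CategoryTheory AlgebraicGeometry

universe u v

namespace Pool.Agent.Y129.Z

open Module
open Pool.Agent.Y133.Half

open Pool.Agent.H914 Pool.Agent.H914.VarClass Pool.Agent.H914.VarClass.Obj
  Pool.Agent.H914.WeilCohomology

variable {k : Type u} [Field k] {𝒱 : VarClass k} {ops : CycleOps 𝒱}
  {W : WeilCohomology.{u, v} ops} {S T : Sys W} {X P Q Z' : 𝒱.Obj}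

/-- The external product of functionals. -/
noncomputable def xpf (f : Dual W.K (W.H P)) (g : Dual W.K (W.H Q)) :
    Dual W.K (W.H (P.prod Q)) :=
  (LinearMap.mul' W.K W.K ∘ₗ TensorProduct.map f g) ∘ₗ (kappa W P Q).symm.toLinearMap

lemma xpf_xp (f : Dual W.K (W.H P)) (g : Dual W.K (W.H Q)) (x : W.H P) (y : W.H Q) :
    xpf f g (xp W x y) = f x * g y := by
  have h : (kappa W P Q).symm (xp W x y) = x ⊗ₜ[W.K] y := by
    rw [LinearEquiv.symm_apply_eq, kappa_tmul]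
    rfl
  rw [xpf, LinearMap.comp_apply, LinearEquiv.coe_coe, h, LinearMap.comp_apply,
    TensorProduct.map_tmul, LinearMap.mul'_apply]

/-- The external power of a class. -/
noncomputable def xpw (W : WeilCohomology.{u, v} ops) {P : 𝒱.Obj} (u : W.H P) :
    ∀ n, W.H (pw P n)
  | 0 => u
  | n + 1 => (xp W (xpw W u n) u : W.H ((pw P n).prod P))

/-- The external product of functionals on the factors of a power. -/
noncomputable def fpw {P : 𝒱.Obj} (f : ℕ → Dual W.K (W.H P)) : ∀ n, Dual W.K (W.H (pw P n))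
  | 0 => f 0
  | n + 1 => (xpf (fpw f n) (f (n + 1)) : Dual W.K (W.H ((pw P n).prod P)))

lemma fpw_xpw (f : ℕ → Dual W.K (W.H P)) (u : W.H P) (n : ℕ) :
    fpw f n (xpw W u n) = ∏ i ∈ Finset.range (n + 1), f i u := by
  induction n with
  | zero =>
    rw [zero_add, Finset.prod_range_one]
    rfl
  | succ n ih =>
    rw [Finset.prod_range_succ, ← ih]
    exact xpf_xp _ _ _ _

lemma xpw_mem {u : W.H P} (hu : u ∈ T.C P) (n : ℕ) : xpw W u n ∈ T.C (pw P n) := by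
  induction n with
  | zero => exact hu
  | succ n ih => exact Sys.xp_mem_C T ih hu

lemma xp_even {x : W.H P} {y : W.H Q} (hx : x ∈ PH W P 0) (hy : y ∈ PH W Q 0) :
    xp W x y ∈ PH W (P.prod Q) 0 := by
  have := xp_mem hx hy
  rwa [add_zero] at this

lemma xpw_even {u : W.H P} (hu : u ∈ PH W P 0) (n : ℕ) : xpw W u n ∈ PH W (pw P n) 0 := by
  induction n with
  | zero => exact hu
  | succ n ih => exact xp_even ih hu

/-- Powers of powers. -/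
lemma pw_pw {m : ℕ} (θ : P ≅ pw X m) (n : ℕ) :
    ∃ M, M + 1 = (m + 1) * (n + 1) ∧ Nonempty (pw P n ≅ pw X M) := by
  induction n with
  | zero => exact ⟨m, by ring, ⟨θ⟩⟩
  | succ n ih =>
    obtain ⟨M, hM, ⟨φ⟩⟩ := ih
    exact ⟨M + m + 1, by rw [mul_add (m + 1) (n + 1) 1, ← hM]; ring,
      ⟨prodCongr φ θ ≪≫ pwAdd X M m⟩⟩

/-- The morphisms between varieties of the class. -/
abbrev Arr (𝒱 : VarClass k) : Type (u + 1) := Σ (X Y : 𝒱.Obj), (X ⟶ Y)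

/-- Automorphisms of the cohomology (in even degrees) compatible with products, and with
pull-backs and push-forwards for the morphisms in `M`. -/
structure TAut (W : WeilCohomology.{u, v} ops) (M : Set (Arr 𝒱)) where
  /-- the automorphisms -/
  φ : ∀ X : 𝒱.Obj, W.H X →ₗ[W.K] W.H X
  even : ∀ {X : 𝒱.Obj} {x : W.H X}, x ∈ PH W X 0 → φ X x ∈ PH W X 0
  one : ∀ X : 𝒱.Obj, φ X 1 = 1
  mul : ∀ {X : 𝒱.Obj} {x y : W.H X}, x ∈ PH W X 0 → y ∈ PH W X 0 → φ X (x * y) = φ X x * φ X y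
  map : ∀ {X Y : 𝒱.Obj} (f : X ⟶ Y), (⟨X, Y, f⟩ : Arr 𝒱) ∈ M → ∀ {y : W.H Y}, y ∈ PH W Y 0 →
    φ X (W.map f y) = W.map f (φ Y y)
  push : ∀ {X Y : 𝒱.Obj} (f : X ⟶ Y), (⟨X, Y, f⟩ : Arr 𝒱) ∈ M → ∀ {x : W.H X}, x ∈ PH W X 0 →
    φ Y (W.push f x) = W.push f (φ X x)
  inj : ∀ {X : 𝒱.Obj} {x : W.H X}, x ∈ PH W X 0 → φ X x = 0 → x = 0

/-- The automorphisms fix the classes of the system on the varieties in `O`. -/
def TAut.Fixes {M : Set (Arr 𝒱)} (Φ : TAut W M) (S : Sys W) (O : Set 𝒱.Obj) : Prop :=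
  ∀ X ∈ O, ∀ c ∈ S.C X, Φ.φ X c = c

/-- Derivations of the cohomology (in even degrees) compatible with pull-backs and
push-forwards. -/
structure TDer (W : WeilCohomology.{u, v} ops) where
  /-- the derivations -/
  D : ∀ X : 𝒱.Obj, W.H X →ₗ[W.K] W.H X
  even : ∀ {X : 𝒱.Obj} {x : W.H X}, x ∈ PH W X 0 → D X x ∈ PH W X 0
  leib : ∀ {X : 𝒱.Obj} {x y : W.H X}, x ∈ PH W X 0 → y ∈ PH W X 0 →
    D X (x * y) = D X x * y + x * D X y
  map : ∀ {X Y : 𝒱.Obj} (f : X ⟶ Y) {y : W.H Y}, y ∈ PH W Y 0 →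
    D X (W.map f y) = W.map f (D Y y)
  push : ∀ {X Y : 𝒱.Obj} (f : X ⟶ Y) {x : W.H X}, x ∈ PH W X 0 →
    D Y (W.push f x) = W.push f (D X x)

/-- The derivations vanish on the classes of the system. -/
def TDer.Kills (Δ : TDer W) (S : Sys W) : Prop := ∀ (X : 𝒱.Obj), ∀ c ∈ S.C X, Δ.D X c = 0

lemma TAut.op {M : Set (Arr 𝒱)} {O : Set 𝒱.Obj} {Φ : TAut W M} (hΦ : Φ.Fixes S O)
    (hO : P.prod Q ∈ O) (h1 : (⟨P.prod Q, P, fst P Q⟩ : Arr 𝒱) ∈ M)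
    (h2 : (⟨P.prod Q, Q, snd P Q⟩ : Arr 𝒱) ∈ M) {u : W.H P →ₗ[W.K] W.H Q} (hu : u ∈ S.Op P Q)
    {x : W.H P} (hx : x ∈ PH W P 0) : Φ.φ Q (u x) = u (Φ.φ P x) := by
  obtain ⟨c, hc, rfl⟩ := Sys.mem_Op.1 hu
  have h3 := S.even hc
  rw [corr_apply, corr_apply, Φ.push _ h2, Φ.mul h3 (PH.map _ hx), hΦ _ hO c hc, Φ.map _ h1 hx]
  have := PH.mul h3 (PH.map (fst P Q) hx)
  rwa [add_zero] at this

lemma TDer.op {Δ : TDer W} (hΔ : Δ.Kills S) {u : W.H P →ₗ[W.K] W.H Q} (hu : u ∈ S.Op P Q)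
    {x : W.H P} (hx : x ∈ PH W P 0) : Δ.D Q (u x) = u (Δ.D P x) := by
  obtain ⟨c, hc, rfl⟩ := Sys.mem_Op.1 hu
  have h1 := S.even hc
  rw [corr_apply, corr_apply, Δ.push, Δ.leib h1 (PH.map _ hx), hΔ _ c hc, Δ.map _ hx, zero_mul,
    zero_add]
  have := PH.mul h1 (PH.map (fst P Q) hx)
  rwa [add_zero] at this

lemma TAut.xp {M : Set (Arr 𝒱)} {Φ : TAut W M} (h1 : (⟨P.prod Q, P, fst P Q⟩ : Arr 𝒱) ∈ M)
    (h2 : (⟨P.prod Q, Q, snd P Q⟩ : Arr 𝒱) ∈ M) {x : W.H P} {y : W.H Q} (hx : x ∈ PH W P 0)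
    (hy : y ∈ PH W Q 0) :
    Φ.φ _ (Y133.Half.xp W x y) = Y133.Half.xp W (Φ.φ P x) (Φ.φ Q y) := by
  rw [xp_def, xp_def, Φ.mul (PH.map _ hx) (PH.map _ hy), Φ.map _ h1 hx, Φ.map _ h2 hy]

lemma TDer.xp {Δ : TDer W} {x : W.H P} {y : W.H Q} (hx : x ∈ PH W P 0) (hy : y ∈ PH W Q 0) :
    Δ.D _ (Y133.Half.xp W x y) =
      Y133.Half.xp W (Δ.D P x) y + Y133.Half.xp W x (Δ.D Q y) := by
  rw [xp_def, xp_def, xp_def, Δ.leib (PH.map _ hx) (PH.map _ hy), Δ.map _ hx, Δ.map _ hy]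

lemma TAut.xpw {M : Set (Arr 𝒱)} {Φ : TAut W M} {u : W.H P} (hu : u ∈ PH W P 0) (n : ℕ)
    (hM : ∀ m < n, (⟨(pw P m).prod P, pw P m, fst (pw P m) P⟩ : Arr 𝒱) ∈ M ∧
      (⟨(pw P m).prod P, P, snd (pw P m) P⟩ : Arr 𝒱) ∈ M) :
    Φ.φ _ (Z.xpw W u n) = Z.xpw W (Φ.φ P u) n := by
  induction n with
  | zero => rfl
  | succ n ih =>
    obtain ⟨h1, h2⟩ := hM n (Nat.lt_succ_self n)
    have h := TAut.xp (Φ := Φ) h1 h2 (xpw_even hu n) hu
    rw [ih fun m hm => hM m (hm.trans (Nat.lt_succ_self n))] at h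
    exact h

lemma TDer.one (Δ : TDer W) (X : 𝒱.Obj) : Δ.D X 1 = 0 := by
  have h := Δ.leib (X := X) (x := 1) (y := 1) PH.one PH.one
  rw [one_mul, one_mul, mul_one] at h
  exact left_eq_add.1 h

end Pool.Agent.Y129.Z
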