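import Pool.Agent.H914R2.StdDefs

/-!
# Galois actions on a Weil cohomology theory and Tate classes: definitions

In the intended use `k` is an algebraic closure of a number field (or of a finitely generated field)
`L`, `W` is `ℓ`-adic cohomology and `Γ` is the Galois group of `k` over `L`.
-/

open CategoryTheory AlgebraicGeometry

universe u v w

namespace Pool.Agent.Y129.Z

open Pool.Agent.H914

section Alg

variable {K : Type*} [Field K] {A B : Type*} [Ring A] [Algebra K A] [Ring B] [Algebra K B]
  {Γ : Type*} [Group Γ]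

/-- The formal properties of the action `ρ` of a subgroup `U` of finite index of `Γ` on the
cohomology of a variety of dimension `d` with orientation `t`: it is an action by algebra
automorphisms which respects the degree, and `g` acts on the elements of degree `2 d` as
multiplication by `θ g ^ d`, where `θ` is the inverse of the cyclotomic character. (Only the values
of `ρ` on `U` are meaningful.) -/
structure IsGalAction (θ : Γ →* Kˣ) (U : Subgroup Γ) (G : ℕ → Submodule K A) (d : ℕ)
    (t : A →ₗ[K] K) (ρ : Γ → (A →ₐ[K] A)) : Prop where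
  fin : U.FiniteIndex
  one : ρ 1 = AlgHom.id K A
  mul : ∀ g ∈ U, ∀ h ∈ U, ρ (g * h) = (ρ g).comp (ρ h)
  gr : ∀ g ∈ U, ∀ i, ∀ c ∈ G i, ρ g c ∈ G i
  tr : ∀ g ∈ U, ∀ c, t (ρ g c) = (θ g : K) ^ d * t c

/-- The homomorphism `f` commutes with the action of a subgroup of finite index. -/
def AlmostEquiv (f : A →ₐ[K] B) (ρ : Γ → (A →ₐ[K] A)) (ρ' : Γ → (B →ₐ[K] B)) : Prop :=
  ∃ V : Subgroup Γ, V.FiniteIndex ∧ ∀ g ∈ V, (ρ' g).comp f = f.comp (ρ g)

/-- All elements `g` of a subgroup of finite index multiply `c` by `θ g ^ j`. -/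
def AlmFixed (θ : Γ →* Kˣ) (ρ : Γ → (A →ₐ[K] A)) (j : ℕ) (c : A) : Prop :=
  ∃ V : Subgroup Γ, V.FiniteIndex ∧ ∀ g ∈ V, ρ g c = (θ g : K) ^ j • c

end Alg

open Pool.Agent.H914.VarClass Pool.Agent.H914.VarClass.Obj Pool.Agent.H914.WeilCohomology

variable {k : Type u} [Field k] {𝒱 : VarClass k} {ops : CycleOps 𝒱}

/-- Galois actions on the cohomology: for each variety `X` an action of a subgroup `U X` of finite
index (the Galois group of `k` over a field of definition of `X`), such that the pull-back by each
morphism commutes with the action of a subgroup of finite index (the Galois group of `k` over a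
field of definition of the morphism). -/
structure GalSys (W : WeilCohomology.{u, v} ops) (Γ : Type w) [Group Γ] where
  /-- the inverse of the cyclotomic character -/
  θ : Γ →* W.Kˣ
  /-- the subgroup which acts on the cohomology of `X` -/
  U : 𝒱.Obj → Subgroup Γ
  /-- the action -/
  ρ : ∀ X : 𝒱.Obj, Γ → (W.H X →ₐ[W.K] W.H X)
  act : ∀ X, IsGalAction θ (U X) (W.gr X) X.dim (W.tr X) (ρ X)
  map : ∀ {X Y : 𝒱.Obj} (f : X ⟶ Y), AlmostEquiv (W.map f) (ρ Y) (ρ X)

variable {W : WeilCohomology.{u, v} ops} {Γ : Type w} [Group Γ]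

/-- The Tate classes of degree `2 j`: the classes in `H^(2 j)(X)(j)` fixed by a subgroup of finite
index of the Galois group, that is, the classes `c` in `H^(2 j)(X)` with `g c = θ(g) ^ j c` for all
`g` in a subgroup of finite index. -/
def IsTate (𝒢 : GalSys W Γ) (X : 𝒱.Obj) (j : ℕ) (c : W.H X) : Prop :=
  c ∈ W.gr X (2 * j) ∧ AlmFixed 𝒢.θ (𝒢.ρ X) j c

end Pool.Agent.Y129.Z
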