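import Pool.Agent.H914R2.Weil
import Pool.Agent.H914R2.LefDefs
import Pool.Agent.Y133.Half.PwDefs

/-!
# Extension of the coefficients, and Hodge decompositions on a Weil cohomology theory: definitions

In the intended use `k` is an algebraically closed field embedded in `ℂ`, the varieties are the
smooth projective ones and `W` is the cohomology of the complex manifolds `X(ℂ)` with rational
coefficients, `W.K = ℚ`.
-/

open CategoryTheory AlgebraicGeometry

open scoped TensorProduct

universe u v

namespace Pool.Agent.Y129.Z

open Pool.Agent.H914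

section Ext

/-- The algebra `A` with coefficients in the extension `F` of `K`. -/
def Ext (F K A : Type*) [Field F] [Field K] [Algebra K F] [Ring A] [Algebra K A] := F ⊗[K] A

variable {F K A B : Type*} [Field F] [Field K] [Algebra K F] [Ring A] [Algebra K A] [Ring B]
  [Algebra K B]

/-- The ring structure. -/
noncomputable def extRing : Ring (Ext F K A) := (Algebra.TensorProduct.instRing : Ring (F ⊗[K] A))

noncomputable instance : Ring (Ext F K A) := extRing

/-- The structure of an algebra over `F`. -/
noncomputable def extAlgebra : Algebra F (Ext F K A) :=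
  (Algebra.TensorProduct.leftAlgebra : Algebra F (F ⊗[K] A))

noncomputable instance : Algebra F (Ext F K A) := extAlgebra

/-- The element `c` of `A` as an element of the algebra with coefficients in `F`. -/
noncomputable def toExt (F : Type*) [Field F] [Algebra K F] (c : A) : Ext F K A := (1 : F) ⊗ₜ[K] c

/-- The extension of an algebra homomorphism. -/
noncomputable def extMap (F : Type*) [Field F] [Algebra K F] (f : A →ₐ[K] B) :
    Ext F K A →ₐ[F] Ext F K B :=
  Algebra.TensorProduct.map (AlgHom.id F F) f

end Ext

section Alg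

variable {K : Type*} [Field K] [Algebra K ℝ] {A : Type*} [Ring A] [Algebra K A] {E E' : Type*}
  [Ring E] [Algebra ℂ E] [Ring E'] [Algebra ℂ E']

/-- The element `c` of `A` has degree `2 j`, and its image under `ι` has type `(j, j)`. (In the
applications `E` is the algebra `A` with complex coefficients and `ι` is the inclusion.) -/
def HasType (ι : A → E) (G : ℕ → Submodule K A) (H : ℕ → ℕ → Submodule ℂ E) (j : ℕ) (c : A) :
    Prop :=
  c ∈ G (2 * j) ∧ ι c ∈ H j j

/-- The element `L` has type `(1, 1)` and satisfies the hard Lefschetz theorem and the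
Hodge-Riemann relations for the primitive elements of type `(j, j)`. -/
structure IsPolarization (ι : A → E) (G : ℕ → Submodule K A) (d : ℕ) (t : A →ₗ[K] K)
    (H : ℕ → ℕ → Submodule ℂ E) (L : A) : Prop where
  type : HasType ι G H 1 L
  hard : HardLef G d (LinearMap.mulLeft K L)
  pos : ∀ j, 2 * j ≤ d → ∀ x, HasType ι G H j x → L ^ (d - 2 * j + 1) * x = 0 → x ≠ 0 →
    0 < (-1 : ℝ) ^ j * algebraMap K ℝ (t (L ^ (d - 2 * j) * x * x))

/-- A Hodge decomposition of the cohomology `E` with complex coefficients of a variety of dimension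
`d` with orientation `t`: it is the direct sum of subspaces `H p q`, the space `H p q` consists of
elements of degree `p + q`, the product maps `H p q × H r s` to `H (p + r) (q + s)`, the elements of
degree `2 d` are of type `(d, d)`, and there is a rational element of type `(1, 1)` (the class of an
ample divisor) which satisfies the hard Lefschetz theorem and the Hodge-Riemann relations. -/
structure HodgeOn (ι : A → E) (G : ℕ → Submodule K A) (d : ℕ) (t : A →ₗ[K] K) where
  /-- the subspaces `H^(p,q)` -/
  H : ℕ → ℕ → Submodule ℂ E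
  dec : DirectSum.IsInternal (fun m : ℕ × ℕ => H m.1 m.2)
  deg : ∀ p q, ∀ x ∈ H p q, x ∈ Submodule.span ℂ (ι '' (G (p + q) : Set A))
  mul : ∀ p q r s, ∀ x ∈ H p q, ∀ y ∈ H r s, x * y ∈ H (p + r) (q + s)
  top : ∀ c ∈ G (2 * d), ι c ∈ H d d
  polar : ∃ L, IsPolarization ι G d t H L

/-- The homomorphism `f` maps `H p q` to `H' p q`. -/
def Compatible (f : E →ₐ[ℂ] E') (H : ℕ → ℕ → Submodule ℂ E) (H' : ℕ → ℕ → Submodule ℂ E') :
    Prop :=
  ∀ p q, ∀ y ∈ H p q, f y ∈ H' p q

end Alg

open Pool.Agent.H914.VarClass Pool.Agent.H914.VarClass.Obj Pool.Agent.H914.WeilCohomology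

variable {k : Type u} [Field k] {𝒱 : VarClass k} {ops : CycleOps 𝒱}

/-- Hodge decompositions on the cohomology with complex coefficients of all varieties, compatible
with pull-backs. -/
structure HodgeDec (W : WeilCohomology.{u, v} ops) [Algebra W.K ℝ] where
  /-- the Hodge decomposition of the cohomology of `X` -/
  on : ∀ X : 𝒱.Obj,
    HodgeOn (toExt ℂ : W.H X → Ext ℂ W.K (W.H X)) (W.gr X) X.dim (W.tr X)
  map : ∀ {X Y : 𝒱.Obj} (f : X ⟶ Y), Compatible (extMap ℂ (W.map f)) (on Y).H (on X).H

variable {W : WeilCohomology.{u, v} ops} [Algebra W.K ℝ]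

/-- The Hodge classes of degree `2 j`: the classes in `H^(2 j)(X)` of type `(j, j)`. -/
def IsHodge (Ψ : HodgeDec W) (X : 𝒱.Obj) (j : ℕ) (c : W.H X) : Prop :=
  HasType (toExt ℂ) (W.gr X) (Ψ.on X).H j c

end Pool.Agent.Y129.Z
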