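import Pool.Agent.Y129.Z.Bridge

/-!
# The zero-one laws for Hodge classes and Tate classes
-/

open CategoryTheory AlgebraicGeometry TensorProduct Filter Topology

universe u v w

namespace Pool.Agent.Y129.Z

open Module
open Pool.Agent.Y133.Half

open Pool.Agent.H914 Pool.Agent.H914.VarClass Pool.Agent.H914.VarClass.Obj
  Pool.Agent.H914.WeilCohomology

section MT

variable {k : Type u} [Field k] {𝒱 : VarClass k} {ops : CycleOps 𝒱}
  {W : WeilCohomology.{u, v} ops} [Algebra W.K ℝ] (Ψ : HodgeDec W) (F : Type v) [Field F]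
  [Algebra W.K F] {X : 𝒱.Obj}

/-- The classes of type `(j, j)` are those killed by the derivations. -/
lemma HodgeDec.kill_iff {Ψ : HodgeDec W} {j : ℕ} {c : W.H X} :
    (kill Ψ.ader).P X j c ↔ IsHodge Ψ X j c := HodgeDec.isHodge_iff.symm

lemma HodgeDec.killF_iff {Ψ : HodgeDec W} {j : ℕ} {c : (baseW W F).H X} :
    (killF Ψ.ader F).P X j c ↔ InTypeSpan F (toExt F) (Ψ.on X) j c := by
  rw [Z.killF_iff]
  simp only [HodgeDec.kill_iff]
  have h1 : c ∈ Submodule.span F (toExt F '' {c | HasType (toExt ℂ) (W.gr X) (Ψ.on X).H j c} :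
      Set (Ext F W.K _)) ↔ _ := mem_span_toExt
  exact h1.symm

/-- The Hodge classes are polarized. -/
lemma HodgeDec.pol (X : 𝒱.Obj) : ∃ w, Pol (kill Ψ.ader) X w := by
  obtain ⟨w, hw⟩ := (Ψ.on X).polar
  have h1 : (kill Ψ.ader).P X 1 w := HodgeDec.kill_iff.2 hw.type
  exact ⟨w, h1, hw.hard, fun j hj x hx h => kill_div h1 hw.hard hj hx h,
    fun j hj x hx h hx0 => hw.pos j hj x (HodgeDec.kill_iff.1 hx) h hx0⟩

lemma hodgeDim_eq (X : 𝒱.Obj) : hodgeDim Ψ X = finrank W.K ((kill Ψ.ader).sys.C X) := by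
  rw [hodgeDim, typeDim, Set.finrank]
  have h1 : (kill Ψ.ader).sys.C X =
      Submodule.span W.K {c : W.H X | ∃ j, HasType (toExt ℂ) (W.gr X) (Ψ.on X).H j c} := by
    rw [HPred.sys_C, HPred.sp]
    simp only [HodgeDec.kill_iff]
    rfl
  rw [h1]

lemma hodgeDim_eq_a (X : 𝒱.Obj) : hodgeDim Ψ X = (killF Ψ.ader F).sys.a X := by
  obtain ⟨w, hw⟩ := Ψ.pol X
  rw [hodgeDim_eq, killF_a hw]

lemma hodgeDim_eq_F (X : 𝒱.Obj) :
    hodgeDim Ψ X = finrank (baseW W F).K ((killF Ψ.ader F).sys.C X) := by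
  rw [hodgeDim_eq, killF_finrank]

variable {F} {Γ : Type w} [Group Γ] (𝒢 : GaloisSystem W F Γ)

omit [Algebra W.K ℝ] in
lemma tateDim_eq (X : 𝒱.Obj) :
    tateDim 𝒢 X = finrank (baseW W F).K (𝒢.gal.tate.sys.C X) := by
  have h1 : 𝒢.gal.tate.sys.C X = Submodule.span (baseW W F).K
      {c : (baseW W F).H X | ∃ j, AlmostFixed (𝒢.on X) j c} := by
    rw [HPred.sys_C, HPred.sp]
    congr 1
    ext c
    exact exists_congr fun j => 𝒢.fixed_iff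
  rw [h1]
  rfl

/-- The classes which are both Tate classes and linear combinations of Hodge classes. -/
noncomputable def comm : HPred (baseW W F) := (killF Ψ.ader F).inf 𝒢.gal.tate

omit [Algebra W.K ℝ] in
variable (W F) in
/-- The kernel of the trace. -/
noncomputable def kerTr (X : 𝒱.Obj) : Submodule (baseW W F).K ((baseW W F).H X) :=
  (show Submodule F (Ext F W.K (W.H X)) from Submodule.span F (toExt F '' {a | W.tr X a = 0}))

omit [Algebra W.K ℝ] in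
lemma mem_kerTr {x : (baseW W F).H X} : x ∈ kerTr W F X ↔ (baseW W F).tr X x = 0 := by
  have h1 : x ∈ kerTr W F X ↔
    x ∈ Submodule.span F (toExt F '' {a | W.tr X a = 0} : Set (Ext F W.K _)) := Iff.rfl
  exact h1.trans (mem_span_toExt.trans (ker_formBase (W.tr X) x))

lemma commonRank_eq (X : 𝒱.Obj) : commonRank Ψ 𝒢 X = (comm Ψ 𝒢).sys.a X := by
  refine formRank_eq (comm Ψ 𝒢).sys X (s := {c : (baseW W F).H X | ∃ j,
    AlmostFixed (𝒢.on X) j c ∧ InTypeSpan F (toExt F) (Ψ.on X) j c})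
    (N := kerTr W F X) (fun x => mem_kerTr) ?_
  · rw [HPred.sys_C, HPred.sp]
    congr 1
    ext c
    refine exists_congr fun j => ?_
    change ((killF Ψ.ader F).P X j c ∧ IsTate 𝒢.gal X j c) ↔ _
    rw [HodgeDec.killF_iff, 𝒢.fixed_iff]
    exact and_comm

/-- **Zero-one laws.** -/
theorem mt_law (X : 𝒱.Obj) :
    ((∀ n, TateLeHodge Ψ 𝒢 (pw X n)) ∨
      Tendsto (fun n => (commonRank Ψ 𝒢 (pw X n) : ℝ) / tateDim 𝒢 (pw X n)) atTop (𝓝 0)) ∧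
    ((∀ n, HodgeLeTate Ψ 𝒢 (pw X n)) ∨
      Tendsto (fun n => (commonRank Ψ 𝒢 (pw X n) : ℝ) / hodgeDim Ψ (pw X n)) atTop (𝓝 0)) ∧
    ((∀ n, MumfordTate Ψ 𝒢 (pw X n) ∧ commonRank Ψ 𝒢 (pw X n) = tateDim 𝒢 (pw X n) ∧
        commonRank Ψ 𝒢 (pw X n) = hodgeDim Ψ (pw X n)) ∨
      Tendsto (fun n => (commonRank Ψ 𝒢 (pw X n) : ℝ) /
        (max (tateDim 𝒢 (pw X n)) (hodgeDim Ψ (pw X n)) : ℕ)) atTop (𝓝 0)) ∧
    ((∀ n, HodgeLeTate Ψ 𝒢 (pw X n)) → (∀ n, MumfordTate Ψ 𝒢 (pw X n)) ∨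
      Tendsto (fun n => (hodgeDim Ψ (pw X n) : ℝ) / tateDim 𝒢 (pw X n)) atTop (𝓝 0)) := by
  have hT : ∀ Z, (comm Ψ 𝒢).sys.C Z ≤ 𝒢.gal.tate.sys.C Z := fun Z => HPred.inf_le_right _ _ Z
  have hH : ∀ Z, (comm Ψ 𝒢).sys.C Z ≤ (killF Ψ.ader F).sys.C Z :=
    fun Z => HPred.inf_le_left _ _ Z
  have lT : Large (comm Ψ 𝒢).sys 𝒢.gal.tate.sys X →
      ∀ N : ℕ, ∃ n₀ : ℕ, ∀ n ≥ n₀, N * commonRank Ψ 𝒢 (pw X n) ≤ tateDim 𝒢 (pw X n) := by
    intro h N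
    obtain ⟨n₀, hn₀⟩ := h N
    refine ⟨n₀, fun n hn => ?_⟩
    rw [commonRank_eq, tateDim_eq]
    exact hn₀ n hn
  have lH : Large (comm Ψ 𝒢).sys (killF Ψ.ader F).sys X →
      ∀ N : ℕ, ∃ n₀ : ℕ, ∀ n ≥ n₀, N * commonRank Ψ 𝒢 (pw X n) ≤ hodgeDim Ψ (pw X n) := by
    intro h N
    obtain ⟨n₀, hn₀⟩ := h N
    refine ⟨n₀, fun n hn => ?_⟩
    rw [commonRank_eq, hodgeDim_eq_F Ψ F]
    exact hn₀ n hn
  have nT : ¬ Large (comm Ψ 𝒢).sys 𝒢.gal.tate.sys X → ∀ n, TateLeHodge Ψ 𝒢 (pw X n) := by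
    intro h n j c hc
    exact (HodgeDec.killF_iff F).1 (killed_of_not_large
      (Δ := fun i => ((Ψ.ader i).base F).toTDer) hT hH h n j c (𝒢.fixed_iff.2 hc))
  have nH : ¬ Large (comm Ψ 𝒢).sys (killF Ψ.ader F).sys X →
      ∀ n, HodgeLeTate Ψ 𝒢 (pw X n) := by
    intro h n j c hc
    exact 𝒢.fixed_iff.1 (tate_of_not_large 𝒢.gal hH hT h n j c ((HodgeDec.killF_iff F).2 hc))
  have hr : ∀ Z : 𝒱.Obj, HodgeLeTate Ψ 𝒢 Z → commonRank Ψ 𝒢 Z = hodgeDim Ψ Z := by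
    intro Z h
    have h1 : (comm Ψ 𝒢).sys.C Z = (killF Ψ.ader F).sys.C Z := by
      refine le_antisymm (hH Z) (Submodule.span_mono ?_)
      rintro c ⟨j, hj⟩
      exact ⟨j, hj, 𝒢.fixed_iff.2 (h j c ((HodgeDec.killF_iff F).1 hj))⟩
    have hN : ∀ x, x ∈ LinearMap.ker ((baseW W F).tr Z) ↔ (baseW W F).tr Z x = 0 :=
      fun x => LinearMap.mem_ker
    rw [commonRank_eq, hodgeDim_eq_a Ψ F Z, ← formRank_eq (comm Ψ 𝒢).sys Z hN rfl,
      ← formRank_eq (killF Ψ.ader F).sys Z (s := {c | ∃ j, (comm Ψ 𝒢).P Z j c}) hN h1.symm]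
  have ht : ∀ Z : 𝒱.Obj, MumfordTate Ψ 𝒢 Z → tateDim 𝒢 Z = hodgeDim Ψ Z := by
    intro Z h
    rw [tateDim_eq, hodgeDim_eq_F Ψ F]
    have h1 : 𝒢.gal.tate.sys.C Z = (killF Ψ.ader F).sys.C Z := by
      rw [HPred.sys_C, HPred.sys_C, HPred.sp, HPred.sp]
      congr 1
      ext c
      refine exists_congr fun j => ?_
      rw [HodgeDec.killF_iff]
      exact 𝒢.fixed_iff.trans ⟨h.1 j c, h.2 j c⟩
    rw [h1]
  refine ⟨?_, ?_, ?_, ?_⟩
  · by_cases h : Large (comm Ψ 𝒢).sys 𝒢.gal.tate.sys X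
    · exact Or.inr (tendsto_of_large (lT h))
    · exact Or.inl (nT h)
  · by_cases h : Large (comm Ψ 𝒢).sys (killF Ψ.ader F).sys X
    · exact Or.inr (tendsto_of_large (lH h))
    · exact Or.inl (nH h)
  · by_cases h : Large (comm Ψ 𝒢).sys 𝒢.gal.tate.sys X
    · refine Or.inr (tendsto_of_large fun N => ?_)
      obtain ⟨n₀, hn₀⟩ := lT h N
      exact ⟨n₀, fun n hn => (hn₀ n hn).trans (le_max_left _ _)⟩
    · by_cases h' : Large (comm Ψ 𝒢).sys (killF Ψ.ader F).sys X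
      · refine Or.inr (tendsto_of_large fun N => ?_)
        obtain ⟨n₀, hn₀⟩ := lH h' N
        exact ⟨n₀, fun n hn => (hn₀ n hn).trans (le_max_right _ _)⟩
      · refine Or.inl fun n => ?_
        have h1 : MumfordTate Ψ 𝒢 (pw X n) := ⟨nT h n, nH h' n⟩
        have h2 := hr (pw X n) (nH h' n)
        exact ⟨h1, h2.trans (ht _ h1).symm, h2⟩
  · intro hHT
    by_cases h : Large (comm Ψ 𝒢).sys 𝒢.gal.tate.sys X
    · right
      have h1 := tendsto_of_large (lT h)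
      have h2 : ∀ n, commonRank Ψ 𝒢 (pw X n) = hodgeDim Ψ (pw X n) := fun n => hr _ (hHT n)
      simp only [h2] at h1
      exact h1
    · exact Or.inl fun n => ⟨nT h n, hHT n⟩

end MT

end Pool.Agent.Y129.Z
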