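import Pool.Agent.Y129.Z.Ext

/-!
# Rigidity: tensor automorphisms have finite orbits on systems of bounded index, and tensor
derivations vanish on them
-/

open CategoryTheory AlgebraicGeometry

universe u v

namespace Pool.Agent.Y129.Z

open Module
open Pool.Agent.Y133.Half

open Pool.Agent.H914 Pool.Agent.H914.VarClass Pool.Agent.H914.VarClass.Obj
  Pool.Agent.H914.WeilCohomology

section LA

variable {K V : Type*} [Field K] [AddCommGroup V] [Module K V]

/-- A functional which vanishes on `y` but not on `x`. -/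
lemma exists_sep {x y : V} (h : x ∉ (K ∙ y)) : ∃ f : Dual K V, f y = 0 ∧ f x ≠ 0 := by
  obtain ⟨f, hf, h2⟩ := Submodule.exists_dual_map_eq_bot_of_notMem h inferInstance
  refine ⟨f, ?_, hf⟩
  have h3 : f y ∈ (K ∙ y).map f := ⟨y, Submodule.mem_span_singleton_self y, rfl⟩
  rw [h2, Submodule.mem_bot] at h3
  exact h3

/-- Vectors separated by functionals. -/
lemma card_le_of_sep {n : ℕ} {R : Submodule K V} [FiniteDimensional K R] (w : Fin n → V)
    (hw : ∀ i, w i ∈ R) (f : Fin n → Dual K V) (h0 : ∀ i, f i (w i) ≠ 0)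
    (h1 : ∀ i j, j < i → f i (w j) = 0) : n ≤ finrank K R := by
  classical
  have hli : LinearIndependent K (fun i => (⟨w i, hw i⟩ : R)) := by
    rw [Fintype.linearIndependent_iff]
    intro α hα
    by_contra hcon
    push Not at hcon
    obtain ⟨i₁, hi₁⟩ := hcon
    -- the maximal index
    obtain ⟨i, hi, hmax⟩ := (Finset.univ.filter fun i => α i ≠ 0).exists_max_image id
      ⟨i₁, by simp [hi₁]⟩
    have hi0 : α i ≠ 0 := (Finset.mem_filter.1 hi).2
    have h2 : ∑ j, α j • w j = 0 := by
      have := congrArg (Submodule.subtype R) hα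
      rw [map_sum, map_zero] at this
      exact this
    have h3 := congrArg (f i) h2
    rw [map_sum, map_zero, Finset.sum_eq_single i] at h3
    · rw [map_smul, smul_eq_mul] at h3
      exact (mul_ne_zero hi0 (h0 i)) h3
    · intro j _ hj
      by_cases hj0 : α j = 0
      · rw [hj0, zero_smul, map_zero]
      · have hle : j ≤ i := hmax j (Finset.mem_filter.2 ⟨Finset.mem_univ _, hj0⟩)
        rw [map_smul, h1 i j (lt_of_le_of_ne hle hj), smul_zero]
    · intro h
      exact absurd (Finset.mem_univ i) h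
  have := hli.fintype_card_le_finrank
  rwa [Fintype.card_fin] at this

/-- General position. -/
lemma exists_general [Infinite K] {n : ℕ} {e : V} (he : e ≠ 0) (v : Fin n → V)
    (hv : Function.Injective v) (h : ∀ i j, i ≠ j → v i ∉ (K ∙ e)) :
    ∃ c : K, ∀ i j, i ≠ j → e + c • v i ∉ (K ∙ (e + c • v j)) := by
  classical
  let B : Fin n × Fin n → Set K := fun p =>
    {c | c ≠ 0 ∧ p.1 ≠ p.2 ∧ e + c • v p.1 ∈ (K ∙ (e + c • v p.2))}
  have hB : ∀ p, (B p).Subsingleton := by
    rintro ⟨i, j⟩ c ⟨hc0, hij, hc⟩ c' ⟨hc0', -, hc'⟩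
    obtain ⟨r, hr⟩ := Submodule.mem_span_singleton.1 hc
    obtain ⟨r', hr'⟩ := Submodule.mem_span_singleton.1 hc'
    by_contra hne
    dsimp only at hr hr' hij
    -- `v i = ((r - 1) / c) e + r v j`
    have e1 : v i = ((r - 1) / c) • e + r • v j := by
      have h1 : c • v i = (r - 1) • e + (r * c) • v j := by
        rw [smul_add, smul_smul] at hr
        rw [sub_smul, one_smul]
        have := eq_sub_of_add_eq' hr.symm
        rw [this]
        abel
      have h2 : v i = c⁻¹ • (c • v i) := by rw [smul_smul, inv_mul_cancel₀ hc0, one_smul]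
      rw [h2, h1, smul_add, smul_smul, smul_smul]
      congr 2
      · rw [div_eq_mul_inv, mul_comm]
      · rw [mul_comm r c, ← mul_assoc, inv_mul_cancel₀ hc0, one_mul]
    have e2 : v i = ((r' - 1) / c') • e + r' • v j := by
      have h1 : c' • v i = (r' - 1) • e + (r' * c') • v j := by
        rw [smul_add, smul_smul] at hr'
        rw [sub_smul, one_smul]
        have := eq_sub_of_add_eq' hr'.symm
        rw [this]
        abel
      have h2 : v i = c'⁻¹ • (c' • v i) := by rw [smul_smul, inv_mul_cancel₀ hc0', one_smul]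
      rw [h2, h1, smul_add, smul_smul, smul_smul]
      congr 2
      · rw [div_eq_mul_inv, mul_comm]
      · rw [mul_comm r' c', ← mul_assoc, inv_mul_cancel₀ hc0', one_mul]
    by_cases hr1 : r = r'
    · subst hr1
      have h3 : ((r - 1) / c - (r - 1) / c') • e = 0 := by
        rw [sub_smul, sub_eq_zero]
        exact add_right_cancel (e1.symm.trans e2)
      rcases smul_eq_zero.1 h3 with h4 | h4
      · have h5 : r = 1 := by
          by_contra h6
          have h7 : r - 1 ≠ 0 := sub_ne_zero.2 h6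
          rw [sub_eq_zero, div_eq_div_iff hc0 hc0'] at h4
          exact hne (mul_left_cancel₀ h7 h4).symm
        rw [h5, sub_self, zero_div, zero_smul, zero_add, one_smul] at e1
        exact hij (hv e1)
      · exact he h4
    · have h3 : (r - r') • v j = ((r' - 1) / c' - (r - 1) / c) • e := by
        have h4 : ((r - 1) / c) • e + r • v j = ((r' - 1) / c') • e + r' • v j := e1.symm.trans e2
        rw [sub_smul, sub_smul, sub_eq_sub_iff_add_eq_add, add_comm (r • v j), h4]
      apply h j i (Ne.symm hij)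
      rw [Submodule.mem_span_singleton]
      refine ⟨(r - r')⁻¹ * ((r' - 1) / c' - (r - 1) / c), ?_⟩
      rw [← smul_smul, ← h3, smul_smul, inv_mul_cancel₀ (sub_ne_zero.2 hr1), one_smul]
  have hfin : (({0} : Set K) ∪ ⋃ p, B p).Finite :=
    (Set.finite_singleton 0).union (Set.finite_iUnion fun p => (hB p).finite)
  obtain ⟨c, hc⟩ := hfin.exists_notMem
  refine ⟨c, fun i j hij hmem => hc ?_⟩
  by_cases h0 : c = 0
  · exact Or.inl h0
  · exact Or.inr (Set.mem_iUnion.2 ⟨(i, j), h0, hij, hmem⟩)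

end LA

variable {k : Type u} [Field k] {𝒱 : VarClass k} {ops : CycleOps 𝒱}
  {W : WeilCohomology.{u, v} ops} {S T : Sys W} {X P Q Z' : 𝒱.Obj}

lemma Bdd.one_le {N : ℕ} (h : Bdd S T X N) (hST : ∀ X, S.C X ≤ T.C X) : 1 ≤ N := by
  obtain ⟨g, -, -, hg, hr⟩ := h.cover (P := pw X 1) hST (m := 1) (j := 1) rfl (Iso.refl _)
    (T.one _)
  rw [Nat.one_le_iff_ne_zero]
  rintro rfl
  have h1 : g = 0 := LinearMap.range_eq_bot.1 (Submodule.finrank_eq_zero.1 (Nat.le_zero.1 hr))
  rw [h1, LinearMap.zero_apply] at hg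
  have : Nontrivial (W.H (pw X 1)) := by
    apply Module.nontrivial_of_finrank_pos (R := W.K)
    rw [finrank_pw]
    exact Nat.pow_pos h.pos
  exact zero_ne_one hg

/-- The projections between the powers of `P` used below. -/
def arrs (P : 𝒱.Obj) (n : ℕ) : Set (Arr 𝒱) :=
  (Set.range fun m : Fin n => (⟨(pw P m).prod P, pw P m, fst (pw P m) P⟩ : Arr 𝒱)) ∪
  (Set.range fun m : Fin n => (⟨(pw P m).prod P, P, snd (pw P m) P⟩ : Arr 𝒱)) ∪
  {(⟨(pw P n).prod (pw P n), pw P n, fst (pw P n) (pw P n)⟩ : Arr 𝒱),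
    (⟨(pw P n).prod (pw P n), pw P n, snd (pw P n) (pw P n)⟩ : Arr 𝒱)}

lemma arrs_finite (P : 𝒱.Obj) (n : ℕ) : (arrs P n).Finite :=
  ((Set.finite_range _).union (Set.finite_range _)).union (Set.toFinite _)

/-- **Rigidity for automorphisms.** -/
theorem Bdd.orbit {N : ℕ} (h : Bdd S T X N) (hST : ∀ X, S.C X ≤ T.C X) {m : ℕ}
    (θ : P ≅ pw X m) {t : W.H P} (ht : t ∈ T.C P) {n : ℕ} (hn : n = 2 * N + 1)
    (Φ : Fin (N + 1) → TAut W (arrs P n))
    (hΦ : ∀ i, (Φ i).Fixes S {(pw P n).prod (pw P n)}) :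
    ∃ i j, i ≠ j ∧ (Φ i).φ P t = (Φ j).φ P t := by
  by_contra hcon
  push Not at hcon
  have hN := h.one_le hST
  have hP : Nontrivial (W.H P) := by
    apply Module.nontrivial_of_finrank_pos (R := W.K)
    rw [finrank_iso θ, finrank_pw]
    exact Nat.pow_pos h.pos
  set v : Fin (N + 1) → W.H P := fun i => (Φ i).φ P t with hv
  have hinj : Function.Injective v := fun i j hij => by
    by_contra hne
    exact hcon i j hne hij
  have hte := T.even ht
  have hgen : ∀ i j, i ≠ j → v i ∉ (W.K ∙ (1 : W.H P)) := by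
    intro i j hij hmem
    obtain ⟨a, ha⟩ := Submodule.mem_span_singleton.1 hmem
    have h1 : t - a • 1 = 0 := by
      apply (Φ i).inj (Submodule.sub_mem _ hte (Submodule.smul_mem _ _ PH.one))
      rw [map_sub, map_smul, (Φ i).one, ha]
      exact sub_self _
    have h2 : t = a • 1 := sub_eq_zero.1 h1
    apply hij
    apply hinj
    rw [hv]
    dsimp only
    rw [h2, map_smul, map_smul, (Φ i).one, (Φ j).one]
  obtain ⟨c, hc⟩ := exists_general (K := W.K) (e := (1 : W.H P)) one_ne_zero v hinj hgen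
  set u : W.H P := 1 + c • t with hu
  have huT : u ∈ T.C P := Submodule.add_mem _ (T.one P) (Submodule.smul_mem _ _ ht)
  have huE := T.even huT
  have hΦu : ∀ i, (Φ i).φ P u = 1 + c • v i := by
    intro i
    rw [hu, map_add, map_smul, (Φ i).one]
  obtain ⟨M, hM, ⟨φ⟩⟩ := pw_pw θ n
  obtain ⟨g, hg, -, hgw, hr⟩ := h.cover hST (P := pw P n) (m := M) (j := (m + 1) * (N + 1))
    (by rw [hM, hn]; ring) φ (xpw_mem huT n)
  have hM1 : ∀ m < n, (⟨(pw P m).prod P, pw P m, fst (pw P m) P⟩ : Arr 𝒱) ∈ arrs P n ∧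
      (⟨(pw P m).prod P, P, snd (pw P m) P⟩ : Arr 𝒱) ∈ arrs P n := fun m hm =>
    ⟨Or.inl (Or.inl ⟨⟨m, hm⟩, rfl⟩), Or.inl (Or.inr ⟨⟨m, hm⟩, rfl⟩)⟩
  have hmem : ∀ i, xpw W (1 + c • v i) n ∈ LinearMap.range g := by
    intro i
    rw [← hΦu, ← TAut.xpw huE n hM1]
    refine ⟨(Φ i).φ _ (xpw W u n), ?_⟩
    rw [← TAut.op (hΦ i) rfl (Or.inr (Or.inl rfl)) (Or.inr (Or.inr rfl)) hg (xpw_even huE n), hgw]
  -- the functionals
  have hsep : ∀ i j : Fin (N + 1), i ≠ j → ∃ f : Dual W.K (W.H P),
      f (1 + c • v j) = 0 ∧ f (1 + c • v i) ≠ 0 := fun i j hij => exists_sep (hc i j hij)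
  have hne : ∀ i : Fin (N + 1), ∃ f : Dual W.K (W.H P), f (1 + c • v i) ≠ 0 := by
    intro i
    obtain ⟨j, hj⟩ : ∃ j : Fin (N + 1), j ≠ i := by
      have : Nontrivial (Fin (N + 1)) := Fin.nontrivial_iff_two_le.2 (by omega)
      exact exists_ne i
    obtain ⟨f, -, hf⟩ := hsep i j hj.symm
    exact ⟨f, hf⟩
  choose f₁ hf₁ using hne
  choose f₂ hf₂ hf₂' using hsep
  let F : Fin (N + 1) → ℕ → Dual W.K (W.H P) := fun i s =>
    if hs : ∃ h : s < N + 1, i ≠ ⟨s, h⟩ then f₂ i ⟨s, hs.1⟩ hs.2 else f₁ i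
  have hF0 : ∀ i s, F i s (1 + c • v i) ≠ 0 := by
    intro i s
    by_cases hs : ∃ h : s < N + 1, i ≠ ⟨s, h⟩
    · simp only [F, dif_pos hs]; exact hf₂' i _ hs.2
    · simp only [F, dif_neg hs]; exact hf₁ i
  have hF1 : ∀ i j : Fin (N + 1), i ≠ j → F i j (1 + c • v j) = 0 := by
    intro i j hij
    have hs : ∃ h : (j : ℕ) < N + 1, i ≠ ⟨j, h⟩ := ⟨j.2, hij⟩
    simp only [F, dif_pos hs]
    exact hf₂ i _ hs.2
  have hcard := card_le_of_sep (R := LinearMap.range g) (fun i => xpw W (1 + c • v i) n) hmem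
    (fun i => fpw (F i) n) (fun i => by
      rw [fpw_xpw]
      exact Finset.prod_ne_zero_iff.2 fun s _ => hF0 i s) (fun i j hji => by
      rw [fpw_xpw]
      exact Finset.prod_eq_zero (i := (j : ℕ)) (Finset.mem_range.2 (by omega))
        (hF1 i j (ne_of_gt hji)))
  omega

/-! ### Derivations -/

/-- The iterates of a derivation on external products. -/
lemma der_iter {Δ : TDer W} {x : W.H P} {y : W.H Q} (hx : x ∈ PH W P 0) (hy : y ∈ PH W Q 0)
    (n : ℕ) : ((Δ.D (P.prod Q)) ^ n) (xp W x y) =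
      ∑ i ∈ Finset.range (n + 1), (n.choose i) •
        xp W (((Δ.D P) ^ i) x) (((Δ.D Q) ^ (n - i)) y) := by
  set A : Module.End W.K (W.H (P.prod Q)) := extOp W (Δ.D P) 1 with hA
  set B : Module.End W.K (W.H (P.prod Q)) := extOp W 1 (Δ.D Q) with hB
  have hAB : Commute A B := by
    change A * B = B * A
    rw [hA, hB, extOp_mul, extOp_mul, mul_one, one_mul, mul_one, one_mul]
  have key : ∀ (n : ℕ) {x : W.H P} {y : W.H Q}, x ∈ PH W P 0 → y ∈ PH W Q 0 →
      ((Δ.D (P.prod Q)) ^ n) (xp W x y) = ((A + B) ^ n) (xp W x y) := by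
    intro n
    induction n with
    | zero => intro x y _ _; rfl
    | succ n ih =>
      intro x y hx hy
      rw [pow_succ, pow_succ, Module.End.mul_apply, Module.End.mul_apply, TDer.xp hx hy, map_add,
        ih (Δ.even hx) hy, ih hx (Δ.even hy), LinearMap.add_apply, map_add, hA, hB, extOp_xp,
        extOp_xp, Module.End.one_apply, Module.End.one_apply]
  have hAp : ∀ i, A ^ i = extOp W ((Δ.D P) ^ i) (1 : Module.End W.K (W.H Q)) := fun i =>
    Sys.extOp_pow _ _
  have hBp : ∀ i, B ^ i = extOp W (1 : Module.End W.K (W.H P)) ((Δ.D Q) ^ i) := by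
    intro i
    induction i with
    | zero => rw [pow_zero, pow_zero, extOp_one]
    | succ i ih => rw [pow_succ, ih, hB, extOp_mul, pow_succ, mul_one]
  rw [key n hx hy, hAB.add_pow, LinearMap.sum_apply]
  refine Finset.sum_congr rfl fun i _ => ?_
  have h1 : (A ^ i * B ^ (n - i) * (n.choose i : Module.End W.K (W.H (P.prod Q)))) =
      (n.choose i) • (A ^ i * B ^ (n - i)) := by
    rw [nsmul_eq_mul, Nat.cast_comm]
  rw [h1, LinearMap.smul_apply, hAp, hBp, Module.End.mul_apply, extOp_xp, extOp_xp,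
    Module.End.one_apply, Module.End.one_apply]

/-- The value of a functional on an iterated derivative of an external power. -/
lemma der_value {Δ : TDer W} {u : W.H P} (hu : u ∈ PH W P 0) {f f' : Dual W.K (W.H P)}
    (hf : f u = 0) (hf1 : f (Δ.D P u) ≠ 0) (hf' : f' u ≠ 0) (i n : ℕ) :
    (∀ j < min i (n + 1), fpw (fun s => if s < i then f else f') n
      (((Δ.D (pw P n)) ^ j) (xpw W u n)) = 0) ∧
    fpw (fun s => if s < i then f else f') n
      (((Δ.D (pw P n)) ^ (min i (n + 1))) (xpw W u n)) ≠ 0 := by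
  set F : ℕ → Dual W.K (W.H P) := fun s => if s < i then f else f' with hF
  induction n with
  | zero =>
    rcases Nat.eq_zero_or_pos i with rfl | hi
    · refine ⟨fun j hj => absurd hj (by omega), ?_⟩
      have h1 : F 0 = f' := by rw [hF]; exact if_neg (lt_irrefl _)
      change F 0 (((Δ.D P : Module.End W.K (W.H P)) ^ 0) u) ≠ 0
      rw [h1]
      exact hf'
    · have h1 : F 0 = f := by rw [hF]; exact if_pos hi
      have h2 : min i (0 + 1) = 1 := by omega
      refine ⟨fun j hj => ?_, ?_⟩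
      · obtain rfl : j = 0 := by omega
        change F 0 (((Δ.D P : Module.End W.K (W.H P)) ^ 0) u) = 0
        rw [h1]
        exact hf
      · have h4 : f (((Δ.D P : Module.End W.K (W.H P)) ^ 1) u) ≠ 0 := by
          rw [pow_one]; exact hf1
        rw [h2]
        change F 0 (((Δ.D P : Module.End W.K (W.H P)) ^ 1) u) ≠ 0
        rw [h1]
        exact h4
  | succ n ih =>
    obtain ⟨ih1, ih2⟩ := ih
    have hval : ∀ j, fpw F (n + 1) (((Δ.D (pw P (n + 1))) ^ j) (xpw W u (n + 1))) =
        ∑ s ∈ Finset.range (j + 1), (j.choose s) •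
          (fpw F n (((Δ.D (pw P n)) ^ s) (xpw W u n)) * F (n + 1) (((Δ.D P) ^ (j - s)) u)) := by
      intro j
      have h1 := der_iter (Δ := Δ) (xpw_even hu n) hu j
      change xpf (fpw F n) (F (n + 1)) (((Δ.D ((pw P n).prod P)) ^ j) (xp W (xpw W u n) u)) = _
      rw [h1, map_sum]
      refine Finset.sum_congr rfl fun s _ => ?_
      rw [map_nsmul, xpf_xp]
    by_cases hi : n + 1 < i
    · have h1 : F (n + 1) = f := by rw [hF]; exact if_pos hi
      have h2 : min i (n + 1) = n + 1 := by omega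
      have h3 : min i (n + 1 + 1) = n + 2 := by omega
      rw [h2] at ih1 ih2
      rw [h3]
      refine ⟨fun j hj => ?_, ?_⟩
      · rw [hval, h1]
        refine Finset.sum_eq_zero fun s hs => ?_
        rw [Finset.mem_range] at hs
        rcases Nat.lt_or_ge s j with h4 | h4
        · rw [ih1 s (by omega), zero_mul, smul_zero]
        · rw [show j - s = 0 by omega, pow_zero, Module.End.one_apply, hf, mul_zero, smul_zero]
      · rw [hval, h1, Finset.sum_eq_single (n + 1)]
        · rw [show n + 2 - (n + 1) = 1 by omega, pow_one]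
          have h5 : ((n + 2).choose (n + 1) : W.K) ≠ 0 := by
            rw [Nat.choose_succ_self_right]
            exact Nat.cast_ne_zero.2 (Nat.succ_ne_zero (n + 1))
          rw [nsmul_eq_mul]
          exact mul_ne_zero h5 (mul_ne_zero ih2 hf1)
        · intro s hs hsn
          rw [Finset.mem_range] at hs
          rcases Nat.lt_or_ge s (n + 1) with h4 | h4
          · rw [ih1 s h4, zero_mul, smul_zero]
          · rw [show n + 2 - s = 0 by omega, pow_zero, Module.End.one_apply, hf, mul_zero,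
              smul_zero]
        · intro h
          exact absurd (Finset.mem_range.2 (by omega)) h
    · have h1 : F (n + 1) = f' := by rw [hF]; exact if_neg hi
      have h2 : min i (n + 1) = i := by omega
      have h3 : min i (n + 1 + 1) = i := by omega
      rw [h2] at ih1 ih2
      rw [h3]
      refine ⟨fun j hj => ?_, ?_⟩
      · rw [hval]
        refine Finset.sum_eq_zero fun s hs => ?_
        rw [Finset.mem_range] at hs
        rw [ih1 s (by omega), zero_mul, smul_zero]
      · rw [hval, h1, Finset.sum_eq_single i]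
        · rw [Nat.sub_self, pow_zero, Module.End.one_apply, Nat.choose_self, one_smul]
          exact mul_ne_zero ih2 hf'
        · intro s hs hsn
          rw [Finset.mem_range] at hs
          rw [ih1 s (by omega), zero_mul, smul_zero]
        · intro h
          exact absurd (Finset.mem_range.2 (by omega)) h

/-- **Rigidity for derivations.** -/
theorem Bdd.der {N : ℕ} (h : Bdd S T X N) (hST : ∀ X, S.C X ≤ T.C X) {m : ℕ}
    (θ : P ≅ pw X m) {t : W.H P} (ht : t ∈ T.C P) (Δ : TDer W) (hΔ : Δ.Kills S) :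
    Δ.D P t = 0 := by
  by_contra hcon
  have hP : Nontrivial (W.H P) := ⟨⟨_, _, hcon⟩⟩
  have hE := T.even ht
  -- a class which is not an eigenvector
  obtain ⟨u, huT, hu⟩ : ∃ u ∈ T.C P, Δ.D P u ∉ (W.K ∙ u) := by
    by_contra hall
    push Not at hall
    have h1 := hall (1 + t) (Submodule.add_mem _ (T.one P) ht)
    have h2 := hall (1 + (2 : W.K) • t)
      (Submodule.add_mem _ (T.one P) (Submodule.smul_mem _ _ ht))
    rw [map_add, Δ.one, zero_add] at h1 h2
    rw [map_smul] at h2
    obtain ⟨r, hr⟩ := Submodule.mem_span_singleton.1 h1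
    obtain ⟨s, hs⟩ := Submodule.mem_span_singleton.1 h2
    have h3 : (2 * r - s) • (1 : W.H P) = (2 * s - 2 * r) • t := by
      have h4 : (2 * r) • (1 : W.H P) + (2 * r) • t = s • (1 : W.H P) + (2 * s) • t := by
        rw [← hr] at hs
        simp only [smul_add, smul_smul] at hs
        rw [mul_comm s 2] at hs
        exact hs.symm
      rw [sub_smul, sub_smul, sub_eq_sub_iff_add_eq_add, h4]
      abel
    by_cases h5 : s = r
    · subst h5
      rw [sub_self, zero_smul] at h3
      rcases smul_eq_zero.1 h3 with h6 | h6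
      · have h7 : s = 0 := by linear_combination h6
        rw [h7, zero_smul] at hr
        exact hcon hr.symm
      · exact one_ne_zero h6
    · have h6 : (2 * s - 2 * r) ≠ 0 := by
        rw [← mul_sub]
        exact mul_ne_zero two_ne_zero (sub_ne_zero.2 h5)
      have h7 : t = ((2 * s - 2 * r)⁻¹ * (2 * r - s)) • (1 : W.H P) := by
        rw [← smul_smul, h3, smul_smul, inv_mul_cancel₀ h6, one_smul]
      apply hcon
      rw [h7, map_smul, Δ.one, smul_zero]
  have huE := T.even huT
  have hu0 : u ≠ 0 := by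
    rintro rfl
    apply hu
    rw [map_zero]
    exact Submodule.zero_mem _
  obtain ⟨f, hf, hf1⟩ := exists_sep hu
  obtain ⟨f', hf'⟩ := Module.Projective.exists_dual_ne_zero W.K hu0
  set n := 2 * N + 1 with hn
  obtain ⟨M, hM, ⟨φ⟩⟩ := pw_pw θ n
  obtain ⟨g, hg, -, hgw, hr⟩ := h.cover hST (P := pw P n) (m := M) (j := (m + 1) * (N + 1))
    (by rw [hM, hn]; ring) φ (xpw_mem huT n)
  have hev : ∀ i : ℕ, ((Δ.D (pw P n)) ^ i) (xpw W u n) ∈ PH W (pw P n) 0 := by
    intro i
    induction i with
    | zero => exact xpw_even huE n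
    | succ i ih =>
      rw [pow_succ', Module.End.mul_apply]
      exact Δ.even ih
  have hmem : ∀ i : ℕ, g (((Δ.D (pw P n)) ^ i) (xpw W u n)) =
      ((Δ.D (pw P n)) ^ i) (xpw W u n) := by
    intro i
    induction i with
    | zero => exact hgw
    | succ i ih =>
      rw [pow_succ', Module.End.mul_apply, ← TDer.op hΔ hg (hev i), ih]
  have hcard := card_le_of_sep (n := N + 1) (R := LinearMap.range g)
    (fun i => ((Δ.D (pw P n)) ^ (i : ℕ)) (xpw W u n)) (fun i => ⟨_, hmem i⟩)
    (fun i => fpw (fun s => if s < (i : ℕ) then f else f') n)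
    (fun i => by
      have h1 := (der_value (Δ := Δ) huE hf hf1 hf' (i : ℕ) n).2
      rwa [show min (i : ℕ) (n + 1) = i by omega] at h1)
    (fun i j hji => by
      apply (der_value (Δ := Δ) huE hf hf1 hf' (i : ℕ) n).1
      have : (j : ℕ) < i := hji
      omega)
  omega

end Pool.Agent.Y129.Z
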